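import Mathlib

/-!
# Commutative `r`-groups with at most one subgroup of order `r` are cyclic
-/

namespace Pool.Agent.H56.INW

open Subgroup

variable {r : ℕ} [hr : Fact r.Prime]

theorem isCyclic_of_unique {A : Type*} [CommGroup A] [Finite A] (hA : IsPGroup r A)
    (h : ∀ z t : A, z ≠ 1 → z ^ r = 1 → t ^ r = 1 → t ∈ zpowers z) : IsCyclic A := by
  classical
  have : Fintype A := Fintype.ofFinite A
  have h1 : (Finset.univ.filter fun a : A => a ^ r = 1).card ≤ r := by
    by_cases hz : ∃ z : A, z ≠ 1 ∧ z ^ r = 1
    · obtain ⟨z, hz1, hzr⟩ := hz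
      have hord : orderOf z = r := orderOf_eq_prime hzr hz1
      calc (Finset.univ.filter fun a : A => a ^ r = 1).card
          ≤ (Finset.univ.filter fun a : A => a ∈ zpowers z).card := by
            apply Finset.card_le_card
            intro a ha
            rw [Finset.mem_filter] at ha ⊢
            exact ⟨ha.1, h z a hz1 hzr ha.2⟩
        _ = r := by
            rw [← hord, ← Nat.card_zpowers, Nat.card_eq_fintype_card]
            exact (Fintype.card_subtype _).symm
    · push Not at hz
      calc (Finset.univ.filter fun a : A => a ^ r = 1).card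
          ≤ ({1} : Finset A).card := by
            apply Finset.card_le_card
            intro a ha
            rw [Finset.mem_filter] at ha
            rw [Finset.mem_singleton]
            by_contra hne
            exact hz a hne ha.2
        _ = 1 := Finset.card_singleton _
        _ ≤ r := hr.out.one_lt.le
  have h2 : ∀ j : ℕ, (Finset.univ.filter fun a : A => a ^ r ^ j = 1).card ≤ r ^ j := by
    intro j
    induction j with
    | zero =>
      have : (Finset.univ.filter fun a : A => a ^ r ^ 0 = 1) = {1} := by
        ext a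
        simp
      rw [this]; simp
    | succ j ih =>
      have hmap : ∀ a ∈ (Finset.univ.filter fun a : A => a ^ r ^ (j + 1) = 1),
          a ^ r ∈ (Finset.univ.filter fun a : A => a ^ r ^ j = 1) := by
        intro a ha
        rw [Finset.mem_filter] at ha ⊢
        refine ⟨Finset.mem_univ _, ?_⟩
        rw [← pow_mul, ← pow_succ']
        exact ha.2
      have := Finset.card_le_mul_card_image_of_maps_to hmap r (by
        intro b _
        by_cases hb : ∃ a₀ : A, a₀ ^ r = b
        · obtain ⟨a₀, ha₀⟩ := hb
          refine le_trans (Finset.card_le_card_of_injOn (fun a => a * a₀⁻¹) ?_ ?_) h1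
          · intro a ha
            rw [Finset.mem_coe, Finset.mem_filter] at ha
            rw [Finset.mem_coe, Finset.mem_filter]
            refine ⟨Finset.mem_univ _, ?_⟩
            rw [mul_pow, ha.2, inv_pow, ha₀, mul_inv_cancel]
          · intro a _ a' _ haa
            exact mul_right_cancel haa
        · push Not at hb
          rw [Finset.filter_eq_empty_iff.2]
          · simp
          · intro a _ hab
            exact hb a hab)
      calc _ ≤ _ := this
        _ ≤ r * r ^ j := Nat.mul_le_mul_left _ ih
        _ = r ^ (j + 1) := by rw [pow_succ']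
  obtain ⟨N, hN⟩ := (IsPGroup.iff_card (p := r)).1 hA
  apply isCyclic_of_card_pow_eq_one_le
  intro n hn
  have hg : Nat.gcd n (r ^ N) ∣ r ^ N := Nat.gcd_dvd_right _ _
  obtain ⟨j, _, hj⟩ := (Nat.dvd_prime_pow hr.out).1 hg
  calc (Finset.univ.filter fun a : A => a ^ n = 1).card
      ≤ (Finset.univ.filter fun a : A => a ^ r ^ j = 1).card := by
        apply Finset.card_le_card
        intro a ha
        rw [Finset.mem_filter] at ha ⊢
        refine ⟨Finset.mem_univ _, ?_⟩
        rw [← hj, ← hN]
        exact pow_gcd_eq_one.2 ⟨ha.2, pow_card_eq_one'⟩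
    _ ≤ r ^ j := h2 j
    _ ≤ n := by
        rw [← hj]
        exact Nat.le_of_dvd hn (Nat.gcd_dvd_left _ _)

/-- The version for commutative subgroups. -/
theorem exists_gen_of_unique {P : Type*} [Group P] [Finite P] (hP : IsPGroup r P) (A : Subgroup P)
    (hcomm : ∀ a ∈ A, ∀ b ∈ A, a * b = b * a)
    (h : ∀ z ∈ A, ∀ t ∈ A, z ≠ 1 → z ^ r = 1 → t ^ r = 1 → t ∈ zpowers z) :
    ∃ ζ ∈ A, ∀ a ∈ A, a ∈ zpowers ζ := by
  let _ : CommGroup A := { (inferInstance : Group A) with
    mul_comm := fun a b => Subtype.ext (hcomm a a.2 b b.2) }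
  have hcyc : IsCyclic A := by
    apply isCyclic_of_unique (r := r) (hP.to_subgroup A)
    intro z t hz hzr htr
    have hz' : (z : P) ≠ 1 := fun hh => hz (Subtype.ext hh)
    obtain ⟨i, hi⟩ := Subgroup.mem_zpowers_iff.1 (h z z.2 t t.2 hz'
      (by rw [← Subgroup.coe_pow]; exact congrArg Subtype.val hzr)
      (by rw [← Subgroup.coe_pow]; exact congrArg Subtype.val htr))
    refine Subgroup.mem_zpowers_iff.2 ⟨i, Subtype.ext ?_⟩
    rw [← hi, Subgroup.coe_zpow]
  obtain ⟨ζ, hζ⟩ := hcyc.exists_generator
  refine ⟨ζ, ζ.2, fun a ha => ?_⟩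
  obtain ⟨i, hi⟩ := Subgroup.mem_zpowers_iff.1 (hζ ⟨a, ha⟩)
  refine Subgroup.mem_zpowers_iff.2 ⟨i, ?_⟩
  have := congrArg Subtype.val hi
  rw [Subgroup.coe_zpow] at this
  exact this

end Pool.Agent.H56.INW
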