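import Mathlib.RepresentationTheory.Character
import Mathlib.RepresentationTheory.Maschke
import Mathlib.Analysis.Complex.Basic

/-!
# Nonvanishing elements
-/

namespace Pool.Agent.H56.INW

/-- An element `x` of a group `G` is nonvanishing if no irreducible complex character of `G`
is zero at `x`. -/
def Nonvanishing {G : Type*} [Group G] (x : G) : Prop :=
  ∀ (n : ℕ) (ρ : Representation ℂ G (Fin n → ℂ)), ρ.IsIrreducible → ρ.character x ≠ 0

end Pool.Agent.H56.INW
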