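import Pool.Agent.H56.INW.Rep
import Mathlib.GroupTheory.FiniteAbelian.Duality
import Mathlib.RingTheory.RootsOfUnity.AlgebraicallyClosed
import Mathlib.Analysis.Complex.Polynomial.Basic
import Mathlib.Algebra.Module.ZMod

/-!
# The dual module
-/

namespace Pool.Agent.H56.INW

theorem dual_sep {A : Type*} [iA : Group A] [Finite A] (hc : ∀ a b : A, a * b = b * a) {a b : A}
    (h : ∀ χ : A →* ℂˣ, χ a = χ b) : a = b := by
  let cA : CommGroup A := { iA with mul_comm := hc }
  exact (CommGroup.forall_apply_eq_apply_iff A (M := ℂ)).1 h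

theorem dual_top {A : Type*} [iA : Group A] [Finite A] (hc : ∀ a b : A, a * b = b * a)
    (Φ : Subgroup (A →* ℂˣ)) (h : ∀ a, (∀ χ ∈ Φ, χ a = 1) → a = 1) : Φ = ⊤ := by
  let cA : CommGroup A := { iA with mul_comm := hc }
  have h1 : (CommGroup.subgroupOrderIsoSubgroupMonoidHom A ℂ).symm (OrderDual.toDual Φ) = ⊥ := by
    rw [Subgroup.eq_bot_iff_forall]
    intro a ha
    rw [CommGroup.mem_subgroupOrderIsoSubgroupMonoidHom_symm_iff] at ha
    exact h a ha
  have h2 := (OrderIso.symm_apply_eq _).1 h1
  rw [OrderIso.map_bot] at h2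
  exact h2

theorem dual_card {A : Type*} [iA : Group A] [Finite A] (hc : ∀ a b : A, a * b = b * a) :
    Nat.card (A →* ℂˣ) = Nat.card A := by
  let cA : CommGroup A := { iA with mul_comm := hc }
  exact CommGroup.card_monoidHom_of_hasEnoughRootsOfUnity A ℂ

/-- The action on the linear characters of a normal subgroup. -/
def cact {G : Type*} [Group G] (V : Subgroup G) [V.Normal] (p : ℕ)
    [Module (ZMod p) (Additive (V →* ℂˣ))] :
    G →* (Additive (V →* ℂˣ) ≃ₗ[ZMod p] Additive (V →* ℂˣ)) where
  toFun g :=
    { toFun := fun χ => Additive.ofMul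
        ((Additive.toMul χ).comp (MulAut.conjNormal g⁻¹ : MulAut V).toMonoidHom)
      invFun := fun χ => Additive.ofMul
        ((Additive.toMul χ).comp (MulAut.conjNormal g : MulAut V).toMonoidHom)
      left_inv := by
        intro χ
        apply Additive.toMul.injective
        ext v
        change (((Additive.toMul χ) (MulAut.conjNormal g⁻¹ (MulAut.conjNormal g v)) : ℂˣ) : ℂ) =
          ((Additive.toMul χ) v : ℂˣ)
        congr 2
        apply Subtype.ext
        simp [mul_assoc]
      right_inv := by
        intro χ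
        apply Additive.toMul.injective
        ext v
        change (((Additive.toMul χ) (MulAut.conjNormal g (MulAut.conjNormal g⁻¹ v)) : ℂˣ) : ℂ) =
          ((Additive.toMul χ) v : ℂˣ)
        congr 2
        apply Subtype.ext
        simp [mul_assoc]
      map_add' := fun _ _ => rfl
      map_smul' := fun c χ => ZMod.map_smul
        ({ toFun := fun χ => Additive.ofMul
            ((Additive.toMul χ).comp (MulAut.conjNormal g⁻¹ : MulAut V).toMonoidHom)
           map_zero' := rfl
           map_add' := fun _ _ => rfl } :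
           Additive (V →* ℂˣ) →+ Additive (V →* ℂˣ)) c χ }
  map_one' := by
    apply LinearEquiv.ext
    intro χ
    apply Additive.toMul.injective
    ext v
    change (((Additive.toMul χ) (MulAut.conjNormal (1 : G)⁻¹ v) : ℂˣ) : ℂ) =
          ((Additive.toMul χ) v : ℂˣ)
    congr 2
    apply Subtype.ext
    simp
  map_mul' g h := by
    apply LinearEquiv.ext
    intro χ
    apply Additive.toMul.injective
    ext v
    change (((Additive.toMul χ) (MulAut.conjNormal (g * h)⁻¹ v) : ℂˣ) : ℂ) =
          ((Additive.toMul χ) (MulAut.conjNormal h⁻¹ (MulAut.conjNormal g⁻¹ v)) : ℂˣ)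
    congr 2
    apply Subtype.ext
    simp [mul_assoc]

theorem cact_apply {G : Type*} [Group G] (V : Subgroup G) [V.Normal] (p : ℕ)
    [Module (ZMod p) (Additive (V →* ℂˣ))] (g : G)
    (χ : Additive (V →* ℂˣ)) (v : V) :
    Additive.toMul (cact V p g χ) v = Additive.toMul χ (MulAut.conjNormal g⁻¹ v) := rfl

end Pool.Agent.H56.INW
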