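import Mathlib.GroupTheory.Nilpotent

/-!
# The Fitting subgroup of a finite group
-/

namespace Pool.Agent.H56.INW

open scoped commutatorElement

/-- Elements whose commutators with `C` lie in `D`. -/
def cz {G : Type*} [Group G] (C D : Subgroup G) [hD : D.Normal] : Subgroup G where
  carrier := {a | ∀ c ∈ C, ⁅a, c⁆ ∈ D}
  mul_mem' := by
    intro a b ha hb c hc
    rw [commutatorElement_mul_left_eq_conj_mul]
    exact D.mul_mem (hD.conj_mem _ (hb c hc) a) (ha c hc)
  one_mem' := by
    intro c _
    rw [commutatorElement_one_left]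
    exact D.one_mem
  inv_mem' := by
    intro a ha c hc
    rw [commutatorElement_inv_left, ← commutatorElement_inv]
    have := hD.conj_mem _ (D.inv_mem (ha c hc)) a⁻¹
    rwa [inv_inv] at this

theorem le_cz {G : Type*} [Group G] (A C D : Subgroup G) [hD : D.Normal] :
    A ≤ cz C D ↔ ⁅A, C⁆ ≤ D := by
  rw [Subgroup.commutator_le]
  exact Iff.rfl

/-- The extended lower central series. -/
def ea {G : Type*} [Group G] (M : Subgroup G) : ℕ → Subgroup G
  | 0 => ⊤
  | i + 1 => M.lowerCentralSeries i

theorem ea_normal {G : Type*} [Group G] (M : Subgroup G) [M.Normal] (i : ℕ) :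
    (ea M i).Normal := by
  cases i with
  | zero => exact (inferInstance : (⊤ : Subgroup G).Normal)
  | succ i => exact (inferInstance : (M.lowerCentralSeries i).Normal)

theorem ea_comm {G : Type*} [Group G] (M : Subgroup G) [M.Normal] (i : ℕ) :
    ⁅ea M i, M⁆ ≤ ea M (i + 1) := by
  cases i with
  | zero => exact Subgroup.commutator_le_right _ _
  | succ i => exact le_of_eq (Subgroup.lowerCentralSeries_succ M i).symm

theorem ea_bot {G : Type*} [Group G] (M : Subgroup G) {c i : ℕ}
    (hc : M.lowerCentralSeries c = ⊥) (hi : c + 1 ≤ i) : ea M i = ⊥ := by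
  obtain ⟨j, rfl⟩ : ∃ j, i = j + 1 := ⟨i - 1, by omega⟩
  have h1 : c ≤ j := by omega
  have := M.lowerCentralSeries_antitone h1
  rw [hc] at this
  exact le_bot_iff.1 this

/-- The product of two nilpotent normal subgroups is nilpotent. -/
theorem nilpotent_sup {G : Type*} [Group G] (M N : Subgroup G) [hM : M.Normal] [hN : N.Normal]
    (hMn : Group.IsNilpotent M) (hNn : Group.IsNilpotent N) :
    Group.IsNilpotent (M ⊔ N : Subgroup G) := by
  obtain ⟨c, hc⟩ := (Subgroup.isNilpotent_iff_lowerCentralSeries M).1 hMn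
  obtain ⟨d, hd⟩ := (Subgroup.isNilpotent_iff_lowerCentralSeries N).1 hNn
  have hMi := ea_normal M
  have hNi := ea_normal N
  let T : ℕ → Subgroup G := fun m =>
    ⨆ q : {q : ℕ × ℕ // q.1 + q.2 = m}, (ea M q.1.1 ⊓ ea N q.1.2)
  have hTn : ∀ m, (T m).Normal := by
    intro m
    have : ∀ q : {q : ℕ × ℕ // q.1 + q.2 = m}, (ea M q.1.1 ⊓ ea N q.1.2).Normal :=
      fun q => Subgroup.normal_inf_normal _ _
    exact Subgroup.iSup_normal _
  have hTle : ∀ i j m, i + j = m → ea M i ⊓ ea N j ≤ T m := by
    intro i j m h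
    exact le_iSup (fun q : {q : ℕ × ℕ // q.1 + q.2 = m} => (ea M q.1.1 ⊓ ea N q.1.2)) ⟨(i, j), h⟩
  have key : ∀ k, (M ⊔ N).lowerCentralSeries k ≤ T (k + 1) := by
    intro k
    induction k with
    | zero =>
      rw [Subgroup.lowerCentralSeries_zero]
      apply sup_le
      · refine le_trans ?_ (hTle 1 0 1 rfl)
        exact le_inf (le_refl M) le_top
      · refine le_trans ?_ (hTle 0 1 1 rfl)
        exact le_inf le_top (le_refl N)
    | succ k ih =>
      rw [Subgroup.lowerCentralSeries_succ]
      refine le_trans (Subgroup.commutator_mono ih le_rfl) ?_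
      rw [← le_cz]
      apply iSup_le
      rintro ⟨⟨i, j⟩, hij⟩
      simp only at hij
      rw [le_cz, Subgroup.commutator_comm, ← le_cz]
      apply sup_le
      · rw [le_cz, Subgroup.commutator_comm]
        refine le_trans ?_ (hTle (i + 1) j (k + 1 + 1) (by omega))
        apply le_inf
        · exact le_trans (Subgroup.commutator_mono inf_le_left le_rfl) (ea_comm M i)
        · exact le_trans (Subgroup.commutator_mono inf_le_right le_rfl)
            (Subgroup.commutator_le_left _ _)
      · rw [le_cz, Subgroup.commutator_comm]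
        refine le_trans ?_ (hTle i (j + 1) (k + 1 + 1) (by omega))
        apply le_inf
        · exact le_trans (Subgroup.commutator_mono inf_le_left le_rfl)
            (Subgroup.commutator_le_left _ _)
        · exact le_trans (Subgroup.commutator_mono inf_le_right le_rfl) (ea_comm N j)
  apply Subgroup.isNilpotent_of_lowerCentralSeries_eq_bot (n := c + d + 1)
  rw [eq_bot_iff]
  refine le_trans (key _) ?_
  apply iSup_le
  rintro ⟨⟨i, j⟩, hij⟩
  simp only at hij
  change ea M i ⊓ ea N j ≤ ⊥
  by_cases hi : c + 1 ≤ i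
  · rw [ea_bot M hc hi, bot_inf_eq]
  · rw [ea_bot N hd (by omega), inf_bot_eq]

/-- A finite group has a largest nilpotent normal subgroup. -/
theorem exists_fitting (G : Type*) [Group G] [Finite G] :
    ∃ F : Subgroup G, IsGreatest {N : Subgroup G | N.Normal ∧ Group.IsNilpotent N} F := by
  obtain ⟨F, hF⟩ := (Set.toFinite {N : Subgroup G | N.Normal ∧ Group.IsNilpotent N}).exists_maximal
    ⟨⊥, inferInstance, inferInstance⟩
  refine ⟨F, hF.1, ?_⟩
  rintro N ⟨hN, hNn⟩
  obtain ⟨hFn, hFni⟩ := hF.1
  have h1 : (F ⊔ N) ∈ {N : Subgroup G | N.Normal ∧ Group.IsNilpotent N} :=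
    ⟨inferInstance, nilpotent_sup F N hFni hNn⟩
  exact le_trans le_sup_right (hF.2 h1 le_sup_left)

end Pool.Agent.H56.INW
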