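import Pool.Agent.H56.INW.PGrp
import Pool.Agent.H56.INW.Cyc

/-!
# A normal subgroup with cyclic centre centralising all small commutators is commutative
-/

namespace Pool.Agent.H56.INW

open Subgroup

variable {P : Type*} [Group P] {r : ℕ} [hr : Fact r.Prime]

theorem pow_mul_conj (t α : P) (k : ℤ) (h : t⁻¹ * α * t = α ^ k) (n : ℕ) :
    (t * α) ^ n = t ^ n * α ^ (∑ i ∈ Finset.range n, k ^ i) := by
  induction n with
  | zero => simp
  | succ n ih =>
    have hS : (∑ i ∈ Finset.range (n + 1), k ^ i) = k * (∑ i ∈ Finset.range n, k ^ i) + 1 := by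
      rw [Finset.sum_range_succ', Finset.mul_sum, pow_zero]
      congr 1
      exact Finset.sum_congr rfl fun i _ => pow_succ' k i
    have hconj : α ^ (∑ i ∈ Finset.range n, k ^ i) * t
        = t * (α ^ k) ^ (∑ i ∈ Finset.range n, k ^ i) := by
      rw [← h]
      have : (t⁻¹ * α * t) ^ (∑ i ∈ Finset.range n, k ^ i)
          = t⁻¹ * α ^ (∑ i ∈ Finset.range n, k ^ i) * t := by
        have := conj_zpow (i := (∑ i ∈ Finset.range n, k ^ i)) (a := t⁻¹) (b := α)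
        rw [inv_inv] at this
        exact this
      rw [this]
      group
    rw [pow_succ, ih, hS]
    calc t ^ n * α ^ (∑ i ∈ Finset.range n, k ^ i) * (t * α)
        = t ^ n * (α ^ (∑ i ∈ Finset.range n, k ^ i) * t) * α := by group
      _ = t ^ n * (t * (α ^ k) ^ (∑ i ∈ Finset.range n, k ^ i)) * α := by rw [hconj]
      _ = t ^ (n + 1) * α ^ (k * (∑ i ∈ Finset.range n, k ^ i) + 1) := by
        rw [zpow_add, zpow_one, zpow_mul, pow_succ]
        group

omit hr in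
theorem sq_dvd_sum_pow (k : ℤ) (hk : (r : ℤ) ^ 2 ∣ k - 1) :
    ∃ n : ℤ, (∑ i ∈ Finset.range r, k ^ i) = r * (1 + r * n) := by
  have h : (r : ℤ) ^ 2 ∣ (∑ i ∈ Finset.range r, (k ^ i - 1)) := by
    apply Finset.dvd_sum
    intro i _
    have h2 : k - 1 ∣ k ^ i - 1 := by
      have := sub_dvd_pow_sub_pow k 1 i
      rwa [one_pow] at this
    exact hk.trans h2
  obtain ⟨n, hn⟩ := h
  refine ⟨n, ?_⟩
  rw [Finset.sum_sub_distrib] at hn
  simp only [Finset.sum_const, Finset.card_range, nsmul_eq_mul, mul_one] at hn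
  have : (∑ i ∈ Finset.range r, k ^ i) = r + (r : ℤ) ^ 2 * n := by linarith
  rw [this]; ring

/-- Adding to a normal commutative subgroup an element that is central modulo it. -/
theorem normal_sup_zpowers (A : Subgroup P) [hA : A.Normal] (t : P)
    (ht : ∀ g : P, t⁻¹ * (g⁻¹ * t * g) ∈ A) : (A ⊔ zpowers t).Normal := by
  have htm : t ∈ A ⊔ zpowers t := (le_sup_right : zpowers t ≤ A ⊔ zpowers t) (mem_zpowers t)
  have hle : A ≤ A ⊔ zpowers t := le_sup_left
  refine ⟨fun n hn g => ?_⟩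
  rw [Subgroup.mem_sup_of_normal_left] at hn
  obtain ⟨a, ha, y, hy, rfl⟩ := hn
  obtain ⟨i, rfl⟩ := Subgroup.mem_zpowers_iff.1 hy
  have h1 : g * (a * t ^ i) * g⁻¹ = (g * a * g⁻¹) * (g * t * g⁻¹) ^ i := by
    rw [conj_zpow]; group
  rw [h1]
  apply mul_mem (hle (hA.conj_mem a ha g))
  apply zpow_mem
  have h2 : g * t * g⁻¹ = t * (t⁻¹ * ((g⁻¹)⁻¹ * t * g⁻¹)) := by group
  rw [h2]
  exact mul_mem htm (hle (ht g⁻¹))

theorem comm_sup_zpowers (A : Subgroup P) [hA : A.Normal] (t : P)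
    (hcomm : ∀ a ∈ A, ∀ b ∈ A, a * b = b * a) (ht : ∀ a ∈ A, t * a = a * t) :
    ∀ a ∈ A ⊔ zpowers t, ∀ b ∈ A ⊔ zpowers t, a * b = b * a := by
  intro x hx y hy
  rw [Subgroup.mem_sup_of_normal_left] at hx hy
  obtain ⟨a, ha, u, hu, rfl⟩ := hx
  obtain ⟨b, hb, v, hv, rfl⟩ := hy
  obtain ⟨i, rfl⟩ := Subgroup.mem_zpowers_iff.1 hu
  obtain ⟨j, rfl⟩ := Subgroup.mem_zpowers_iff.1 hv
  have c1 : Commute a b := hcomm a ha b hb
  have c2 : Commute (t ^ i) b := (show Commute t b from ht b hb).zpow_left i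
  have c3 : Commute a (t ^ j) := (show Commute t a from ht a ha).symm.zpow_right j
  have c4 : Commute (t ^ i) (t ^ j) := (Commute.refl t).zpow_zpow i j
  exact (c1.mul_right c3).mul_left (c2.mul_right c4)

variable [Finite P]

theorem comm_of_star (hP : IsPGroup r P) (M : Subgroup P) [hM : M.Normal]
    (hstar : ∀ t : P, (∀ g : P, t⁻¹ * (g⁻¹ * t * g) ∈ center P ∧ (t⁻¹ * (g⁻¹ * t * g)) ^ r = 1) →
      ∀ m ∈ M, t * m = m * t)
    (hcy : ∀ z ∈ M, ∀ t ∈ M, (∀ m ∈ M, z * m = m * z) → (∀ m ∈ M, t * m = m * t) →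
      z ≠ 1 → z ^ r = 1 → t ^ r = 1 → t ∈ zpowers z) :
    ∀ a ∈ M, ∀ b ∈ M, a * b = b * a := by
  classical
  obtain ⟨A, hA⟩ := (Set.toFinite {A : Subgroup P | A.Normal ∧ A ≤ M ∧
    ∀ a ∈ A, ∀ b ∈ A, a * b = b * a}).exists_maximal ⟨⊥, by
      refine ⟨inferInstance, bot_le, ?_⟩
      intro a ha b hb
      rw [Subgroup.mem_bot] at ha hb
      rw [ha, hb]⟩
  obtain ⟨⟨hAn, hAM, hAc⟩, hmax⟩ := hA
  by_cases hAeq : A = M
  · rw [← hAeq]; exact hAc
  exfalso
  -- step 1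
  have hC : ∀ m ∈ M, (∀ a ∈ A, m * a = a * m) → m ∈ A := by
    intro m hm hma
    by_contra hmA
    let Q : Subgroup P := M ⊓ centralizer (A : Set P)
    have hQn : Q.Normal := inferInstance
    have hAQ : A ≤ Q := by
      intro a ha
      refine Subgroup.mem_inf.2 ⟨hAM ha, ?_⟩
      rw [Subgroup.mem_centralizer_iff]
      intro b hb
      exact hAc b hb a ha
    have hne : A ≠ Q := by
      intro h
      apply hmA
      rw [h]
      refine Subgroup.mem_inf.2 ⟨hm, ?_⟩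
      rw [Subgroup.mem_centralizer_iff]
      intro b hb
      exact (hma b hb).symm
    obtain ⟨t, htQ, htA, htg, _⟩ := exists_central_mod hP A Q hAQ hne
    have htc : ∀ a ∈ A, t * a = a * t := by
      intro a ha
      exact ((Subgroup.mem_centralizer_iff.1 htQ.2) a ha).symm
    have hle := hmax (y := A ⊔ zpowers t) ⟨normal_sup_zpowers A t htg,
      sup_le hAM ((zpowers_le).2 htQ.1), comm_sup_zpowers A t hAc htc⟩ le_sup_left
    exact htA (hle ((le_sup_right : zpowers t ≤ A ⊔ zpowers t) (mem_zpowers t)))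
  -- step 2
  have hAbot : (⊥ : Subgroup P) ≠ A := by
    intro h
    apply hAeq
    apply le_antisymm hAM
    intro m hm
    apply hC m hm
    intro a ha
    rw [← h, Subgroup.mem_bot] at ha
    rw [ha, mul_one, one_mul]
  obtain ⟨z₀, hz₀A, hz₀1, hz₀c, hz₀r⟩ := exists_central_mod hP ⊥ A bot_le hAbot
  rw [Subgroup.mem_bot] at hz₀1 hz₀r
  have hz₀C : z₀ ∈ center P := by
    rw [Subgroup.mem_center_iff]
    intro g
    have := hz₀c g
    rw [Subgroup.mem_bot] at this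
    calc g * z₀ = g * (z₀ * (z₀⁻¹ * (g⁻¹ * z₀ * g))) := by rw [this, mul_one]
      _ = z₀ * g := by group
  have hzC : zpowers z₀ ≤ center P := (zpowers_le).2 hz₀C
  have hzA : zpowers z₀ ≤ A := (zpowers_le).2 hz₀A
  let Ω : Subgroup P :=
    { carrier := {a | a ∈ A ∧ a ^ r = 1}
      one_mem' := ⟨A.one_mem, one_pow r⟩
      mul_mem' := by
        rintro a b ⟨ha, har⟩ ⟨hb, hbr⟩
        refine ⟨A.mul_mem ha hb, ?_⟩
        rw [(show Commute a b from hAc a ha b hb).mul_pow, har, hbr, one_mul]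
      inv_mem' := by
        rintro a ⟨ha, har⟩
        refine ⟨A.inv_mem ha, ?_⟩
        rw [inv_pow, har, inv_one] }
  have hΩn : Ω.Normal := by
    refine ⟨fun a ha g => ?_⟩
    refine ⟨hAn.conj_mem a ha.1 g, ?_⟩
    rw [conj_pow, ha.2, mul_one, mul_inv_cancel]
  have hzn : (zpowers z₀).Normal := by
    refine ⟨fun a ha g => ?_⟩
    have := (Subgroup.mem_center_iff.1 (hzC ha)) g
    rw [this, mul_inv_cancel_right]
    exact ha
  have hzr : ∀ c ∈ zpowers z₀, c ^ r = 1 := by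
    intro c hc
    obtain ⟨i, rfl⟩ := Subgroup.mem_zpowers_iff.1 hc
    rw [← zpow_natCast, ← zpow_mul, mul_comm, zpow_mul, zpow_natCast, hz₀r, one_zpow]
  have hzΩ : zpowers z₀ ≤ Ω := fun c hc => ⟨hzA hc, hzr c hc⟩
  have hΩ : ∀ a ∈ A, a ^ r = 1 → a ∈ zpowers z₀ := by
    intro a ha har
    by_contra hcon
    have hne : zpowers z₀ ≠ Ω := by
      intro h
      apply hcon
      rw [h]
      exact ⟨ha, har⟩
    obtain ⟨t, htΩ, htz, htg, _⟩ := exists_central_mod hP (zpowers z₀) Ω hzΩ hne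
    apply htz
    apply hcy z₀ (hAM hz₀A) t (hAM htΩ.1) ?_ ?_ hz₀1 hz₀r htΩ.2
    · intro m _
      exact ((Subgroup.mem_center_iff.1 hz₀C) m).symm
    · exact hstar t fun g => ⟨hzC (htg g), hzr _ (htg g)⟩
  have hord : orderOf z₀ = r := orderOf_eq_prime hz₀r hz₀1
  obtain ⟨ζ, hζA, hζ⟩ := exists_gen_of_unique hP A hAc (by
    intro z hz t ht hz1 hzr' htr
    have h1 : z ∈ zpowers z₀ := hΩ z hz hzr'
    have h2 : t ∈ zpowers z₀ := hΩ t ht htr
    have h3 : zpowers z = zpowers z₀ := by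
      apply Subgroup.eq_of_le_of_card_ge ((zpowers_le).2 h1)
      rw [Nat.card_zpowers, Nat.card_zpowers, hord, orderOf_eq_prime hzr' hz1]
    rw [h3]; exact h2)
  -- step 3
  obtain ⟨t, htM, htA, htg, htr⟩ := exists_central_mod hP A M hAM hAeq
  have htζ : t * ζ ≠ ζ * t := by
    intro h
    apply htA
    apply hC t htM
    intro a ha
    obtain ⟨i, rfl⟩ := Subgroup.mem_zpowers_iff.1 (hζ a ha)
    exact (show Commute t ζ from h).zpow_right i
  obtain ⟨k, hk⟩ := Subgroup.mem_zpowers_iff.1 (hζ (t⁻¹ * ζ * t) (by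
    have := hAn.conj_mem ζ hζA t⁻¹
    rwa [inv_inv] at this))
  have hkA : ∀ a ∈ A, t⁻¹ * a * t = a ^ k := by
    intro a ha
    obtain ⟨i, rfl⟩ := Subgroup.mem_zpowers_iff.1 (hζ a ha)
    have h1 : t⁻¹ * ζ ^ i * t = (t⁻¹ * ζ * t) ^ i := by
      have := conj_zpow (i := i) (a := t⁻¹) (b := ζ)
      rw [inv_inv] at this
      exact this.symm
    rw [h1, ← hk, ← zpow_mul, ← zpow_mul, mul_comm]
  have hkne : ζ ^ (k - 1) ≠ 1 := by
    intro h
    apply htζ
    have h1 : t⁻¹ * ζ * t = ζ := by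
      rw [← hk]
      calc ζ ^ k = ζ ^ (k - 1) * ζ := by rw [zpow_sub_one]; group
        _ = ζ := by rw [h, one_mul]
    calc t * ζ = t * (t⁻¹ * ζ * t) := by rw [h1]
      _ = ζ * t := by group
  obtain ⟨a, ha⟩ := (IsPGroup.iff_orderOf.1 hP) ζ
  have hra : ∀ n : ℤ, ((r : ℤ) ^ a ∣ n ↔ ζ ^ n = 1) := by
    intro n
    rw [← orderOf_dvd_iff_zpow_eq_one, ha]
    push_cast
    rfl
  have ha2 : 2 ≤ a := by
    by_contra hlt
    have hζr : ζ ^ r = 1 := by
      have h1 : ζ ^ (r : ℤ) = 1 := by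
        rw [← hra]
        interval_cases a
        · simp
        · simp
      rwa [zpow_natCast] at h1
    have := (Subgroup.mem_center_iff.1 (hzC (hΩ ζ hζA hζr))) t
    exact htζ this
  obtain ⟨a', rfl⟩ := Nat.exists_eq_add_of_le' ha2
  have hk2 : (r : ℤ) ^ 2 ∣ k - 1 := by
    set u := ζ ^ (r ^ a') with hu
    have huA : u ∈ A := A.pow_mem hζA _
    have hur : (u ^ r) ^ r = 1 := by
      have h0 : r ^ a' * (r * r) = r ^ (a' + 2) := by ring
      rw [hu, ← pow_mul, ← pow_mul, h0, ← ha, pow_orderOf_eq_one]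
    have hurC : u ^ r ∈ center P := hzC (hΩ _ (A.pow_mem huA r) hur)
    have h1 := hstar u (by
      intro g
      have hgA : g⁻¹ * u * g ∈ A := by
        have := hAn.conj_mem u huA g⁻¹
        rwa [inv_inv] at this
      have hcA : u⁻¹ * (g⁻¹ * u * g) ∈ A := A.mul_mem (A.inv_mem huA) hgA
      have hcr : (u⁻¹ * (g⁻¹ * u * g)) ^ r = 1 := by
        rw [(show Commute u⁻¹ (g⁻¹ * u * g) from hAc _ (A.inv_mem huA) _ hgA).mul_pow]
        have h2 : (g⁻¹ * u * g) ^ r = g⁻¹ * u ^ r * g := by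
          have := conj_pow (i := r) (a := g⁻¹) (b := u)
          rw [inv_inv] at this
          exact this
        rw [h2, inv_pow]
        have h3 := (Subgroup.mem_center_iff.1 hurC) g⁻¹
        rw [h3]
        group
      exact ⟨hzC (hΩ _ hcA hcr), hcr⟩) t htM
    have h2 : t⁻¹ * u * t = u := by
      calc t⁻¹ * u * t = t⁻¹ * (u * t) := by group
        _ = u := by rw [h1]; group
    rw [hkA u huA] at h2
    have h3 : ζ ^ ((r : ℤ) ^ a' * (k - 1)) = 1 := by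
      have h4 : (ζ ^ (r ^ a')) ^ (k - 1) = 1 := by
        rw [zpow_sub_one, ← hu, h2, mul_inv_cancel]
      rw [← zpow_natCast ζ (r ^ a'), ← zpow_mul] at h4
      push_cast at h4
      exact h4
    rw [← hra, pow_add] at h3
    have hr0 : (r : ℤ) ^ a' ≠ 0 := pow_ne_zero _ (by exact_mod_cast hr.out.ne_zero)
    exact (mul_dvd_mul_iff_left hr0).1 h3
  obtain ⟨n, hn⟩ := sq_dvd_sum_pow (r := r) k hk2
  have hrp : Prime (r : ℤ) := Nat.prime_iff_prime_int.1 hr.out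
  have hw : IsCoprime (1 + (r : ℤ) * n) ((r : ℤ) ^ (a' + 2)) := by
    apply IsCoprime.pow_right
    exact ⟨1, -n, by ring⟩
  -- step 4
  obtain ⟨j, hj⟩ := Subgroup.mem_zpowers_iff.1 (hζ (t ^ r) htr)
  have hrj : (r : ℤ) ∣ j := by
    have h1 : t⁻¹ * t ^ r * t = t ^ r := by
      rw [mul_assoc, ← pow_succ, pow_succ', inv_mul_cancel_left]
    rw [hkA _ htr, ← hj, ← zpow_mul] at h1
    have h2 : ζ ^ (j * (k - 1)) = 1 := by
      rw [mul_sub, mul_one, zpow_sub, h1, mul_inv_cancel]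
    rw [← hra] at h2
    by_contra hnd
    apply hkne
    rw [← hra]
    have hcop : IsCoprime ((r : ℤ) ^ (a' + 2)) j :=
      IsCoprime.pow_left ((Prime.coprime_iff_not_dvd hrp).2 hnd)
    exact hcop.dvd_of_dvd_mul_left h2
  obtain ⟨j', rfl⟩ := hrj
  obtain ⟨x, y, hxy⟩ := hw
  set b : ℤ := -j' * x with hb
  set t₀ := t * ζ ^ b with ht₀
  have hζb : ζ ^ b ∈ A := A.zpow_mem hζA b
  have ht₀r : t₀ ^ r = 1 := by
    rw [ht₀, pow_mul_conj t (ζ ^ b) k (hkA _ hζb) r, hn, ← hj, ← zpow_mul, ← zpow_add, ← hra]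
    refine ⟨r * j' * y, ?_⟩
    rw [hb]
    have : (1 + (r : ℤ) * n) * x = 1 - y * (r : ℤ) ^ (a' + 2) := by linear_combination hxy
    calc (r : ℤ) * j' + -j' * x * (r * (1 + r * n))
        = r * j' * (1 - (1 + r * n) * x) := by ring
      _ = r * j' * (y * (r : ℤ) ^ (a' + 2)) := by rw [this]; ring
      _ = _ := by ring
  have ht₀A : ∀ a ∈ A, t₀⁻¹ * a * t₀ = a ^ k := by
    intro a haA
    have h1 : t₀⁻¹ * a * t₀ = (ζ ^ b)⁻¹ * (t⁻¹ * a * t) * ζ ^ b := by rw [ht₀]; group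
    rw [h1, hkA a haA, mul_assoc, hAc _ (A.zpow_mem haA k) _ hζb, inv_mul_cancel_left]
  -- step 5
  have hstar₀ := hstar t₀ (by
    intro g
    have hβA : t₀⁻¹ * (g⁻¹ * t₀ * g) ∈ A := by
      have h1 : t₀⁻¹ * (g⁻¹ * t₀ * g)
          = (ζ ^ b)⁻¹ * (t⁻¹ * (g⁻¹ * t * g)) * (g⁻¹ * ζ ^ b * g) := by rw [ht₀]; group
      rw [h1]
      have h2 : g⁻¹ * ζ ^ b * g ∈ A := by
        have := hAn.conj_mem (ζ ^ b) hζb g⁻¹
        rwa [inv_inv] at this
      exact A.mul_mem (A.mul_mem (A.inv_mem hζb) (htg g)) h2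
    set β := t₀⁻¹ * (g⁻¹ * t₀ * g) with hβ
    have h3 : (t₀ * β) ^ r = 1 := by
      have h4 : t₀ * β = g⁻¹ * t₀ * g := by rw [hβ]; group
      rw [h4]
      have := conj_pow (i := r) (a := g⁻¹) (b := t₀)
      rw [inv_inv] at this
      rw [this, ht₀r]; group
    rw [pow_mul_conj t₀ β k (ht₀A β hβA) r, ht₀r, one_mul, hn] at h3
    obtain ⟨i, hi⟩ := Subgroup.mem_zpowers_iff.1 (hζ β hβA)
    have h5 : β ^ r = 1 := by
      rw [← hi, ← zpow_natCast, ← zpow_mul, ← hra]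
      rw [← hi, ← zpow_mul, ← hra] at h3
      have h6 : (r : ℤ) ^ (a' + 2) ∣ (1 + r * n) * (i * r) := by
        have : (1 + (r : ℤ) * n) * (i * r) = i * (r * (1 + r * n)) := by ring
        rw [this]; exact h3
      exact (IsCoprime.symm ⟨x, y, hxy⟩).dvd_of_dvd_mul_left h6
    exact ⟨hzC (hΩ β hβA h5), h5⟩) ζ (hAM hζA)
  apply hkne
  have h1 := ht₀A ζ hζA
  have h2 : t₀⁻¹ * ζ * t₀ = ζ := by
    rw [mul_assoc, ← hstar₀, inv_mul_cancel_left]
  rw [h2] at h1
  rw [zpow_sub_one, ← h1, mul_inv_cancel]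

end Pool.Agent.H56.INW
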