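import Pool.Agent.H56.INW.Two

/-!
# The greedy choice
-/

namespace Pool.Agent.H56.INW

open scoped Pointwise

variable {k V H : Type*} [Field k] [AddCommGroup V] [Module k V]
  [Group H] [DistribMulAction H V] [SMulCommClass H k V]

namespace TwoData

variable {N : Subgroup H} {W : Finset (Submodule k V)} {A : Submodule k V → Subgroup H}

theorem lemmaA [Finite H] [Finite V] (hT : TwoData N W A) (F : Finset (Submodule k V)) :
    F ⊆ W → ∀ (M : Subgroup H) (X : Set H), M ≤ N → (∀ a ∈ X, a ∈ M) →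
      (∀ a ∈ X, ∀ b ∈ M, (∀ U ∈ F, (a⁻¹ * b⁻¹ * a * b) ∈ trv H U ∨
        ∀ w ∈ U, (a⁻¹ * b⁻¹ * a * b) • w = -w) → ∏ U ∈ F, sg U (a⁻¹ * b⁻¹ * a * b) = 1) →
      (∀ a ∈ X, ∃ U ∈ F, a ∉ trv H U) →
      ∃ v : Submodule k V → V, (∀ U ∈ F, v U ∈ U) ∧ (∀ U ∈ F, v U ≠ 0) ∧
        ∀ a ∈ X, ∃ U ∈ F, a • v U ≠ v U := by
  classical
  induction F using Finset.induction_on with
  | empty =>
    intro _ M X _ _ _ hnt
    refine ⟨fun _ => 0, ?_, ?_, ?_⟩
    · intro U hU; exact absurd hU (Finset.notMem_empty U)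
    · intro U hU; exact absurd hU (Finset.notMem_empty U)
    · intro a ha
      obtain ⟨U, hU, _⟩ := hnt a ha
      exact absurd hU (Finset.notMem_empty U)
  | insert U₀ F hU₀ ih =>
    intro hFW M X hMN hXM hyp hnt
    have hU₀W : U₀ ∈ W := hFW (Finset.mem_insert_self _ _)
    have hFW' : F ⊆ W := fun U hU => hFW (Finset.mem_insert_of_mem hU)
    -- the elements of `M` trivial on the members of `F`
    let K : Subgroup H :=
      { carrier := {m | m ∈ M ∧ ∀ U ∈ F, m ∈ trv H U}
        one_mem' := ⟨M.one_mem, fun U _ => (trv H U).one_mem⟩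
        mul_mem' := fun {a b} ha hb => ⟨M.mul_mem ha.1 hb.1,
          fun U hU => (trv H U).mul_mem (ha.2 U hU) (hb.2 U hU)⟩
        inv_mem' := fun {a} ha => ⟨M.inv_mem ha.1, fun U hU => (trv H U).inv_mem (ha.2 U hU)⟩ }
    have hKN : K ≤ N := fun m hm => hMN hm.1
    -- the elements of `K` that are central modulo the elements trivial on `U₀`
    let B : Subgroup H :=
      { carrier := {b | b ∈ K ∧ ∀ m ∈ K, ∀ w ∈ U₀, b • m • w = m • b • w}
        one_mem' := ⟨K.one_mem, fun m _ w _ => by rw [one_smul, one_smul]⟩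
        mul_mem' := by
          rintro a b ⟨ha, ha'⟩ ⟨hb, hb'⟩
          refine ⟨K.mul_mem ha hb, fun m hm w hw => ?_⟩
          rw [mul_smul, mul_smul, hb' m hm w hw,
            ha' m hm (b • w) (hT.smul_mem hU₀W (hKN hb) hw)]
        inv_mem' := by
          rintro a ⟨ha, ha'⟩
          refine ⟨K.inv_mem ha, fun m hm w hw => ?_⟩
          rw [inv_smul_eq_iff]
          have h1 := ha' m hm (a⁻¹ • w) (hT.smul_mem hU₀W (hKN (K.inv_mem ha)) hw)
          rw [smul_inv_smul] at h1
          exact h1.symm }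
    obtain ⟨v₀, hv₀U, hv₀0, hv₀⟩ := hT.exists_reg hU₀W B (fun b hb => hKN hb.1)
      (fun b hb c hc w hw => hb.2 c hc.1 w hw)
    let M' : Subgroup H := M ⊓ MulAction.stabilizer H v₀
    have hM'mem : ∀ a, a ∈ M' ↔ a ∈ M ∧ a • v₀ = v₀ := by
      intro a
      rw [Subgroup.mem_inf, MulAction.mem_stabilizer_iff]
    let X' : Set H := {a | a ∈ X ∧ a • v₀ = v₀}
    have hcommM' : ∀ a ∈ M', ∀ b ∈ M', a⁻¹ * b⁻¹ * a * b ∈ trv H U₀ := by
      intro a ha b hb
      apply hT.fpf U₀ hU₀W _ (hT.comm hU₀W (hMN ((hM'mem a).1 ha).1) (hMN ((hM'mem b).1 hb).1))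
        v₀ hv₀U hv₀0
      have h1 : a⁻¹ * b⁻¹ * a * b ∈ M' :=
        M'.mul_mem (M'.mul_mem (M'.mul_mem (M'.inv_mem ha) (M'.inv_mem hb)) ha) hb
      exact ((hM'mem _).1 h1).2
    obtain ⟨v, hvU, hv0, hv⟩ := ih hFW' M' X' (fun a ha => hMN ((hM'mem a).1 ha).1)
      (fun a ha => (hM'mem a).2 ⟨hXM a ha.1, ha.2⟩) (by
        intro a ha b hb hab
        have haM' : a ∈ M' := (hM'mem a).2 ⟨hXM a ha.1, ha.2⟩
        have h1 := hyp a ha.1 b ((hM'mem b).1 hb).1 (by
          intro U hU
          rcases Finset.mem_insert.1 hU with rfl | hU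
          · exact Or.inl (hcommM' a haM' b hb)
          · exact hab U hU)
        rw [Finset.prod_insert hU₀, sg_of_mem (hcommM' a haM' b hb), one_mul] at h1
        exact h1) (by
        intro a ha
        by_contra hcon
        push Not at hcon
        have haK : a ∈ K := ⟨hXM a ha.1, hcon⟩
        have hat : a ∉ trv H U₀ := by
          obtain ⟨U, hU, hUt⟩ := hnt a ha.1
          rcases Finset.mem_insert.1 hU with rfl | hU
          · exact hUt
          · exact absurd (hcon U hU) hUt
        have haa : a * a ∈ trv H U₀ := by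
          apply hT.fpf U₀ hU₀W _ (hT.sq U₀ hU₀W a (hKN haK)) v₀ hv₀U hv₀0
          rw [mul_smul, ha.2, ha.2]
        have haB : a ∉ B := fun h => hat (hv₀ a h ha.2)
        obtain ⟨m, hmK, hmc⟩ : ∃ m ∈ K, a⁻¹ * m⁻¹ * a * m ∉ trv H U₀ := by
          by_contra hcon2
          push Not at hcon2
          apply haB
          refine ⟨haK, fun m hm w hw => ?_⟩
          have h1 := hcon2 m hm w hw
          have h2 : a • m • w = m • a • ((a⁻¹ * m⁻¹ * a * m) • w) := by
            rw [← mul_smul, ← mul_smul, ← mul_smul]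
            congr 1
            group
          rw [h2, h1]
        obtain ⟨b, hbK, hb⟩ := hT.exists_neg hU₀W K hKN haK haa hmK hmc
        have htriv : ∀ U ∈ F, a⁻¹ * b⁻¹ * a * b ∈ trv H U := by
          intro U hU
          exact (trv H U).mul_mem ((trv H U).mul_mem ((trv H U).mul_mem
            ((trv H U).inv_mem (haK.2 U hU)) ((trv H U).inv_mem (hbK.2 U hU))) (haK.2 U hU))
            (hbK.2 U hU)
        have hnot : a⁻¹ * b⁻¹ * a * b ∉ trv H U₀ := by
          intro h
          have h1 := h v₀ hv₀U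
          rw [hb v₀ hv₀U] at h1
          exact hT.ne_neg hv₀0 h1.symm
        have h1 := hyp a ha.1 b hbK.1 (by
          intro U hU
          rcases Finset.mem_insert.1 hU with rfl | hU
          · exact Or.inr hb
          · exact Or.inl (htriv U hU))
        rw [Finset.prod_insert hU₀, sg_of_not_mem hnot,
          Finset.prod_eq_one (fun U hU => sg_of_mem (htriv U hU)), mul_one] at h1
        norm_num at h1)
    refine ⟨fun U => if U = U₀ then v₀ else v U, ?_, ?_, ?_⟩
    · intro U hU
      by_cases h : U = U₀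
      · simp only [h, if_true]; exact hv₀U
      · simp only [h, if_false]
        exact hvU U ((Finset.mem_insert.1 hU).resolve_left h)
    · intro U hU
      by_cases h : U = U₀
      · simp only [h, if_true]; exact hv₀0
      · simp only [h, if_false]
        exact hv0 U ((Finset.mem_insert.1 hU).resolve_left h)
    · intro a ha
      by_cases hav : a • v₀ = v₀
      · obtain ⟨U, hU, hne⟩ := hv a ⟨ha, hav⟩
        refine ⟨U, Finset.mem_insert_of_mem hU, ?_⟩
        have h : U ≠ U₀ := fun h => hU₀ (h ▸ hU)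
        simp only [h, if_false]
        exact hne
      · refine ⟨U₀, Finset.mem_insert_self _ _, ?_⟩
        simp only [if_true]
        exact hav

end TwoData

end Pool.Agent.H56.INW
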