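import Pool.Agent.H56.INW.Sys

/-!
# If every vector is fixed by a conjugate of `x`, then `x` acts trivially on every system
-/

namespace Pool.Agent.H56.INW

open scoped Pointwise

variable {k V H : Type*} [Field k] [AddCommGroup V] [Module k V]
  [Group H] [DistribMulAction H V] [SMulCommClass H k V]

/-- The elements of `N` that are central in `N` modulo `K`. -/
def zmod (N K : Subgroup H) [N.Normal] [hK : K.Normal] : Subgroup H where
  carrier := {n | n ∈ N ∧ ∀ m ∈ N, n⁻¹ * (m⁻¹ * n * m) ∈ K}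
  one_mem' := by
    refine ⟨N.one_mem, fun m _ => ?_⟩
    have : (1 : H)⁻¹ * (m⁻¹ * 1 * m) = 1 := by group
    rw [this]; exact K.one_mem
  mul_mem' := by
    rintro a b ⟨ha, ha'⟩ ⟨hb, hb'⟩
    refine ⟨N.mul_mem ha hb, fun m hm => ?_⟩
    have : (a * b)⁻¹ * (m⁻¹ * (a * b) * m)
        = (b⁻¹ * (a⁻¹ * (m⁻¹ * a * m)) * b⁻¹⁻¹) * (b⁻¹ * (m⁻¹ * b * m)) := by group
    rw [this]
    exact K.mul_mem (hK.conj_mem _ (ha' m hm) b⁻¹) (hb' m hm)
  inv_mem' := by
    rintro a ⟨ha, ha'⟩
    refine ⟨N.inv_mem ha, fun m hm => ?_⟩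
    have : a⁻¹⁻¹ * (m⁻¹ * a⁻¹ * m) = a * (a⁻¹ * (m⁻¹ * a * m))⁻¹ * a⁻¹ := by group
    rw [this]
    exact hK.conj_mem _ (K.inv_mem (ha' m hm)) a

omit [SMulCommClass H k V] [DistribMulAction H V] in
theorem zmod_conj (N K : Subgroup H) [hN : N.Normal] [hK : K.Normal] {n : H} (hn : n ∈ zmod N K)
    (h : H) : h * n * h⁻¹ ∈ zmod N K := by
  refine ⟨hN.conj_mem n hn.1 h, fun m hm => ?_⟩
  have : (h * n * h⁻¹)⁻¹ * (m⁻¹ * (h * n * h⁻¹) * m)
      = h * (n⁻¹ * ((h⁻¹ * m * h⁻¹⁻¹)⁻¹ * n * (h⁻¹ * m * h⁻¹⁻¹))) * h⁻¹ := by group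
  rw [this]
  exact hK.conj_mem _ (hn.2 _ (hN.conj_mem m hm h⁻¹)) h

theorem lemmaB {r : ℕ} [Fact r.Prime] [Finite H] (x : H)
    (hN : IsPGroup r (Subgroup.normalClosure {x}))
    (hα : ∀ v : V, ∃ h : H, (h * x * h⁻¹) • v = v) :
    ∀ (m : ℕ) (W : Finset (Submodule k V)) (hW : IsSys H W), W.card = m → x ∈ hW.kern := by
  classical
  intro m
  induction m using Nat.strong_induction_on with
  | _ m IH =>
  intro W hW hm
  by_contra hxK
  set K := hW.kern with hK
  set N := Subgroup.normalClosure ({x} : Set H) with hNdef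
  have hxN : x ∈ N := Subgroup.subset_normalClosure rfl
  let B₁ : Subgroup N := K.subgroupOf N
  have hB₁ : B₁ ≠ ⊤ := by
    intro h
    have : (⟨x, hxN⟩ : N) ∈ B₁ := by rw [h]; trivial
    exact hxK (Subgroup.mem_subgroupOf.1 this)
  obtain ⟨t, _, htB, htg, _⟩ := exists_central_mod hN B₁ ⊤ le_top hB₁
  let Z := zmod N K
  have htZ : (t : H) ∈ Z := by
    refine ⟨t.2, fun m hm => ?_⟩
    exact Subgroup.mem_subgroupOf.1 (htg ⟨m, hm⟩)
  have htK : (t : H) ∉ K := fun h => htB (Subgroup.mem_subgroupOf.2 h)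
  have hcomm : ∀ n ∈ Z, ∀ g ∈ N, ∀ U ∈ W, g • n • U = n • g • U := by
    intro n hn g hg U hU
    have h1 := hn.2 g hg
    have h2 : (n⁻¹ * (g⁻¹ * n * g)) • U = U := h1 U hU
    calc g • n • U = g • n • ((n⁻¹ * (g⁻¹ * n * g)) • U) := by rw [h2]
      _ = n • g • U := by
        rw [← mul_smul, ← mul_smul, ← mul_smul]
        congr 1
        group
  -- classes
  let cls : Submodule k V → Finset (Submodule k V) := fun U => W.filter fun X => ∃ n ∈ Z, n • U = X
  have mem_cls : ∀ U X, X ∈ cls U ↔ X ∈ W ∧ ∃ n ∈ Z, n • U = X := by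
    intro U X
    exact Finset.mem_filter
  let co : Submodule k V → Submodule k V := fun U => ⨆ X ∈ cls U, X
  have cls_eq : ∀ U, ∀ n ∈ Z, cls (n • U) = cls U := by
    intro U n hn
    ext X
    rw [mem_cls, mem_cls]
    constructor
    · rintro ⟨hX, p, hp, hpX⟩
      exact ⟨hX, p * n, Z.mul_mem hp hn, by rw [mul_smul, hpX]⟩
    · rintro ⟨hX, p, hp, hpX⟩
      exact ⟨hX, p * n⁻¹, Z.mul_mem hp (Z.inv_mem hn), by rw [mul_smul, inv_smul_smul, hpX]⟩
  have self_cls : ∀ U ∈ W, U ∈ cls U := by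
    intro U hU
    rw [mem_cls]
    exact ⟨hU, 1, Z.one_mem, one_smul H U⟩
  have le_co : ∀ U ∈ W, U ≤ co U := fun U hU => le_iSup₂_of_le U (self_cls U hU) le_rfl
  have co_smul_le : ∀ (h : H) (U : Submodule k V), h • co U ≤ co (h • U) := by
    intro h U
    change h • (⨆ X ∈ cls U, X) ≤ ⨆ X ∈ cls (h • U), X
    rw [Submodule.smul_iSup']
    apply iSup_le
    intro X
    rw [Submodule.smul_iSup']
    apply iSup_le
    intro hX
    refine le_iSup₂_of_le (f := fun (X : Submodule k V) (_ : X ∈ cls (h • U)) => X) (h • X) ?_ le_rfl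
    rw [mem_cls] at hX ⊢
    obtain ⟨hXW, n, hn, rfl⟩ := hX
    refine ⟨hW.inv h _ hXW, h * n * h⁻¹, zmod_conj N K hn h, ?_⟩
    rw [mul_smul, mul_smul, inv_smul_smul]
  have co_smul : ∀ (h : H) (U : Submodule k V), h • co U = co (h • U) := by
    intro h U
    apply le_antisymm (co_smul_le h U)
    have h1 := co_smul_le h⁻¹ (h • U)
    rw [inv_smul_smul] at h1
    have h2 : h • (h⁻¹ • co (h • U)) ≤ h • co U := smul_mono_right h h1
    rwa [smul_inv_smul] at h2
  -- if two members have the same coarse space, they are in the same class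
  have co_inj : ∀ U ∈ W, ∀ U' ∈ W, co U = co U' → ∃ n ∈ Z, n • U' = U := by
    intro U hU U' hU' h
    obtain ⟨v, hv, hv0⟩ := hW.exists_ne_zero hU
    have h1 : v ∈ co U' := by rw [← h]; exact le_co U hU hv
    have h2 := hW.mem_of_mem_iSup hU (T := cls U') (Finset.filter_subset _ _) hv hv0 h1
    exact ((mem_cls U' U).1 h2).2
  let W' : Finset (Submodule k V) := W.image co
  have hW' : IsSys H W' := by
    refine ⟨hW.ne.image co, ?_, ?_, ?_⟩
    · intro X hX
      obtain ⟨U, hU, rfl⟩ := Finset.mem_image.1 hX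
      intro h
      apply hW.nz U hU
      rw [eq_bot_iff, ← h]
      exact le_co U hU
    · intro h X hX
      obtain ⟨U, hU, rfl⟩ := Finset.mem_image.1 hX
      rw [co_smul]
      exact Finset.mem_image_of_mem co (hW.inv h U hU)
    · intro F hF hF0
      have key : ∀ X ∈ W', ∃ g : Submodule k V → V, (∀ U ∈ W, g U ∈ U) ∧
          (∀ U ∈ W, co U ≠ X → g U = 0) ∧ ∑ U ∈ W, g U = F X := by
        intro X hX
        obtain ⟨U, hU, rfl⟩ := Finset.mem_image.1 hX
        obtain ⟨g, hg, hg0, hgs⟩ := mem_iSup_sum (cls U) (F (co U)) (hF _ hX)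
        refine ⟨g, fun Y _ => hg Y, ?_, ?_⟩
        · intro Y _ hY
          apply hg0
          intro hYc
          obtain ⟨_, n, hn, rfl⟩ := (mem_cls U Y).1 hYc
          apply hY
          change (⨆ X ∈ cls (n • U), X) = ⨆ X ∈ cls U, X
          rw [cls_eq U n hn]
        · rw [← hgs]
          exact (Finset.sum_subset (Finset.filter_subset _ _) fun Y _ hY => hg0 Y hY).symm
      choose! g hg hg0 hgs using key
      have hsum : ∑ U ∈ W, g (co U) U = 0 := by
        rw [← hF0]
        rw [← Finset.sum_fiberwise_of_maps_to (s := W) (t := W') (g := co)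
          (fun U hU => Finset.mem_image_of_mem co hU)]
        apply Finset.sum_congr rfl
        intro X hX
        rw [← hgs X hX]
        symm
        rw [← Finset.sum_filter_add_sum_filter_not W (fun U => co U = X)]
        rw [Finset.sum_eq_zero (s := W.filter fun U => ¬ co U = X), add_zero]
        · apply Finset.sum_congr rfl
          intro U hU
          rw [(Finset.mem_filter.1 hU).2]
        · intro U hU
          rw [Finset.mem_filter] at hU
          exact hg0 X hX U hU.1 hU.2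
      have hzero := hW.ind (fun U => g (co U) U)
        (fun U hU => hg _ (Finset.mem_image_of_mem co hU) U hU) hsum
      intro X hX
      rw [← hgs X hX]
      apply Finset.sum_eq_zero
      intro U hU
      by_cases h : co U = X
      · rw [← h]; exact hzero U hU
      · exact hg0 X hX U hU h
  have hcard : W'.card < W.card := by
    refine lt_of_le_of_ne Finset.card_image_le fun hceq => ?_
    have hinj := Finset.card_image_iff.1 hceq
    apply htK
    intro U hU
    apply hinj (Finset.mem_coe.2 (hW.inv _ U hU)) (Finset.mem_coe.2 hU)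
    change (⨆ X ∈ cls ((t : H) • U), X) = ⨆ X ∈ cls U, X
    rw [cls_eq U t htZ]
  have hxK' : x ∈ hW'.kern := IH W'.card (by rw [← hm]; exact hcard) W' hW' rfl
  have hNK' : N ≤ hW'.kern := Subgroup.normalClosure_le_normal (by
    intro y hy
    rw [Set.mem_singleton_iff] at hy
    rw [hy]; exact hxK')
  -- representatives
  have hrep : ∀ X ∈ W', ∃ U ∈ W, co U = X := by
    intro X hX
    obtain ⟨U, hU, h⟩ := Finset.mem_image.1 hX
    exact ⟨U, hU, h⟩
  choose! R hR hRco using hrep
  have hvec : ∀ U ∈ W, ∃ w ∈ U, w ≠ 0 := fun U hU => hW.exists_ne_zero hU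
  choose! w hw hw0 using hvec
  let f : Submodule k V → V := fun U => if U = R (co U) then w U else 0
  have hf : ∀ U ∈ W, f U ∈ U := by
    intro U hU
    by_cases h : U = R (co U)
    · change (if U = R (co U) then w U else 0) ∈ U
      rw [if_pos h]; exact hw U hU
    · change (if U = R (co U) then w U else 0) ∈ U
      rw [if_neg h]; exact U.zero_mem
  obtain ⟨h, hh⟩ := hα (∑ U ∈ W, f U)
  set g := h * x * h⁻¹ with hg
  have hgN : g ∈ N := (Subgroup.normalClosure_normal).conj_mem x hxN h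
  have hsum : ∑ U ∈ W, g • f (g⁻¹ • U) = ∑ U ∈ W, f U := by
    rw [← hh, Finset.smul_sum]
    apply Finset.sum_nbij' (fun U => g⁻¹ • U) (fun U => g • U)
    · intro U hU; exact hW.inv g⁻¹ U hU
    · intro U hU; exact hW.inv g U hU
    · intro U _; exact smul_inv_smul g U
    · intro U _; exact inv_smul_smul g U
    · intro U _; rfl
  have hu := hW.uniq (fun U => g • f (g⁻¹ • U)) f (by
    intro U hU
    have h1 := Submodule.smul_mem_pointwise_smul _ g _ (hf _ (hW.inv g⁻¹ U hU))
    rwa [smul_inv_smul] at h1) hf hsum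
  have hfix : ∀ X ∈ W', g • R X = R X := by
    intro X hX
    have hRX := hR X hX
    have h1 : g • f (g⁻¹ • R X) = f (R X) := hu (R X) hRX
    have h2 : f (R X) ≠ 0 := by
      change (if R X = R (co (R X)) then w (R X) else 0) ≠ 0
      rw [hRco X hX, if_pos rfl]
      exact hw0 _ hRX
    have h3 : f (g⁻¹ • R X) ≠ 0 := by
      intro h0
      rw [h0, smul_zero] at h1
      exact h2 h1.symm
    have h4 : g⁻¹ • R X = R (co (g⁻¹ • R X)) := by
      by_contra hne
      apply h3
      change (if g⁻¹ • R X = R (co (g⁻¹ • R X)) then w (g⁻¹ • R X) else 0) = 0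
      rw [if_neg hne]
    have h5 : co (g⁻¹ • R X) = X := by
      rw [← co_smul, hRco X hX]
      exact (hNK' (N.inv_mem hgN)) X hX
    rw [h5] at h4
    exact (inv_smul_eq_iff.1 h4).symm
  have hgK : g ∈ K := by
    intro U hU
    have hX : co U ∈ W' := Finset.mem_image_of_mem co hU
    obtain ⟨n, hn, hnU⟩ := co_inj U hU (R (co U)) (hR _ hX) (hRco _ hX).symm
    rw [← hnU, hcomm n hn g hgN _ (hR _ hX), hfix _ hX]
  apply hxK
  have hconj := (IsSys.kern_normal hW).conj_mem g hgK h⁻¹
  have : h⁻¹ * g * h⁻¹⁻¹ = x := by rw [hg]; group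
  rwa [this] at hconj

end Pool.Agent.H56.INW
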