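import Mathlib

/-!
# Two commuting elements of order `r`, one of them fixed point free
-/

namespace Pool.Agent.H56.INW

variable {G V : Type*} [Group G] [AddCommGroup V] [DistribMulAction G V]

/-- The sum of the translates by the first `r` powers. -/
def orb (r : ℕ) (g : G) (v : V) : V := ∑ i ∈ Finset.range r, g ^ i • v

theorem smul_orb {r : ℕ} (hr : 0 < r) (g : G) (hg : g ^ r = 1) (v : V) :
    g • orb r g v = orb r g v := by
  obtain ⟨s, rfl⟩ := Nat.exists_eq_succ_of_ne_zero hr.ne'
  unfold orb
  rw [Finset.smul_sum]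
  have h1 : ∀ i ∈ Finset.range s.succ, g • g ^ i • v = g ^ (i + 1) • v := by
    intro i _
    rw [← mul_smul, ← pow_succ']
  rw [Finset.sum_congr rfl h1, Finset.sum_range_succ, ← Nat.succ_eq_add_one, hg, one_smul,
    Finset.sum_range_succ' (fun i => g ^ i • v), pow_zero, one_smul]

theorem rank_two {r : ℕ} [hr : Fact r.Prime] (x y : G) (hxy : x * y = y * x) (hxr : x ^ r = 1)
    (hfpf : ∀ u : V, x • u = u → u = 0) {u : V} (hu : r • u ≠ 0) :
    ∃ j : ℕ, orb r (y * x ^ j) u ≠ 0 := by
  by_contra hcon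
  push Not at hcon
  apply hu
  have hfpf' : ∀ i : ℕ, 0 < i → i < r → ∀ w : V, x ^ i • w = w → w = 0 := by
    intro i hi hir w hw
    apply hfpf
    have hcop : Nat.Coprime i r := (Nat.coprime_of_lt_prime hi.ne' hir hr.out).symm
    have h1 : ∀ n : ℕ, (x ^ i) ^ n • w = w := by
      intro n
      induction n with
      | zero => rw [pow_zero, one_smul]
      | succ n ih => rw [pow_succ, mul_smul, hw, ih]
    obtain ⟨m, hm⟩ := Nat.exists_mul_mod_eq_one_of_coprime hcop hr.out.one_lt
    have h2 : (x ^ i) ^ m = x := by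
      rw [← pow_mul]
      have h3 := Nat.div_add_mod (i * m) r
      rw [hm.2] at h3
      rw [← h3, pow_add, pow_mul, hxr, one_pow, one_mul, pow_one]
    have h4 := h1 m
    rwa [h2] at h4
  have hc : Commute x y := hxy
  have h1 : ∑ j ∈ Finset.range r, orb r (y * x ^ j) u = 0 :=
    Finset.sum_eq_zero fun j _ => hcon j
  unfold orb at h1
  rw [Finset.sum_comm] at h1
  have h2 : ∀ i ∈ Finset.range r, ∑ j ∈ Finset.range r, (y * x ^ j) ^ i • u
      = if i = 0 then r • u else 0 := by
    intro i hi
    rw [Finset.mem_range] at hi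
    by_cases h : i = 0
    · subst h
      simp
    · rw [if_neg h]
      have h3 : ∀ j ∈ Finset.range r, (y * x ^ j) ^ i • u = y ^ i • (x ^ i) ^ j • u := by
        intro j _
        have h5 : Commute y (x ^ j) := hc.symm.pow_right j
        rw [h5.mul_pow, ← mul_smul, ← pow_mul, ← pow_mul, mul_comm i j]
      rw [Finset.sum_congr rfl h3, ← Finset.smul_sum]
      have h6 : (∑ j ∈ Finset.range r, (x ^ i) ^ j • u) = 0 := by
        apply hfpf' i (Nat.pos_of_ne_zero h) hi
        apply smul_orb hr.out.pos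
        rw [← pow_mul, mul_comm, pow_mul, hxr, one_pow]
      rw [h6, smul_zero]
  rw [Finset.sum_congr rfl h2, Finset.sum_ite_eq' (Finset.range r) 0 (fun _ => r • u),
    if_pos (Finset.mem_range.2 hr.out.pos)] at h1
  exact h1

end Pool.Agent.H56.INW
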