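import Pool.Agent.H56.INW.Refine
import Pool.Agent.H56.INW.Rank

/-!
# The local group of a member of a maximal system
-/

namespace Pool.Agent.H56.INW

open scoped Pointwise

variable {k V H : Type*} [Field k] [AddCommGroup V] [Module k V]
  [Group H] [DistribMulAction H V] [SMulCommClass H k V]

theorem smul_mem_of_stab {U : Submodule k V} {h : H} (hh : h • U = U) {u : V} (hu : u ∈ U) :
    h • u ∈ U := by
  have := Submodule.smul_mem_pointwise_smul u h U hu
  rwa [hh] at this

/-- The stabiliser of a subspace acts on it. -/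
def loc (U : Submodule k V) : MulAction.stabilizer H U →* (U ≃ₗ[k] U) where
  toFun h :=
    { toFun := fun u => ⟨(h : H) • (u : V), smul_mem_of_stab h.2 u.2⟩
      invFun := fun u => ⟨((h⁻¹ : MulAction.stabilizer H U) : H) • (u : V),
        smul_mem_of_stab (h⁻¹).2 u.2⟩
      map_add' := fun a b => Subtype.ext (smul_add _ _ _)
      map_smul' := fun c a => Subtype.ext (smul_comm _ _ _)
      left_inv := fun u => Subtype.ext (by
        change ((h⁻¹ : MulAction.stabilizer H U) : H) • ((h : H) • (u : V)) = u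
        rw [Subgroup.coe_inv, inv_smul_smul])
      right_inv := fun u => Subtype.ext (by
        change (h : H) • (((h⁻¹ : MulAction.stabilizer H U) : H) • (u : V)) = u
        rw [Subgroup.coe_inv, smul_inv_smul]) }
  map_one' := by
    ext u
    exact one_smul H (u : V)
  map_mul' a b := by
    ext u
    exact mul_smul (a : H) (b : H) (u : V)

theorem loc_apply (U : Submodule k V) (h : MulAction.stabilizer H U) (u : U) :
    ((loc U h u : U) : V) = (h : H) • (u : V) := rfl

/-- The vectors fixed by a group of automorphisms of a subspace. -/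
def fixU {U : Submodule k V} (D : Subgroup (U ≃ₗ[k] U)) : Submodule k U where
  carrier := {u | ∀ d ∈ D, d u = u}
  add_mem' := by
    intro a b ha hb d hd
    rw [map_add, ha d hd, hb d hd]
  zero_mem' := fun d _ => map_zero d
  smul_mem' := by
    intro c a ha d hd
    rw [map_smul, ha d hd]

theorem mem_fixU {U : Submodule k V} (D : Subgroup (U ≃ₗ[k] U)) (u : U) :
    u ∈ fixU D ↔ ∀ d ∈ D, d u = u := Iff.rfl

/-- The conjugate of a group of automorphisms. -/
def cj {U : Submodule k V} (h : MulAction.stabilizer H U) (D : Subgroup (U ≃ₗ[k] U)) :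
    Subgroup (U ≃ₗ[k] U) := D.map (MulAut.conj (loc U h)).toMonoidHom

theorem mem_cj {U : Submodule k V} (h : MulAction.stabilizer H U) (D : Subgroup (U ≃ₗ[k] U))
    (g : U ≃ₗ[k] U) : g ∈ cj h D ↔ ∃ d ∈ D, loc U h * d * (loc U h)⁻¹ = g := by
  unfold cj
  rw [Subgroup.mem_map]
  rfl

theorem card_cj {U : Submodule k V} (h : MulAction.stabilizer H U) (D : Subgroup (U ≃ₗ[k] U)) :
    Nat.card (cj h D) = Nat.card D :=
  Nat.card_congr (D.equivMapOfInjective _ (MulAut.conj (loc U h)).injective).symm.toEquiv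

theorem smul_fix {U : Submodule k V} (h : MulAction.stabilizer H U) (D : Subgroup (U ≃ₗ[k] U)) :
    (h : H) • ((fixU D).map U.subtype) = (fixU (cj h D)).map U.subtype := by
  ext v
  rw [Submodule.mem_smul_pointwise_iff_exists, Submodule.mem_map]
  constructor
  · rintro ⟨w, hw, rfl⟩
    obtain ⟨u, hu, rfl⟩ := Submodule.mem_map.1 hw
    refine ⟨loc U h u, ?_, rfl⟩
    intro d hd
    obtain ⟨d', hd', rfl⟩ := (mem_cj h D d).1 hd
    change loc U h (d' ((loc U h)⁻¹ (loc U h u))) = loc U h u
    have h1 : (loc U h)⁻¹ (loc U h u) = u := (loc U h).symm_apply_apply u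
    rw [h1, hu d' hd']
  · rintro ⟨u, hu, rfl⟩
    refine ⟨((loc U h)⁻¹ u : U), Submodule.mem_map.2 ⟨(loc U h)⁻¹ u, ?_, rfl⟩, ?_⟩
    · intro d hd
      have h1 := hu (loc U h * d * (loc U h)⁻¹) ((mem_cj h D _).2 ⟨d, hd, rfl⟩)
      have h2 : loc U h (d ((loc U h)⁻¹ u)) = u := h1
      apply (loc U h).injective
      rw [h2]
      exact ((loc U h).apply_symm_apply u).symm
    · change (h : H) • (((loc U h)⁻¹ u : U) : V) = u
      rw [← loc_apply]
      have : (loc U h) ((loc U h)⁻¹ u) = u := (loc U h).apply_symm_apply u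
      rw [this]

instance finite_aut [Finite V] (U : Submodule k V) : Finite (U ≃ₗ[k] U) :=
  Finite.of_injective (fun f : U ≃ₗ[k] U => (f : U → U)) DFunLike.coe_injective

/-- A commutative group of automorphisms of a member of a maximal system which is normalised by
the stabiliser acts fixed point freely. -/
theorem fpf_of_comm [Finite V] [Finite H] {W : Finset (Submodule k V)} (hW : IsSys H W)
    (hirr : Irr k V H) (hmax : ∀ W' : Finset (Submodule k V), IsSys H W' → W'.card ≤ W.card)
    {U : Submodule k V} (hU : U ∈ W) (B : Subgroup (U ≃ₗ[k] U))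
    (hBc : ∀ a ∈ B, ∀ b ∈ B, a * b = b * a)
    (hBk : ∀ D : Subgroup (U ≃ₗ[k] U), D ≤ B → (Nat.card D : k) ≠ 0)
    (hBn : ∀ h : MulAction.stabilizer H U, ∀ b ∈ B, loc U h * b * (loc U h)⁻¹ ∈ B) :
    ∀ b ∈ B, ∀ u : U, u ≠ 0 → b u = u → b = 1 := by
  classical
  intro b hb u hu0 hbu
  let 𝒟 : Set (Subgroup (U ≃ₗ[k] U)) := {D | D ≤ B ∧ ∃ w : U, w ≠ 0 ∧ ∀ d ∈ D, d w = w}
  have hb𝒟 : Subgroup.zpowers b ∈ 𝒟 := by
    refine ⟨(Subgroup.zpowers_le).2 hb, u, hu0, ?_⟩
    intro d hd
    have hle : Subgroup.zpowers b ≤ (MulAction.stabilizer (U ≃ₗ[k] U) u) := by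
      rw [Subgroup.zpowers_le]
      exact hbu
    exact hle hd
  obtain ⟨D, hD, hDmax⟩ := Set.exists_max_image 𝒟 (fun D => Nat.card D) (Set.toFinite 𝒟)
    ⟨_, hb𝒟⟩
  have hcj : ∀ h : MulAction.stabilizer H U, cj h D ∈ 𝒟 := by
    intro h
    refine ⟨?_, ?_⟩
    · intro g hg
      obtain ⟨d, hd, rfl⟩ := (mem_cj h D g).1 hg
      exact hBn h d (hD.1 hd)
    · obtain ⟨w, hw0, hw⟩ := hD.2
      refine ⟨loc U h w, ?_, ?_⟩
      · intro h0
        apply hw0
        apply (loc U h).injective
        rw [h0, map_zero]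
      · intro g hg
        obtain ⟨d, hd, rfl⟩ := (mem_cj h D g).1 hg
        change loc U h (d ((loc U h)⁻¹ (loc U h w))) = loc U h w
        have h1 : (loc U h)⁻¹ (loc U h w) = w := (loc U h).symm_apply_apply w
        rw [h1, hw d hd]
  have hY : (fixU D).map U.subtype = U := by
    apply hW.refine hirr hmax hU
    · exact Submodule.map_subtype_le U (fixU D)
    · intro h
      obtain ⟨w, hw0, hw⟩ := hD.2
      have h1 : (w : V) ∈ (fixU D).map U.subtype := Submodule.mem_map.2 ⟨w, hw, rfl⟩
      rw [h, Submodule.mem_bot] at h1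
      exact hw0 (Subtype.ext h1)
    · intro T hT f hf hf0 X₀ hX₀
      obtain ⟨h₀, hh₀, hX₀e⟩ := (hT X₀).1 hX₀
      let h₀' : MulAction.stabilizer H U := ⟨h₀, hh₀⟩
      have hX₀' : X₀ = (fixU (cj h₀' D)).map U.subtype := by
        rw [← hX₀e]; exact smul_fix h₀' D
      set D₀ := cj h₀' D with hD₀
      have : Fintype D₀ := Fintype.ofFinite _
      -- lift f to U
      have hTU : ∀ X ∈ T, X ≤ U := by
        intro X hX
        obtain ⟨h, hh, rfl⟩ := (hT X).1 hX
        have := smul_fix (⟨h, hh⟩ : MulAction.stabilizer H U) D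
        change h • ((fixU D).map U.subtype) ≤ U
        rw [this]
        exact Submodule.map_subtype_le U _
      let F : Submodule k V → U := fun X => if hX : X ∈ T then ⟨f X, hTU X hX (hf X hX)⟩ else 0
      have hF : ∀ X ∈ T, ((F X : U) : V) = f X := by
        intro X hX
        change (((if hX : X ∈ T then ⟨f X, hTU X hX (hf X hX)⟩ else 0 : U) : U) : V) = f X
        rw [dif_pos hX]
      have hFsum : ∑ X ∈ T, F X = 0 := by
        apply Subtype.ext
        rw [Submodule.coe_sum, Finset.sum_congr rfl hF, hf0]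
        rfl
      have hav : ∑ X ∈ T, ∑ d : D₀, (d : U ≃ₗ[k] U) (F X) = 0 := by
        rw [Finset.sum_comm]
        apply Finset.sum_eq_zero
        intro d _
        rw [← map_sum, hFsum, map_zero]
      have hother : ∀ X ∈ T, X ≠ X₀ → ∑ d : D₀, (d : U ≃ₗ[k] U) (F X) = 0 := by
        intro X hX hne
        by_contra hcon
        apply hne
        obtain ⟨h, hh, hXe⟩ := (hT X).1 hX
        let h' : MulAction.stabilizer H U := ⟨h, hh⟩
        have hX' : X = (fixU (cj h' D)).map U.subtype := by
          rw [← hXe]; exact smul_fix h' D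
        have hFX : F X ∈ fixU (cj h' D) := by
          have h1 := hf X hX
          rw [hX'] at h1
          obtain ⟨u', hu', hu'e⟩ := Submodule.mem_map.1 h1
          have h2 : F X = u' := by
            apply Subtype.ext
            rw [hF X hX]
            rw [← hX'] at hu'e
            exact hu'e.symm
          rw [h2]; exact hu'
        have hfix1 : ∀ g ∈ D₀, g (∑ d : D₀, (d : U ≃ₗ[k] U) (F X))
            = ∑ d : D₀, (d : U ≃ₗ[k] U) (F X) := by
          intro g hg
          rw [map_sum]
          apply Fintype.sum_bijective (fun d : D₀ => (⟨g, hg⟩ : D₀) * d)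
            (Group.mulLeft_bijective _)
          intro d
          rfl
        have hfix2 : ∀ g ∈ cj h' D, g (∑ d : D₀, (d : U ≃ₗ[k] U) (F X))
            = ∑ d : D₀, (d : U ≃ₗ[k] U) (F X) := by
          intro g hg
          rw [map_sum]
          apply Finset.sum_congr rfl
          intro d _
          have hc := hBc g ((hcj h').1 hg) d ((hcj h₀').1 d.2)
          have h3 : g ((d : U ≃ₗ[k] U) (F X)) = (d : U ≃ₗ[k] U) (g (F X)) := by
            change (g * (d : U ≃ₗ[k] U)) (F X) = ((d : U ≃ₗ[k] U) * g) (F X)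
            rw [hc]
          rw [h3, hFX g hg]
        have hsup : D₀ ⊔ cj h' D ∈ 𝒟 := by
          refine ⟨sup_le (hcj h₀').1 (hcj h').1, _, hcon, ?_⟩
          have hle : D₀ ⊔ cj h' D ≤ MulAction.stabilizer (U ≃ₗ[k] U)
              (∑ d : D₀, (d : U ≃ₗ[k] U) (F X)) := by
            apply sup_le
            · intro g hg; exact hfix1 g hg
            · intro g hg; exact hfix2 g hg
          intro g hg
          exact hle hg
        have hcard := hDmax _ hsup
        have e1 : D₀ = D₀ ⊔ cj h' D := by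
          apply Subgroup.eq_of_le_of_card_ge le_sup_left
          rw [hD₀, card_cj]
          exact hcard
        have e2 : cj h' D = D₀ ⊔ cj h' D := by
          apply Subgroup.eq_of_le_of_card_ge le_sup_right
          rw [card_cj]
          exact hcard
        rw [hX', hX₀', e2, ← e1]
      have hself : ∑ d : D₀, (d : U ≃ₗ[k] U) (F X₀) = (Nat.card D₀ : k) • F X₀ := by
        have hFX : F X₀ ∈ fixU D₀ := by
          have h1 := hf X₀ hX₀
          rw [hX₀'] at h1
          obtain ⟨u', hu', hu'e⟩ := Submodule.mem_map.1 h1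
          have h2 : F X₀ = u' := by
            apply Subtype.ext
            rw [hF X₀ hX₀]
            rw [← hX₀'] at hu'e
            exact hu'e.symm
          rw [h2]; exact hu'
        rw [Finset.sum_congr rfl (fun (d : D₀) _ => hFX (d : U ≃ₗ[k] U) d.2), Finset.sum_const,
          Finset.card_univ, Nat.card_eq_fintype_card, Nat.cast_smul_eq_nsmul]
      rw [← Finset.add_sum_erase T _ hX₀, Finset.sum_eq_zero (s := T.erase X₀), add_zero,
        hself] at hav
      · rw [smul_eq_zero] at hav
        rcases hav with h | h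
        · exact absurd h (hBk D₀ (hcj h₀').1)
        · rw [← hF X₀ hX₀, h]; rfl
      · intro X hX
        rw [Finset.mem_erase] at hX
        exact hother X hX.2 hX.1
  have hDbot : ∀ d ∈ D, d = 1 := by
    intro d hd
    ext w
    have h1 : (w : V) ∈ (fixU D).map U.subtype := by rw [hY]; exact w.2
    obtain ⟨w', hw', hw'e⟩ := Submodule.mem_map.1 h1
    have h2 : w' = w := Subtype.ext hw'e
    rw [h2] at hw'
    rw [hw' d hd]
    rfl
  have hcardD : Nat.card D = 1 := by
    rw [Nat.card_eq_one_iff_unique]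
    refine ⟨⟨fun a b => Subtype.ext ?_⟩, ⟨1⟩⟩
    rw [hDbot a a.2, hDbot b b.2]
  have h3 := hDmax _ hb𝒟
  rw [hcardD] at h3
  have h4 : Nat.card (Subgroup.zpowers b) = 1 := le_antisymm h3 Nat.card_pos
  rw [Nat.card_zpowers, orderOf_eq_one_iff] at h4
  exact h4

end Pool.Agent.H56.INW
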