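import Pool.Agent.H56.INW.Phi

/-!
# Odd primes: the local group has a regular orbit
-/

namespace Pool.Agent.H56.INW

open Subgroup

theorem pow_expand (x : ℤ) (i : ℕ) : ∃ q : ℤ, (1 + x) ^ i = 1 + i * x + q * x ^ 2 := by
  induction i with
  | zero => exact ⟨0, by simp⟩
  | succ i ih =>
    obtain ⟨q, hq⟩ := ih
    refine ⟨q + i + q * x, ?_⟩
    rw [pow_succ, hq]
    push_cast
    ring

theorem odd_dvd_sum_pow {r : ℕ} (hodd : Odd r) (k : ℤ) (hk : (r : ℤ) ∣ k - 1) :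
    ∃ n : ℤ, (∑ i ∈ Finset.range r, k ^ i) = r * (1 + r * n) := by
  obtain ⟨m, hm⟩ := hk
  have hk' : k = 1 + r * m := by linarith
  obtain ⟨h, hh⟩ := hodd
  choose q hq using pow_expand ((r : ℤ) * m)
  have h1 : (∑ i ∈ Finset.range r, k ^ i)
      = ∑ i ∈ Finset.range r, (1 + (i : ℤ) * (r * m) + q i * (r * m) ^ 2) := by
    apply Finset.sum_congr rfl
    intro i _
    rw [hk', hq]
  rw [h1, Finset.sum_add_distrib, Finset.sum_add_distrib, ← Finset.sum_mul, ← Finset.sum_mul]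
  have h2 : (∑ i ∈ Finset.range r, (i : ℤ)) = r * h := by
    have h3 := Finset.sum_range_id_mul_two r
    have h4 : (∑ i ∈ Finset.range r, i) * 2 = (r * h) * 2 := by
      rw [h3]
      have : r - 1 = 2 * h := by omega
      rw [this]; ring
    have h5 : (∑ i ∈ Finset.range r, i) = r * h := Nat.eq_of_mul_eq_mul_right (by norm_num) h4
    have h6 := congrArg (fun n : ℕ => (n : ℤ)) h5
    simp only [Nat.cast_sum, Nat.cast_mul] at h6
    exact h6
  rw [h2]
  refine ⟨h * m + (∑ i ∈ Finset.range r, q i) * m ^ 2, ?_⟩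
  simp only [Finset.sum_const, Finset.card_range, nsmul_eq_mul, mul_one]
  ring

/-- The sum of the translates of a vector by a finite subgroup. -/
noncomputable def avg {G U : Type*} [Group G] [AddCommGroup U] [DistribMulAction G U]
    (S : Subgroup G) [Fintype S] (v : U) : U := ∑ s : S, (s : G) • v

section avg

variable {G U : Type*} [Group G] [AddCommGroup U] [DistribMulAction G U]
  (S : Subgroup G) [Fintype S]

theorem avg_smul_mem {s : G} (hs : s ∈ S) (v : U) : avg S (s • v) = avg S v := by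
  unfold avg
  apply Fintype.sum_bijective (fun d : S => d * (⟨s, hs⟩ : S)) (Group.mulRight_bijective _)
  intro d
  rw [← mul_smul]
  rfl

theorem avg_comm {c : G} (hc : ∀ s ∈ S, c * s = s * c) (v : U) : avg S (c • v) = c • avg S v := by
  unfold avg
  rw [Finset.smul_sum]
  apply Finset.sum_congr rfl
  intro s _
  rw [← mul_smul, ← mul_smul, hc s s.2]

theorem avg_fixed {v : U} (hv : ∀ s ∈ S, s • v = v) : avg S v = (Nat.card S) • v := by
  unfold avg
  rw [Finset.sum_congr rfl (fun (s : S) _ => hv s s.2), Finset.sum_const, Finset.card_univ,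
    Nat.card_eq_fintype_card]

theorem avg_zero : avg S (0 : U) = 0 := by
  unfold avg
  simp

theorem avg_sum {ι : Type*} (T : Finset ι) (f : ι → U) :
    avg S (∑ i ∈ T, f i) = ∑ i ∈ T, avg S (f i) := by
  unfold avg
  rw [Finset.sum_comm]
  apply Finset.sum_congr rfl
  intro s _
  rw [Finset.smul_sum]

end avg

/-- The version of the cyclicity criterion with the `r`-group hypothesis on the subgroup. -/
theorem exists_gen_of_unique' {r : ℕ} [hr : Fact r.Prime] {P : Type*} [Group P] [Finite P]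
    (A : Subgroup P) (hA : IsPGroup r A)
    (hcomm : ∀ a ∈ A, ∀ b ∈ A, a * b = b * a)
    (h : ∀ z ∈ A, ∀ t ∈ A, z ≠ 1 → z ^ r = 1 → t ^ r = 1 → t ∈ zpowers z) :
    ∃ ζ ∈ A, ∀ a ∈ A, a ∈ zpowers ζ := by
  obtain ⟨ζ, hζ, hgen⟩ := exists_gen_of_unique (P := A) hA ⊤
    (fun a _ b _ => Subtype.ext (hcomm a a.2 b b.2)) (by
      intro z _ t _ hz hzr htr
      have hz' : (z : P) ≠ 1 := fun hh => hz (Subtype.ext hh)
      obtain ⟨i, hi⟩ := Subgroup.mem_zpowers_iff.1 (h z z.2 t t.2 hz'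
        (by have := congrArg Subtype.val hzr; exact this)
        (by have := congrArg Subtype.val htr; exact this))
      refine Subgroup.mem_zpowers_iff.2 ⟨i, Subtype.ext ?_⟩
      rw [← hi, Subgroup.coe_zpow])
  refine ⟨ζ, ζ.2, fun a ha => ?_⟩
  obtain ⟨i, hi⟩ := Subgroup.mem_zpowers_iff.1 (hgen ⟨a, ha⟩ trivial)
  refine Subgroup.mem_zpowers_iff.2 ⟨i, ?_⟩
  have := congrArg Subtype.val hi
  rw [Subgroup.coe_zpow] at this
  exact this

namespace LocData

variable {r : ℕ} [hr : Fact r.Prime] {G U : Type*} [Group G] [Finite G] [AddCommGroup U]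
  [DistribMulAction G U] {P J : Subgroup G}

theorem fpf_center (hL : LocData r U P J) {c : G} (hc : c ∈ P) (hcc : ∀ p ∈ P, c * p = p * c)
    {u : U} (hu : u ≠ 0) (hcu : c • u = u) : c = 1 := by
  let B : Subgroup G := P ⊓ centralizer (P : Set G)
  apply hL.fpf B inf_le_left ?_ ?_ c ?_ u hu hcu
  · intro a ha b hb
    exact ((mem_centralizer_iff.1 (Subgroup.mem_inf.1 hb).2) a (Subgroup.mem_inf.1 ha).1)
  · intro j hj b hb
    refine Subgroup.mem_inf.2 ⟨hL.norm j hj b (Subgroup.mem_inf.1 hb).1, ?_⟩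
    rw [mem_centralizer_iff]
    intro m hm
    have h1 := (mem_centralizer_iff.1 (Subgroup.mem_inf.1 hb).2) (j⁻¹ * m * j⁻¹⁻¹)
      (hL.norm j⁻¹ (J.inv_mem hj) m hm)
    calc m * (j * b * j⁻¹) = j * ((j⁻¹ * m * j⁻¹⁻¹) * b) * j⁻¹ := by group
      _ = (j * b * j⁻¹) * m := by rw [h1]; group
  · refine Subgroup.mem_inf.2 ⟨hc, ?_⟩
    rw [mem_centralizer_iff]
    intro m hm
    exact (hcc m hm).symm

theorem exists_regular (hL : LocData r U P J) (hodd : Odd r) :
    ∃ u : U, u ≠ 0 ∧ ∀ g ∈ P, g • u = u → g = 1 := by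
  classical
  obtain ⟨M, hMP, hMJ, hMc, hMpow, hMcomm⟩ := hL.exists_frat
  have hMf : ∀ m ∈ M, ∀ u : U, u ≠ 0 → m • u = u → m = 1 := hL.fpf M hMP hMc hMJ
  have hMcyc : ∀ z ∈ M, ∀ t ∈ M, z ≠ 1 → z ^ r = 1 → t ^ r = 1 → t ∈ zpowers z :=
    fun z hz t ht => hL.cyc M hMP hMc hMJ hz ht
  have hMr : IsPGroup r M := hL.pgrp.to_le hMP
  obtain ⟨u₀, hu₀⟩ := hL.nt
  by_cases hMbot : ∀ m ∈ M, m = 1
  · -- `P` is commutative
    refine ⟨u₀, hu₀, fun g hg hgu => ?_⟩
    apply hL.fpf_center hg ?_ hu₀ hgu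
    intro p hp
    have h1 := hMbot _ (hMcomm g hg p hp)
    calc g * p = (p * g) * (g⁻¹ * p⁻¹ * g * p) := by group
      _ = p * g := by rw [h1, mul_one]
  -- a central element of order `r` in `M`
  obtain ⟨z, hzM, hz1, hzc, hzr⟩ : ∃ z ∈ M, z ≠ 1 ∧ (∀ p ∈ P, z * p = p * z) ∧ z ^ r = 1 := by
    let M' : Subgroup P := M.subgroupOf P
    have hM'n : M'.Normal := by
      refine ⟨fun n hn g => ?_⟩
      rw [mem_subgroupOf] at hn ⊢
      exact hMJ g (hL.le g.2) n hn
    have hne : (⊥ : Subgroup P) ≠ M' := by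
      intro h
      apply hMbot
      intro m hm
      have h1 : (⟨m, hMP hm⟩ : P) ∈ M' := mem_subgroupOf.2 hm
      rw [← h, Subgroup.mem_bot] at h1
      exact congrArg Subtype.val h1
    obtain ⟨t, htM, ht1, htg, htr⟩ := exists_central_mod hL.pgrp ⊥ M' bot_le hne
    rw [Subgroup.mem_bot] at ht1 htr
    refine ⟨t, mem_subgroupOf.1 htM, fun h => ht1 (Subtype.ext h), ?_, ?_⟩
    · intro p hp
      have h1 := htg ⟨p, hp⟩
      rw [Subgroup.mem_bot] at h1
      have h2 := congrArg Subtype.val h1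
      have h3 : (t : G)⁻¹ * (p⁻¹ * t * p) = 1 := h2
      calc (t : G) * p = p * (t * ((t : G)⁻¹ * (p⁻¹ * t * p))) := by group
        _ = p * t := by rw [h3, mul_one]
    · have := congrArg Subtype.val htr
      exact this
  -- commutators of elements of order `r`
  have hkey : ∀ s ∈ P, s ^ r = 1 → ∀ l ∈ P, s⁻¹ * (l⁻¹ * s * l) ∈ zpowers z := by
    intro s hs hsr l hl
    set c := s⁻¹ * (l⁻¹ * s * l) with hc
    have hcM : c ∈ M := by
      have h1 := hMcomm s hs l hl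
      have h2 : c = s⁻¹ * l⁻¹ * s * l := by rw [hc]; group
      rw [h2]; exact h1
    apply hMcyc z hzM c hcM hz1 hzr
    obtain ⟨ζ, hζM, hζ⟩ := exists_gen_of_unique' M hMr hMc hMcyc
    obtain ⟨k, hk⟩ := Subgroup.mem_zpowers_iff.1 (hζ (s⁻¹ * ζ * s) (by
      have := hMJ s⁻¹ (J.inv_mem (hL.le hs)) ζ hζM
      rwa [inv_inv] at this))
    have hkM : ∀ a ∈ M, s⁻¹ * a * s = a ^ k := by
      intro a ha
      obtain ⟨i, rfl⟩ := Subgroup.mem_zpowers_iff.1 (hζ a ha)
      have h1 : s⁻¹ * ζ ^ i * s = (s⁻¹ * ζ * s) ^ i := by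
        have := conj_zpow (i := i) (a := s⁻¹) (b := ζ)
        rw [inv_inv] at this
        exact this.symm
      rw [h1, ← hk, ← zpow_mul, ← zpow_mul, mul_comm]
    have hrk : (r : ℤ) ∣ k - 1 := by
      have h1 : z ^ k = z := by
        rw [← hkM z hzM, mul_assoc, hzc s hs, inv_mul_cancel_left]
      have h2 : z ^ (k - 1) = 1 := by rw [zpow_sub_one, h1, mul_inv_cancel]
      rw [← orderOf_dvd_iff_zpow_eq_one, orderOf_eq_prime hzr hz1] at h2
      exact h2
    obtain ⟨n, hn⟩ := odd_dvd_sum_pow hodd k hrk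
    have h3 : (s * c) ^ r = 1 := by
      have h4 : s * c = l⁻¹ * s * l := by rw [hc]; group
      rw [h4]
      have := conj_pow (i := r) (a := l⁻¹) (b := s)
      rw [inv_inv] at this
      rw [this, hsr]; group
    rw [pow_mul_conj s c k (hkM c hcM) r, hsr, one_mul, hn] at h3
    have h5 : (c ^ r) ^ (1 + (r : ℤ) * n) = 1 := by
      rw [← zpow_natCast, ← zpow_mul]; exact h3
    obtain ⟨a, ha⟩ := (IsPGroup.iff_orderOf.1 hMr) (⟨c, hcM⟩ ^ r)
    have ha' : orderOf (c ^ r) = r ^ a := by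
      rw [← ha, ← Subgroup.orderOf_coe]
      rfl
    rw [← orderOf_dvd_iff_zpow_eq_one, ha'] at h5
    have hcop : IsCoprime ((r ^ a : ℕ) : ℤ) (1 + (r : ℤ) * n) := by
      push_cast
      apply IsCoprime.pow_left
      exact ⟨-n, 1, by ring⟩
    have h6 : IsUnit ((r ^ a : ℕ) : ℤ) := hcop.isUnit_of_dvd' dvd_rfl h5
    rw [← orderOf_eq_one_iff, ha']
    have h7 := Int.isUnit_iff_natAbs_eq.1 h6
    rw [Int.natAbs_natCast] at h7
    exact h7
  -- a maximal subgroup with a fixed vector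
  let 𝒮 : Set (Subgroup G) := {S | S ≤ P ∧ ∃ w : U, w ≠ 0 ∧ ∀ s ∈ S, s • w = w}
  have hbot : (⊥ : Subgroup G) ∈ 𝒮 := by
    refine ⟨bot_le, u₀, hu₀, fun s hs => ?_⟩
    rw [Subgroup.mem_bot] at hs
    rw [hs, one_smul]
  obtain ⟨S, hS, hSmax⟩ := Set.exists_max_image 𝒮 (fun D => Nat.card D) (Set.toFinite 𝒮) ⟨_, hbot⟩
  obtain ⟨hSP, w₀, hw₀, hSw⟩ := hS
  have : Fintype S := Fintype.ofFinite _
  have hordr : ∀ s ∈ P, ∀ u : U, u ≠ 0 → s • u = u → s ^ r = 1 := by
    intro s hs u hu hsu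
    apply hMf (s ^ r) (hMpow s hs) u hu
    have : ∀ n : ℕ, s ^ n • u = u := by
      intro n
      induction n with
      | zero => rw [pow_zero, one_smul]
      | succ n ih => rw [pow_succ, mul_smul, hsu, ih]
    exact this r
  have hSr : ∀ s ∈ S, s ^ r = 1 := fun s hs => hordr s (hSP hs) w₀ hw₀ (hSw s hs)
  have hSc : ∀ s ∈ S, ∀ s' ∈ S, s * s' = s' * s := by
    intro s hs s' hs'
    have h1 := hMcomm s (hSP hs) s' (hSP hs')
    have h2 : s⁻¹ * s'⁻¹ * s * s' ∈ S :=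
      S.mul_mem (S.mul_mem (S.mul_mem (S.inv_mem hs) (S.inv_mem hs')) hs) hs'
    have h3 := hMf _ h1 w₀ hw₀ (hSw _ h2)
    calc s * s' = (s' * s) * (s⁻¹ * s'⁻¹ * s * s') := by group
      _ = s' * s := by rw [h3, mul_one]
  have hzcent : ∀ c ∈ zpowers z, ∀ p ∈ P, c * p = p * c := by
    intro c hc p hp
    obtain ⟨i, rfl⟩ := Subgroup.mem_zpowers_iff.1 hc
    exact (show Commute z p from hzc p hp).zpow_left i
  have hzle : zpowers z ≤ M := (zpowers_le).2 hzM
  let R : Subgroup P := (centralizer (S : Set G)).subgroupOf P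
  have hR : ∀ l : P, l ∈ R ↔ ∀ s ∈ S, s * l = l * s := by
    intro l
    rw [mem_subgroupOf, mem_centralizer_iff]
    rfl
  -- commutators with elements of `S`
  have hRc : ∀ l : P, l ∈ R ↔ ∀ s ∈ S, s⁻¹ * ((l : G)⁻¹ * s * l) = 1 := by
    intro l
    rw [hR]
    constructor
    · intro h s hs
      have := h s hs
      calc s⁻¹ * ((l : G)⁻¹ * s * l) = s⁻¹ * ((l : G)⁻¹ * (s * l)) := by group
        _ = 1 := by rw [this]; group
    · intro h s hs
      have := h s hs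
      calc s * (l : G) = l * (s * (s⁻¹ * ((l : G)⁻¹ * s * l))) := by group
        _ = l * s := by rw [this, mul_one]
  have havg0 : ∀ l : P, l ∉ R → ∀ w : U, (∀ s ∈ S, s • w = w) → avg S ((l : G) • w) = 0 := by
    intro l hl w hw
    have hl' : l⁻¹ ∉ R := fun h => hl (by have := R.inv_mem h; rwa [inv_inv] at this)
    rw [hRc] at hl'
    push Not at hl'
    obtain ⟨s, hs, hsc⟩ := hl'
    rw [Subgroup.coe_inv, inv_inv] at hsc
    set c := s⁻¹ * ((l : G) * s * (l : G)⁻¹) with hc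
    have hcz : c ∈ zpowers z := by
      have := hkey s (hSP hs) (hSr s hs) (l : G)⁻¹ (P.inv_mem l.2)
      rwa [inv_inv] at this
    have h1 : (l : G) • w = (s * c) • ((l : G) • w) := by
      have h2 : s * c = (l : G) * s * (l : G)⁻¹ := by rw [hc]; group
      rw [h2, ← mul_smul]
      have h3 : (l : G) * s * (l : G)⁻¹ * l = l * s := by group
      rw [h3, mul_smul, hw s hs]
    by_contra hne
    apply hsc
    apply hMf c (hzle hcz) _ hne
    rw [← avg_comm S (fun s' hs' => hzcent c hcz s' (hSP hs')), ← avg_smul_mem S hs, ← mul_smul,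
      ← h1]
  by_cases hRtop : R = ⊤
  · -- `S` is central, hence trivial
    have hS1 : ∀ s ∈ S, s = 1 := by
      intro s hs
      apply hL.fpf_center (hSP hs) ?_ hw₀ (hSw s hs)
      intro p hp
      have : (⟨p, hp⟩ : P) ∈ R := by rw [hRtop]; trivial
      exact ((hR _).1 this) s hs
    refine ⟨u₀, hu₀, fun g hg hgu => ?_⟩
    have hmem : zpowers g ∈ 𝒮 := by
      refine ⟨(zpowers_le).2 hg, u₀, hu₀, ?_⟩
      intro s hs
      have hle : zpowers g ≤ MulAction.stabilizer G u₀ := (zpowers_le).2 hgu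
      exact hle hs
    have h1 := hSmax _ hmem
    have h2 : Nat.card S = 1 := by
      rw [Nat.card_eq_one_iff_unique]
      refine ⟨⟨fun a b => Subtype.ext ?_⟩, ⟨1⟩⟩
      rw [hS1 a a.2, hS1 b b.2]
    rw [h2] at h1
    have h4 : Nat.card (zpowers g) = 1 := le_antisymm h1 Nat.card_pos
    rw [Nat.card_zpowers, orderOf_eq_one_iff] at h4
    exact h4
  -- the main case
  have : Fintype (P ⧸ R) := Fintype.ofFinite _
  let u : U := ∑ q ∈ (Finset.univ : Finset (P ⧸ R)).erase ((1 : P) : P ⧸ R), (q.out : G) • w₀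
  have hcardS : Nat.card S • w₀ ≠ 0 := by
    obtain ⟨n, hn⟩ := (IsPGroup.iff_card (p := r)).1 (hL.pgrp.to_le hSP)
    rw [hn]
    have : ∀ n : ℕ, ∀ v : U, v ≠ 0 → r ^ n • v ≠ 0 := by
      intro n
      induction n with
      | zero => intro v hv; rw [pow_zero, one_smul]; exact hv
      | succ n ih =>
        intro v hv
        rw [pow_succ, mul_smul]
        exact ih _ (hL.tors v hv)
    exact this n w₀ hw₀
  have hrep : ∀ l : P, ∀ q : P ⧸ R, l⁻¹ * q.out ∈ R ↔ (l : P ⧸ R) = q := by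
    intro l q
    rw [← QuotientGroup.eq, QuotientGroup.out_eq']
  have hu1 : avg S u = 0 := by
    change avg S (∑ q ∈ (Finset.univ : Finset (P ⧸ R)).erase ((1 : P) : P ⧸ R),
      (q.out : G) • w₀) = 0
    rw [avg_sum]
    apply Finset.sum_eq_zero
    intro q hq
    rw [Finset.mem_erase] at hq
    apply havg0 _ _ w₀ hSw
    intro h
    apply hq.1
    have := (hrep 1 q).1 (by rwa [inv_one, one_mul])
    exact this.symm
  have hu2 : ∀ l : P, l ∉ R → avg S ((l : G)⁻¹ • u) ≠ 0 := by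
    intro l hl
    change avg S ((l : G)⁻¹ • (∑ q ∈ (Finset.univ : Finset (P ⧸ R)).erase ((1 : P) : P ⧸ R),
      (q.out : G) • w₀)) ≠ 0
    rw [Finset.smul_sum, avg_sum]
    have hmem : (l : P ⧸ R) ∈ (Finset.univ : Finset (P ⧸ R)).erase ((1 : P) : P ⧸ R) := by
      rw [Finset.mem_erase]
      refine ⟨?_, Finset.mem_univ _⟩
      intro h
      apply hl
      rw [QuotientGroup.eq, mul_one] at h
      have := R.inv_mem h
      rwa [inv_inv] at this
    rw [Finset.sum_eq_single_of_mem (l : P ⧸ R) hmem]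
    · have hρ : l⁻¹ * (l : P ⧸ R).out ∈ R := (hrep l _).2 rfl
      rw [← mul_smul]
      have h1 : (l : G)⁻¹ * ((l : P ⧸ R).out : G) = ((l⁻¹ * (l : P ⧸ R).out : P) : G) := rfl
      rw [h1]
      set ρ := l⁻¹ * (l : P ⧸ R).out with hρd
      rw [avg_comm S (fun s hs => ((hR ρ).1 hρ s hs).symm), avg_fixed S hSw]
      intro h
      rw [smul_eq_zero_iff_eq] at h
      exact hcardS h
    · intro q hq hne
      rw [← mul_smul]
      have h1 : (l : G)⁻¹ * (q.out : G) = ((l⁻¹ * q.out : P) : G) := rfl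
      rw [h1]
      apply havg0 _ _ w₀ hSw
      intro h
      exact hne ((hrep l q).1 h).symm
  obtain ⟨l₀, hl₀⟩ : ∃ l₀ : P, l₀ ∉ R := by
    by_contra hcon
    push Not at hcon
    exact hRtop (eq_top_iff.2 fun x _ => hcon x)
  have hu0 : u ≠ 0 := by
    intro h
    apply hu2 l₀ hl₀
    rw [h, smul_zero, avg_zero]
  refine ⟨u, hu0, fun g hg hgu => ?_⟩
  have hgr := hordr g hg u hu0 hgu
  have hgR : (⟨g, hg⟩ : P) ∈ R := by
    by_contra hgR
    have h1 : (⟨g, hg⟩ : P)⁻¹ ∉ R := fun h => hgR (by have := R.inv_mem h; rwa [inv_inv] at this)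
    apply hu2 _ h1
    have h2 : (((⟨g, hg⟩ : P)⁻¹ : P) : G)⁻¹ • u = u := by
      rw [Subgroup.coe_inv, inv_inv]
      exact hgu
    rw [h2, hu1]
  have hgS := (hR _).1 hgR
  -- `g` is in `S ⟨z⟩`
  have hzf : ∀ v : U, z • v = v → v = 0 := by
    intro v hv
    by_contra hv0
    exact hz1 (hMf z hzM v hv0 hv)
  obtain ⟨j, hj⟩ := rank_two z g (hzc g hg) hzr hzf (hL.tors w₀ hw₀)
  have hzjg : Commute g (z ^ j) := ((show Commute z g from hzc g hg).symm).pow_right j
  have hpow : (g * z ^ j) ^ r = 1 := by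
    rw [hzjg.mul_pow, hgr, ← pow_mul, mul_comm j r, pow_mul, hzr, one_pow, one_mul]
  have hgzP : g * z ^ j ∈ P := P.mul_mem hg (P.pow_mem (hMP hzM) j)
  have hgzS : ∀ s ∈ S, Commute s (g * z ^ j) := by
    intro s hs
    have h1 : Commute s g := hgS s hs
    have h2 : Commute s (z ^ j) := ((show Commute z s from hzc s (hSP hs)).symm).pow_right j
    exact h1.mul_right h2
  have hfixS : ∀ s ∈ S, s • orb r (g * z ^ j) w₀ = orb r (g * z ^ j) w₀ := by
    intro s hs
    unfold orb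
    rw [Finset.smul_sum]
    apply Finset.sum_congr rfl
    intro i _
    rw [← mul_smul, ((hgzS s hs).pow_right i).eq, mul_smul, hSw s hs]
  have hsup : S ⊔ zpowers (g * z ^ j) ∈ 𝒮 := by
    refine ⟨sup_le hSP ((zpowers_le).2 hgzP), _, hj, ?_⟩
    have hle : S ⊔ zpowers (g * z ^ j) ≤ MulAction.stabilizer G (orb r (g * z ^ j) w₀) := by
      apply sup_le
      · intro s hs; exact hfixS s hs
      · rw [zpowers_le]; exact smul_orb hr.out.pos _ hpow w₀
    intro s hs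
    exact hle hs
  have hSeq : S = S ⊔ zpowers (g * z ^ j) :=
    Subgroup.eq_of_le_of_card_ge le_sup_left (hSmax _ hsup)
  have hsS : g * z ^ j ∈ S := by
    rw [hSeq]
    exact (le_sup_right : zpowers (g * z ^ j) ≤ _) (mem_zpowers _)
  set s := g * z ^ j with hs
  have hg' : g = s * (z ^ j)⁻¹ := by rw [hs]; group
  -- the commutators of `s`
  have hcl : ∀ l : P, l ∉ R → s⁻¹ * ((l : G)⁻¹ * s * l) = z ^ j := by
    intro l hl
    set c := s⁻¹ * ((l : G)⁻¹ * s * l) with hc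
    have hcz : c ∈ zpowers z := hkey s (hSP hsS) (hSr s hsS) l l.2
    have hzj : (z ^ j)⁻¹ ∈ zpowers z := inv_mem (pow_mem (mem_zpowers z) j)
    have hc' : c * (z ^ j)⁻¹ ∈ zpowers z := mul_mem hcz hzj
    have h1 : (l : G)⁻¹ • u = (s * (c * (z ^ j)⁻¹)) • ((l : G)⁻¹ • u) := by
      have h2 : s * (c * (z ^ j)⁻¹) * (l : G)⁻¹ = (l : G)⁻¹ * g := by
        have h3 := hzcent _ hzj (l : G)⁻¹ (P.inv_mem l.2)
        calc s * (c * (z ^ j)⁻¹) * (l : G)⁻¹ = s * c * ((z ^ j)⁻¹ * (l : G)⁻¹) := by group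
          _ = (l : G)⁻¹ * (s * (z ^ j)⁻¹) := by
            rw [h3, hc]
            group
          _ = (l : G)⁻¹ * g := by rw [← hg']
      rw [← mul_smul, h2, mul_smul, hgu]
    have h4 : (c * (z ^ j)⁻¹) • avg S ((l : G)⁻¹ • u) = avg S ((l : G)⁻¹ • u) := by
      rw [← avg_comm S (fun s' hs' => hzcent _ hc' s' (hSP hs')), ← avg_smul_mem S hsS, ← mul_smul,
        ← h1]
    have h5 := hMf _ (hzle hc') _ (hu2 l hl) h4
    exact mul_inv_eq_one.1 h5
  -- squares
  have hzj1 : z ^ j = 1 := by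
    have h1 := hcl l₀ hl₀
    have hsq : l₀ * l₀ ∉ R := by
      intro h
      apply hl₀
      rw [hRc] at h ⊢
      intro t ht
      have h2 := h t ht
      set c := t⁻¹ * ((l₀ : G)⁻¹ * t * l₀) with hc
      have hcz : c ∈ zpowers z := hkey t (hSP ht) (hSr t ht) l₀ l₀.2
      have h3 : t⁻¹ * (((l₀ * l₀ : P) : G)⁻¹ * t * ((l₀ * l₀ : P) : G)) = c * c := by
        have h4 := hzcent c hcz (l₀ : G) l₀.2
        have h5 : (l₀ : G)⁻¹ * t * l₀ = t * c := by rw [hc]; group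
        calc t⁻¹ * (((l₀ * l₀ : P) : G)⁻¹ * t * ((l₀ * l₀ : P) : G))
            = t⁻¹ * ((l₀ : G)⁻¹ * ((l₀ : G)⁻¹ * t * l₀) * l₀) := by
              rw [Subgroup.coe_mul]; group
          _ = t⁻¹ * ((l₀ : G)⁻¹ * t * (c * l₀)) := by rw [h5]; group
          _ = t⁻¹ * (((l₀ : G)⁻¹ * t * l₀) * c) := by rw [h4]; group
          _ = c * c := by rw [h5]; group
      rw [h3] at h2
      have h6 : c ^ r = 1 := by
        obtain ⟨i, hi⟩ := Subgroup.mem_zpowers_iff.1 hcz
        rw [← hi, ← zpow_natCast, ← zpow_mul, mul_comm, zpow_mul, zpow_natCast, hzr, one_zpow]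
      obtain ⟨m, hm⟩ := hodd
      calc c = c * (c * c) ^ m := by rw [h2, one_pow, mul_one]
        _ = c ^ r := by rw [hm, ← sq, ← pow_mul, ← pow_succ']
        _ = 1 := h6
    have h7 := hcl (l₀ * l₀) hsq
    have h8 : s⁻¹ * (((l₀ * l₀ : P) : G)⁻¹ * s * ((l₀ * l₀ : P) : G)) = z ^ j * z ^ j := by
      have h4 := hzcent (z ^ j) (pow_mem (mem_zpowers z) j) (l₀ : G) l₀.2
      have h5 : (l₀ : G)⁻¹ * s * l₀ = s * z ^ j := by rw [← h1]; group
      calc s⁻¹ * (((l₀ * l₀ : P) : G)⁻¹ * s * ((l₀ * l₀ : P) : G))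
          = s⁻¹ * ((l₀ : G)⁻¹ * ((l₀ : G)⁻¹ * s * l₀) * l₀) := by
            rw [Subgroup.coe_mul]; group
        _ = s⁻¹ * ((l₀ : G)⁻¹ * s * (z ^ j * l₀)) := by rw [h5]; group
        _ = s⁻¹ * (((l₀ : G)⁻¹ * s * l₀) * z ^ j) := by rw [h4]; group
        _ = z ^ j * z ^ j := by rw [h5]; group
    rw [h8] at h7
    exact mul_left_cancel (h7.trans (mul_one _).symm)
  have hs1 : s = 1 := by
    apply hL.fpf_center (hSP hsS) ?_ hw₀ (hSw s hsS)
    intro p hp
    by_cases hpR : (⟨p, hp⟩ : P) ∈ R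
    · exact ((hR _).1 hpR) s hsS
    · have h1 := hcl _ hpR
      rw [hzj1] at h1
      have h2 : s⁻¹ * (p⁻¹ * s * p) = 1 := h1
      calc s * p = p * (s * (s⁻¹ * (p⁻¹ * s * p))) := by group
        _ = p * s := by rw [h2, mul_one]
  rw [hg', hs1, hzj1, inv_one, mul_one]

end LocData

end Pool.Agent.H56.INW
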