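import Pool.Agent.H56.INW.LemA
import Pool.Agent.H56.INW.LemB
import Pool.Agent.H56.INW.Odd

/-!
# An irreducible module all of whose vectors are fixed by conjugates of one element
-/

namespace Pool.Agent.H56.INW

open scoped Pointwise

section general

variable {k V H : Type*} [Field k] [AddCommGroup V] [Module k V]
  [Group H] [DistribMulAction H V] [SMulCommClass H k V]

theorem IsSys.fix_comp {W : Finset (Submodule k V)} (hW : IsSys H W) {g : H}
    (hg : ∀ U ∈ W, g • U = U) (f : Submodule k V → V) (hf : ∀ U ∈ W, f U ∈ U)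
    (hfix : g • (∑ U ∈ W, f U) = ∑ U ∈ W, f U) : ∀ U ∈ W, g • f U = f U := by
  apply hW.uniq (fun U => g • f U) f
  · intro U hU
    exact smul_mem_of_stab (hg U hU) (hf U hU)
  · exact hf
  · rw [← Finset.smul_sum]; exact hfix

theorem IsSys.eq_one [FaithfulSMul H V] {W : Finset (Submodule k V)} (hW : IsSys H W)
    (hirr : Irr k V H) {g : H} (hg : ∀ U ∈ W, g ∈ trv H U) : g = 1 := by
  apply FaithfulSMul.eq_of_smul_eq_smul (α := V)
  intro v
  obtain ⟨f, hf, hfs⟩ := hW.span hirr v
  rw [one_smul, ← hfs, Finset.smul_sum]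
  exact Finset.sum_congr rfl fun U hU => hg U hU _ (hf U)

theorem exists_max_sys [Finite V] [Nontrivial V] :
    ∃ W : Finset (Submodule k V), IsSys H W ∧
      ∀ W' : Finset (Submodule k V), IsSys H W' → W'.card ≤ W.card := by
  classical
  have : Finite (Submodule k V) := Finite.of_injective (fun U : Submodule k V => (U : Set V))
    SetLike.coe_injective
  have hfin : (Set.univ : Set (Finset (Submodule k V))).Finite := Set.finite_univ
  have htop : IsSys H ({⊤} : Finset (Submodule k V)) := by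
    refine ⟨Finset.singleton_nonempty _, ?_, ?_, ?_⟩
    · intro U hU
      rw [Finset.mem_singleton] at hU
      rw [hU]
      exact top_ne_bot
    · intro h U hU
      rw [Finset.mem_singleton] at hU ⊢
      rw [hU, eq_top_iff]
      intro v _
      rw [Submodule.mem_smul_pointwise_iff_exists]
      exact ⟨h⁻¹ • v, trivial, smul_inv_smul h v⟩
    · intro f _ hf U hU
      rw [Finset.sum_singleton] at hf
      rw [Finset.mem_singleton] at hU
      rw [hU]; exact hf
  obtain ⟨W, hW, hmax⟩ := Set.exists_max_image {W : Finset (Submodule k V) | IsSys H W}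
    (fun W => W.card) (hfin.subset (Set.subset_univ _)) ⟨_, htop⟩
  exact ⟨W, hW, fun W' hW' => hmax W' hW'⟩

/-- The image of a normal subgroup in the automorphisms of a member of a system. -/
def img (N : Subgroup H) (U : Submodule k V) : Subgroup (U ≃ₗ[k] U) :=
  (N.subgroupOf (MulAction.stabilizer H U)).map (loc U)

theorem mem_img (N : Subgroup H) (U : Submodule k V) (f : U ≃ₗ[k] U) :
    f ∈ img N U ↔ ∃ n : MulAction.stabilizer H U, (n : H) ∈ N ∧ loc U n = f := by
  unfold img
  rw [Subgroup.mem_map]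
  rfl

theorem locData {r : ℕ} [hr : Fact r.Prime] [Finite V] [Finite H]
    (hrk : (r : k) ≠ 0)
    {W : Finset (Submodule k V)} (hW : IsSys H W) (hirr : Irr k V H)
    (hmax : ∀ W' : Finset (Submodule k V), IsSys H W' → W'.card ≤ W.card)
    (N : Subgroup H) [hN : N.Normal] (hNr : IsPGroup r N)
    {U : Submodule k V} (hU : U ∈ W) : LocData r U (img N U) (loc (H := H) U).range where
  pgrp := by
    unfold img
    apply IsPGroup.map
    exact hNr.comap_subtype
  le := by
    intro f hf
    obtain ⟨n, _, rfl⟩ := (mem_img N U f).1 hf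
    exact ⟨n, rfl⟩
  norm := by
    rintro _ ⟨j, rfl⟩ f hf
    obtain ⟨n, hn, rfl⟩ := (mem_img N U f).1 hf
    rw [mem_img]
    refine ⟨j * n * j⁻¹, ?_, by rw [map_mul, map_mul, map_inv]⟩
    exact hN.conj_mem n hn j
  fpf := by
    intro B hB hBc hBn b hb u hu hbu
    apply fpf_of_comm hW hirr hmax hU B hBc ?_ (fun h b hb => hBn _ ⟨h, rfl⟩ b hb) b hb u hu hbu
    intro D hD
    have hP : IsPGroup r (img N U) := by
      unfold img
      apply IsPGroup.map
      exact hNr.comap_subtype
    obtain ⟨n, hn⟩ := (IsPGroup.iff_card (p := r)).1 (hP.to_le (hD.trans hB))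
    rw [hn]
    push_cast
    exact pow_ne_zero n hrk
  tors := by
    intro u hu h
    have h1 : (r : k) • u = 0 := by rw [Nat.cast_smul_eq_nsmul]; exact h
    rcases smul_eq_zero.1 h1 with h2 | h2
    · exact hrk h2
    · exact hu h2
  nt := by
    obtain ⟨w, hw, hw0⟩ := hW.exists_ne_zero hU
    exact ⟨⟨w, hw⟩, fun h => hw0 (congrArg Subtype.val h)⟩

/-- The odd case. -/
theorem odd_case {r : ℕ} [hr : Fact r.Prime] (hodd : Odd r) [Finite V] [Finite H] [Nontrivial V]
    [FaithfulSMul H V] (hrk : (r : k) ≠ 0) (hirr : Irr k V H) (y : H)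
    (hN : IsPGroup r (Subgroup.normalClosure {y}))
    (hα : ∀ v : V, ∃ h : H, (h * y * h⁻¹) • v = v) : y = 1 := by
  classical
  obtain ⟨W, hW, hmax⟩ := exists_max_sys (k := k) (V := V) (H := H)
  have hyK := lemmaB y hN hα _ W hW rfl
  have hNK : Subgroup.normalClosure {y} ≤ hW.kern := Subgroup.normalClosure_le_normal (by
    intro z hz
    rw [Set.mem_singleton_iff] at hz
    rw [hz]; exact hyK)
  have hreg : ∀ U ∈ W, ∃ u : V, u ∈ U ∧ ∀ n ∈ Subgroup.normalClosure {y}, n • u = u →
      n ∈ trv H U := by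
    intro U hU
    obtain ⟨u, _, hu⟩ := (locData hrk hW hirr hmax (Subgroup.normalClosure {y}) hN hU).exists_regular
      hodd
    refine ⟨u, u.2, fun n hn hnu => ?_⟩
    have hst : n ∈ MulAction.stabilizer H U := hNK hn U hU
    have h1 := hu (loc U ⟨n, hst⟩) ((mem_img _ U _).2 ⟨⟨n, hst⟩, hn, rfl⟩) (Subtype.ext hnu)
    intro w hw
    have h2 := loc_apply U ⟨n, hst⟩ ⟨w, hw⟩
    rw [h1] at h2
    exact h2.symm
  choose! f hf hfreg using hreg
  obtain ⟨h, hh⟩ := hα (∑ U ∈ W, f U)
  have hyN : y ∈ Subgroup.normalClosure {y} := Subgroup.subset_normalClosure rfl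
  have hgN : h * y * h⁻¹ ∈ Subgroup.normalClosure {y} :=
    (Subgroup.normalClosure_normal).conj_mem y hyN h
  have h1 := hW.fix_comp (hNK hgN) f hf hh
  have h2 : h * y * h⁻¹ = 1 := hW.eq_one hirr fun U hU => hfreg U hU _ hgN (h1 U hU)
  exact conj_eq_one_iff.1 h2

end general

end Pool.Agent.H56.INW
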