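import Pool.Agent.H56.INW.ModTwo

/-!
# The module theorem
-/

namespace Pool.Agent.H56.INW

open scoped Pointwise

theorem isPGroup_normalClosure {r : ℕ} [hr : Fact r.Prime] {H : Type*} [Group H] [Finite H]
    (L : Subgroup H) [hL : L.Normal] (hLn : Group.IsNilpotent L) {y : H} (hy : y ∈ L) {m : ℕ}
    (ho : orderOf y = r ^ m) : IsPGroup r (Subgroup.normalClosure {y}) := by
  let y' : L := ⟨y, hy⟩
  have ho' : orderOf y' = r ^ m := by
    rw [← Subgroup.orderOf_coe]; exact ho
  have hz : IsPGroup r (Subgroup.zpowers y') := by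
    apply IsPGroup.of_card (n := m)
    rw [Nat.card_zpowers, ho']
  obtain ⟨S, hS⟩ := hz.exists_le_sylow
  have hSn : (S : Subgroup L).Normal := inferInstance
  have hSc : (S : Subgroup L).Characteristic := Sylow.characteristic_of_normal S hSn
  have hn : ((S : Subgroup L).map L.subtype).Normal :=
    ConjAct.normal_of_characteristic_of_normal
  have hle : Subgroup.normalClosure {y} ≤ (S : Subgroup L).map L.subtype := by
    apply Subgroup.normalClosure_le_normal
    intro z hz
    rw [Set.mem_singleton_iff] at hz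
    rw [hz]
    exact Subgroup.mem_map.2 ⟨y', hS (Subgroup.mem_zpowers y'), rfl⟩
  exact (S.isPGroup'.map _).to_le hle

theorem char_case {p : ℕ} [hp : Fact p.Prime] {V H : Type*} [AddCommGroup V] [Module (ZMod p) V]
    [Group H] [DistribMulAction H V] [SMulCommClass H (ZMod p) V] [Finite V] [Finite H]
    [Nontrivial V] [FaithfulSMul H V] (hirr : Irr (ZMod p) V H) (N : Subgroup H) [hN : N.Normal]
    (hNp : IsPGroup p N) : ∀ n ∈ N, n = 1 := by
  have hdvd : p ∣ Nat.card V := by
    obtain ⟨v, hv⟩ := exists_ne (0 : V)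
    have h1 : p • v = 0 := by
      have : ((p : ℕ) : ZMod p) • v = 0 := by
        rw [ZMod.natCast_self, zero_smul]
      rwa [Nat.cast_smul_eq_nsmul] at this
    have h2 : addOrderOf v = p := addOrderOf_eq_prime h1 hv
    rw [← h2]
    exact addOrderOf_dvd_natCard v
  obtain ⟨v, hv, hv0⟩ := hNp.exists_fixed_point_of_prime_dvd_card_of_fixed_point V hdvd (a := 0)
    (fun n => smul_zero n)
  let Y : Submodule (ZMod p) V :=
    { carrier := {v | ∀ n ∈ N, n • v = v}
      add_mem' := by
        intro a b ha hb n hn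
        rw [smul_add, ha n hn, hb n hn]
      zero_mem' := fun n _ => smul_zero n
      smul_mem' := by
        intro c a ha n hn
        rw [smul_comm, ha n hn] }
  have hY : Y = ⊤ := by
    rcases hirr Y (by
      intro h y hy n hn
      have h1 := hy _ (hN.conj_mem n hn h⁻¹)
      rw [inv_inv] at h1
      calc n • h • y = h • ((h⁻¹ * n * h) • y) := by
            rw [← mul_smul, ← mul_smul]; congr 1; group
        _ = h • y := by rw [h1]) with h | h
    · exfalso
      have : v ∈ Y := fun n hn => hv ⟨n, hn⟩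
      rw [h, Submodule.mem_bot] at this
      exact hv0 this.symm
    · exact h
  intro n hn
  apply FaithfulSMul.eq_of_smul_eq_smul (α := V)
  intro w
  have : w ∈ Y := by rw [hY]; trivial
  rw [one_smul]
  exact this n hn

theorem module_theorem {p : ℕ} [hp : Fact p.Prime] {V H : Type*} [AddCommGroup V]
    [Module (ZMod p) V] [Group H] [DistribMulAction H V] [SMulCommClass H (ZMod p) V]
    [Finite V] [Finite H] [Nontrivial V] [FaithfulSMul H V] (hirr : Irr (ZMod p) V H)
    (L : Subgroup H) [hL : L.Normal] (hLn : Group.IsNilpotent L) (x : H) (hxL : x ∈ L)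
    (hα : ∀ v : V, ∃ h : H, (h * x * h⁻¹) • v = v)
    (hβ : ∀ (Z : Subgroup H), Z.Normal → (∀ a ∈ Z, ∀ b ∈ Z, a * b = b * a) →
      ∀ lam : Z →* ℂˣ, (∀ (h : H) (z z' : Z), (z' : H) = h * z * h⁻¹ → lam z' = lam z) →
      ∀ (y : H) (z : Z), (z : H) = x⁻¹ * y⁻¹ * x * y → lam z = 1) : x = 1 := by
  by_contra hx
  -- powers
  have hαm : ∀ (m : ℕ) (v : V), ∃ h : H, (h * x ^ m * h⁻¹) • v = v := by
    intro m v
    obtain ⟨h, hh⟩ := hα v
    refine ⟨h, ?_⟩
    rw [← conj_pow]
    induction m with
    | zero => rw [pow_zero, one_smul]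
    | succ m ih => rw [pow_succ, mul_smul, hh, ih]
  have hprime : ∀ {r : ℕ}, r.Prime → r ∣ orderOf x → r = 2 ∧ p ≠ 2 := by
    intro r hr hrd
    have hrF : Fact r.Prime := ⟨hr⟩
    obtain ⟨n, hn⟩ := hrd
    have hn0 : n ≠ 0 := by
      rintro rfl
      rw [mul_zero] at hn
      exact (orderOf_pos x).ne' hn
    have ho : orderOf (x ^ n) = r := by
      rw [orderOf_pow_of_dvd hn0 ⟨r, by rw [hn, mul_comm]⟩, hn]
      exact Nat.mul_div_cancel _ (Nat.pos_of_ne_zero hn0)
    have hne : x ^ n ≠ 1 := by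
      intro h
      rw [h, orderOf_one] at ho
      exact hr.one_lt.ne ho
    have hNr := isPGroup_normalClosure (r := r) L hLn (L.pow_mem hxL n) (m := 1)
      (by rw [pow_one]; exact ho)
    have hrp : r ≠ p := by
      rintro rfl
      apply hne
      have hNn : (Subgroup.normalClosure {x ^ n}).Normal := Subgroup.normalClosure_normal
      exact char_case hirr _ hNr _ (Subgroup.subset_normalClosure rfl)
    have hrk : ((r : ℕ) : ZMod p) ≠ 0 := by
      intro h
      rw [ZMod.natCast_eq_zero_iff] at h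
      exact hrp ((Nat.prime_dvd_prime_iff_eq hp.out hr).1 h).symm
    by_cases h2 : r = 2
    · exact ⟨h2, fun h => hrp (h2.trans h.symm)⟩
    · exfalso
      apply hne
      exact odd_case (k := ZMod p) (V := V) (hr.odd_of_ne_two h2) hrk hirr _ hNr (hαm n)
  have hpow := Nat.eq_prime_pow_of_unique_prime_dvd (orderOf_pos x).ne'
    (fun {d} hd hdx => (hprime hd hdx).1)
  have h2 : 2 ∣ orderOf x ∧ p ≠ 2 := by
    have h1 : orderOf x ≠ 1 := fun h => hx (orderOf_eq_one_iff.1 h)
    obtain ⟨q, hq, hqd⟩ := Nat.exists_prime_and_dvd h1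
    have := hprime hq hqd
    exact ⟨this.1 ▸ hqd, this.2⟩
  have h2F : Fact (Nat.Prime 2) := ⟨Nat.prime_two⟩
  have hNr := isPGroup_normalClosure (r := 2) L hLn hxL hpow
  have h2k : (2 : ZMod p) ≠ 0 := by
    intro h
    have h3 : ((2 : ℕ) : ZMod p) = 0 := by exact_mod_cast h
    rw [ZMod.natCast_eq_zero_iff] at h3
    exact h2.2 ((Nat.prime_dvd_prime_iff_eq hp.out Nat.prime_two).1 h3)
  exact hx (two_case h2k hirr x hNr hα hβ)

end Pool.Agent.H56.INW
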