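import Pool.Agent.H56.INW.ModOdd

/-!
# The case of the prime two
-/

namespace Pool.Agent.H56.INW

open scoped Pointwise

variable {k V H : Type*} [Field k] [AddCommGroup V] [Module k V]
  [Group H] [DistribMulAction H V] [SMulCommClass H k V]

/-- `n` acts on `U` as `1` or as `-1`. -/
def PM (U : Submodule k V) (n : H) : Prop := n ∈ trv H U ∨ ∀ w ∈ U, n • w = -w

omit [SMulCommClass H k V] in
theorem PM.mul {U : Submodule k V} {a b : H} (ha : PM U a) (hb : PM U b) : PM U (a * b) := by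
  rcases ha with ha | ha <;> rcases hb with hb | hb
  · exact Or.inl ((trv H U).mul_mem ha hb)
  · right
    intro w hw
    rw [mul_smul, hb w hw, smul_neg, ha w hw]
  · right
    intro w hw
    rw [mul_smul, hb w hw, ha w hw]
  · left
    intro w hw
    rw [mul_smul, hb w hw, smul_neg, ha w hw, neg_neg]

omit [SMulCommClass H k V] in
theorem PM.inv {U : Submodule k V} {a : H} (ha : PM U a) : PM U a⁻¹ := by
  rcases ha with ha | ha
  · exact Or.inl ((trv H U).inv_mem ha)
  · right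
    intro w hw
    rw [inv_smul_eq_iff, smul_neg, ha w hw, neg_neg]

theorem mem_trv_conj {U : Submodule k V} (h n : H) :
    h * n * h⁻¹ ∈ trv H (h • U) ↔ n ∈ trv H U := by
  rw [mem_trv, mem_trv]
  constructor
  · intro hn w hw
    have h1 := hn (h • w) (Submodule.smul_mem_pointwise_smul w h U hw)
    rw [mul_smul, mul_smul, inv_smul_smul] at h1
    exact smul_left_cancel h h1
  · intro hn w hw
    obtain ⟨u, hu, rfl⟩ := (Submodule.mem_smul_pointwise_iff_exists _ _ _).1 hw
    rw [mul_smul, mul_smul, inv_smul_smul, hn u hu]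

theorem PM.conj {U : Submodule k V} {n : H} (hn : PM U n) (h : H) : PM (h • U) (h * n * h⁻¹) := by
  rcases hn with hn | hn
  · exact Or.inl ((mem_trv_conj h n).2 hn)
  · right
    intro w hw
    obtain ⟨u, hu, rfl⟩ := (Submodule.mem_smul_pointwise_iff_exists _ _ _).1 hw
    rw [mul_smul, mul_smul, inv_smul_smul, hn u hu, smul_neg]

open Classical in
/-- The sign as a complex unit. -/
noncomputable def sgu (U : Submodule k V) (g : H) : ℂˣ := if g ∈ trv H U then 1 else -1

omit [SMulCommClass H k V] in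
theorem sgu_coe (U : Submodule k V) (g : H) : ((sgu U g : ℂˣ) : ℂ) = ((sg U g : ℤ) : ℂ) := by
  by_cases h : g ∈ trv H U
  · rw [sg_of_mem h]
    unfold sgu
    rw [if_pos h]
    simp
  · rw [sg_of_not_mem h]
    unfold sgu
    rw [if_neg h]
    simp

omit [SMulCommClass H k V] in
theorem sgu_mul {U : Submodule k V} {a b : H} (ha : PM U a) (hb : PM U b)
    (hU : ∃ w ∈ U, w ≠ -w) : sgu U (a * b) = sgu U a * sgu U b := by
  obtain ⟨u, hu, hu2⟩ := hU
  have hneg : ∀ c : H, (∀ w ∈ U, c • w = -w) → c ∉ trv H U := by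
    intro c hc h
    exact hu2 ((h u hu).symm.trans (hc u hu))
  unfold sgu
  rcases ha with ha | ha <;> rcases hb with hb | hb
  · rw [if_pos ha, if_pos hb, if_pos ((trv H U).mul_mem ha hb), one_mul]
  · rw [if_pos ha, if_neg (hneg b hb), if_neg, one_mul]
    apply hneg
    intro w hw
    rw [mul_smul, hb w hw, smul_neg, ha w hw]
  · rw [if_neg (hneg a ha), if_pos hb, if_neg, mul_one]
    apply hneg
    intro w hw
    rw [mul_smul, hb w hw, ha w hw]
  · rw [if_neg (hneg a ha), if_neg (hneg b hb), if_pos, neg_mul_neg, one_mul]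
    intro w hw
    rw [mul_smul, hb w hw, smul_neg, ha w hw, neg_neg]

theorem two_case [Finite V] [Finite H] [Nontrivial V]
    [FaithfulSMul H V] (h2k : (2 : k) ≠ 0) (hirr : Irr k V H) (x : H)
    (hN : IsPGroup 2 (Subgroup.normalClosure {x}))
    (hα : ∀ v : V, ∃ h : H, (h * x * h⁻¹) • v = v)
    (hβ : ∀ (Z : Subgroup H), Z.Normal → (∀ a ∈ Z, ∀ b ∈ Z, a * b = b * a) →
      ∀ lam : Z →* ℂˣ, (∀ (h : H) (z z' : Z), (z' : H) = h * z * h⁻¹ → lam z' = lam z) →
      ∀ (y : H) (z : Z), (z : H) = x⁻¹ * y⁻¹ * x * y → lam z = 1) : x = 1 := by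
  classical
  by_contra hx1
  obtain ⟨W, hW, hmax⟩ := exists_max_sys (k := k) (V := V) (H := H)
  have hyK := lemmaB x hN hα _ W hW rfl
  set N := Subgroup.normalClosure ({x} : Set H) with hNdef
  have hNn : N.Normal := Subgroup.normalClosure_normal
  have hxN : x ∈ N := Subgroup.subset_normalClosure rfl
  have hNK : N ≤ hW.kern := Subgroup.normalClosure_le_normal (by
    intro z hz
    rw [Set.mem_singleton_iff] at hz
    rw [hz]; exact hyK)
  have h2k' : ((2 : ℕ) : k) ≠ 0 := by exact_mod_cast h2k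
  have hfr : ∀ U ∈ W, ∃ A : Subgroup H, (∀ n ∈ N, n * n ∈ A) ∧
      (∀ a ∈ A, ∀ w ∈ U, w ≠ 0 → a • w = w → a ∈ trv H U) := by
    intro U hU
    have hL := locData h2k' hW hirr hmax N hN hU
    obtain ⟨M, hMP, hMJ, hMc, hMpow, _⟩ := hL.exists_frat
    refine ⟨(M.comap (loc U)).map (MulAction.stabilizer H U).subtype, ?_, ?_⟩
    · intro n hn
      have hst : n ∈ MulAction.stabilizer H U := hNK hn U hU
      refine Subgroup.mem_map.2 ⟨⟨n, hst⟩ * ⟨n, hst⟩, ?_, rfl⟩
      rw [Subgroup.mem_comap, map_mul, ← sq]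
      exact hMpow _ ((mem_img _ U _).2 ⟨⟨n, hst⟩, hn, rfl⟩)
    · intro a ha w hw hw0 haw
      obtain ⟨a', ha', rfl⟩ := Subgroup.mem_map.1 ha
      rw [Subgroup.mem_comap] at ha'
      have h1 := hL.fpf M hMP hMc hMJ _ ha' ⟨w, hw⟩ (fun h => hw0 (congrArg Subtype.val h))
        (Subtype.ext haw)
      intro w' hw'
      have h2 := loc_apply U a' ⟨w', hw'⟩
      rw [h1] at h2
      exact h2.symm
  choose! A hAsq hAfpf using hfr
  have hT : TwoData N W A :=
    { pgrp := hN
      pres := fun U hU n hn => hNK hn U hU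
      sq := hAsq
      fpf := hAfpf
      two := by
        intro v hv
        rw [← two_smul k v] at hv
        exact (smul_eq_zero.1 hv).resolve_left h2k
      nz := hW.nz }
  -- the central signs
  let Z : Subgroup H :=
    { carrier := {n | n ∈ N ∧ ∀ U ∈ W, PM U n}
      one_mem' := ⟨N.one_mem, fun U _ => Or.inl (trv H U).one_mem⟩
      mul_mem' := fun {a b} ha hb => ⟨N.mul_mem ha.1 hb.1, fun U hU => (ha.2 U hU).mul (hb.2 U hU)⟩
      inv_mem' := fun {a} ha => ⟨N.inv_mem ha.1, fun U hU => (ha.2 U hU).inv⟩ }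
  have hZn : Z.Normal := by
    refine ⟨fun n hn h => ⟨hNn.conj_mem n hn.1 h, fun U hU => ?_⟩⟩
    have h1 := (hn.2 (h⁻¹ • U) (hW.inv h⁻¹ U hU)).conj h
    rwa [smul_inv_smul] at h1
  have hUne : ∀ U ∈ W, ∃ w ∈ U, w ≠ -w := by
    intro U hU
    obtain ⟨w, hw, hw0⟩ := hW.exists_ne_zero hU
    exact ⟨w, hw, hT.ne_neg hw0⟩
  have hZc : ∀ a ∈ Z, ∀ b ∈ Z, a * b = b * a := by
    intro a ha b hb
    have h1 : (b * a)⁻¹ * (a * b) = 1 := by
      apply hW.eq_one hirr
      intro U hU w hw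
      have h2 : (a * b) • w = (b * a) • w := by
        rw [mul_smul, mul_smul]
        rcases ha.2 U hU with h | h <;> rcases hb.2 U hU with h' | h'
        · rw [h' w hw, h w hw, h' w hw]
        · rw [h' w hw, smul_neg, h w hw, h' w hw]
        · rw [h' w hw, h w hw, smul_neg, h' w hw]
        · rw [h' w hw, smul_neg, h w hw, smul_neg, h' w hw]
      rw [mul_smul, h2, inv_smul_smul]
    exact (inv_mul_eq_one.1 h1).symm
  let lam : Z →* ℂˣ :=
    { toFun := fun z => ∏ U ∈ W, sgu U (z : H)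
      map_one' := by
        apply Finset.prod_eq_one
        intro U _
        unfold sgu
        rw [if_pos]
        exact (trv H U).one_mem
      map_mul' := by
        intro a b
        rw [← Finset.prod_mul_distrib]
        apply Finset.prod_congr rfl
        intro U hU
        exact sgu_mul (a.2.2 U hU) (b.2.2 U hU) (hUne U hU) }
  have hlam : ∀ z : Z, lam z = ∏ U ∈ W, sgu U (z : H) := fun z => rfl
  have hinv : ∀ (h : H) (z z' : Z), (z' : H) = h * z * h⁻¹ → lam z' = lam z := by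
    intro h z z' hz
    rw [hlam, hlam]
    apply Finset.prod_nbij' (fun U => h⁻¹ • U) (fun U => h • U)
    · intro U hU; exact hW.inv h⁻¹ U hU
    · intro U hU; exact hW.inv h U hU
    · intro U _; exact smul_inv_smul h U
    · intro U _; exact inv_smul_smul h U
    · intro U _
      unfold sgu
      have h1 : (z' : H) ∈ trv H U ↔ (z : H) ∈ trv H (h⁻¹ • U) := by
        rw [hz, ← mem_trv_conj (U := h⁻¹ • U) h (z : H), smul_inv_smul]
      by_cases h2 : (z' : H) ∈ trv H U
      · rw [if_pos h2, if_pos (h1.1 h2)]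
      · rw [if_neg h2, if_neg (fun h3 => h2 (h1.2 h3))]
  -- apply the greedy choice
  obtain ⟨v, hvU, hv0, hv⟩ := hT.lemmaA W (Finset.Subset.refl W) N
    {a | ∃ h : H, a = h * x * h⁻¹} le_rfl (by
      rintro a ⟨h, rfl⟩
      exact hNn.conj_mem x hxN h) (by
      rintro a ⟨h, rfl⟩ b hb hpm
      have haN : h * x * h⁻¹ ∈ N := hNn.conj_mem x hxN h
      have hzN : (h * x * h⁻¹)⁻¹ * b⁻¹ * (h * x * h⁻¹) * b ∈ N :=
        N.mul_mem (N.mul_mem (N.mul_mem (N.inv_mem haN) (N.inv_mem hb)) haN) hb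
      let z : Z := ⟨(h * x * h⁻¹)⁻¹ * b⁻¹ * (h * x * h⁻¹) * b, hzN, hpm⟩
      let z' : Z := ⟨h⁻¹ * z * h⁻¹⁻¹, hZn.conj_mem z z.2 h⁻¹⟩
      have h1 : lam z' = 1 := by
        apply hβ Z hZn hZc lam hinv (h⁻¹ * b * h) z'
        change h⁻¹ * ((h * x * h⁻¹)⁻¹ * b⁻¹ * (h * x * h⁻¹) * b) * h⁻¹⁻¹
          = x⁻¹ * (h⁻¹ * b * h)⁻¹ * x * (h⁻¹ * b * h)
        group
      have h2 : lam z = 1 := by
        rw [← h1]
        exact (hinv h⁻¹ z z' rfl).symm
      rw [hlam] at h2
      have h3 := congrArg (fun c : ℂˣ => (c : ℂ)) h2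
      simp only [Units.coe_prod, sgu_coe, Units.val_one] at h3
      exact_mod_cast h3) (by
      rintro a ⟨h, rfl⟩
      by_contra hcon
      push Not at hcon
      apply hx1
      exact conj_eq_one_iff.1 (hW.eq_one hirr hcon))
  obtain ⟨h, hh⟩ := hα (∑ U ∈ W, v U)
  have hgN : h * x * h⁻¹ ∈ N := hNn.conj_mem x hxN h
  have h1 := hW.fix_comp (hNK hgN) v hvU hh
  obtain ⟨U, hU, hne⟩ := hv (h * x * h⁻¹) ⟨h, rfl⟩
  exact hne (h1 U hU)

end Pool.Agent.H56.INW
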