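import Mathlib

/-!
# Finite `r`-groups: a subgroup generated by `r`-th powers and commutators with cyclic centre
-/

namespace Pool.Agent.H56.INW

open Subgroup

variable {P : Type*} [Group P] [Finite P] {r : ℕ} [hr : Fact r.Prime]

/-- An element of order `r` modulo a normal subgroup that is central modulo it. -/
theorem exists_central_mod (hP : IsPGroup r P) (B₁ B₂ : Subgroup P) [B₁.Normal] [hB₂ : B₂.Normal]
    (hle : B₁ ≤ B₂) (hne : B₁ ≠ B₂) :
    ∃ t ∈ B₂, t ∉ B₁ ∧ (∀ g : P, t⁻¹ * (g⁻¹ * t * g) ∈ B₁) ∧ t ^ r ∈ B₁ := by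
  classical
  let π := QuotientGroup.mk' B₁
  have hπ : Function.Surjective π := QuotientGroup.mk'_surjective B₁
  let B : Subgroup (P ⧸ B₁) := B₂.map π
  have hBn : B.Normal := hB₂.map π hπ
  have hQ : IsPGroup r (P ⧸ B₁) := hP.to_quotient B₁
  have hBP : IsPGroup r B := hQ.to_subgroup B
  have hnt : Nontrivial B := by
    obtain ⟨b, hb, hb'⟩ : ∃ b ∈ B₂, b ∉ B₁ := by
      by_contra hcon
      push Not at hcon
      exact hne (le_antisymm hle hcon)
    refine ⟨⟨⟨π b, Subgroup.mem_map_of_mem π hb⟩, 1, ?_⟩⟩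
    intro h
    have h1 : π b = 1 := congrArg Subtype.val h
    exact hb' ((QuotientGroup.eq_one_iff b).1 h1)
  obtain ⟨n, hn, hcard⟩ := (hBP.nontrivial_iff_card).1 hnt
  have hdvd : r ∣ Nat.card B := by
    rw [hcard]; exact dvd_pow_self r hn.ne'
  obtain ⟨b, hb, hb1⟩ := (hQ.of_equiv ConjAct.toConjAct).exists_fixed_point_of_prime_dvd_card_of_fixed_point
    B hdvd (a := 1) (by
      intro g
      exact smul_one g)
  -- a central element
  have hbc : ∀ q : P ⧸ B₁, q * (b : P ⧸ B₁) * q⁻¹ = b := by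
    intro q
    have := hb (ConjAct.toConjAct q)
    have h2 := congrArg Subtype.val this
    rw [ConjAct.Subgroup.val_conj_smul] at h2
    simpa [ConjAct.smul_def] using h2
  have hb1' : (b : P ⧸ B₁) ≠ 1 := by
    intro h
    exact hb1 (Subtype.ext h.symm)
  obtain ⟨k, hk⟩ := (IsPGroup.iff_orderOf.1 hQ) (b : P ⧸ B₁)
  have hk0 : k ≠ 0 := by
    rintro rfl
    rw [pow_zero, orderOf_eq_one_iff] at hk
    exact hb1' hk
  obtain ⟨j, rfl⟩ := Nat.exists_eq_succ_of_ne_zero hk0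
  set c : P ⧸ B₁ := (b : P ⧸ B₁) ^ r ^ j with hc
  have hcB : c ∈ B := B.pow_mem b.2 _
  have hc1 : c ≠ 1 := by
    intro h
    have := orderOf_dvd_of_pow_eq_one h
    rw [hk, Nat.pow_dvd_pow_iff_le_right hr.out.one_lt] at this
    omega
  have hcr : c ^ r = 1 := by
    rw [hc, ← pow_mul, ← pow_succ, ← Nat.succ_eq_add_one, ← hk, pow_orderOf_eq_one]
  have hcc : ∀ q : P ⧸ B₁, q * c * q⁻¹ = c := by
    intro q
    rw [hc, ← conj_pow, hbc]
  obtain ⟨t, ht, htc⟩ := hcB
  refine ⟨t, ht, ?_, ?_, ?_⟩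
  · intro h
    apply hc1
    rw [← htc]
    exact (QuotientGroup.eq_one_iff t).2 h
  · intro g
    rw [← QuotientGroup.eq_one_iff (N := B₁)]
    have h3 := hcc (π g)⁻¹
    rw [← htc] at h3
    have h4 : π (t⁻¹ * (g⁻¹ * t * g)) = 1 := by
      rw [map_mul, map_mul, map_mul, map_inv, map_inv]
      rw [inv_inv] at h3
      rw [h3, inv_mul_cancel]
    exact h4
  · rw [← QuotientGroup.eq_one_iff (N := B₁)]
    have h4 : π (t ^ r) = 1 := by
      rw [map_pow, htc, hcr]
    exact h4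

end Pool.Agent.H56.INW
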