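import Pool.Agent.H56.INW.Frat
import Pool.Agent.H56.INW.Rank

/-!
# The subgroup generated by `r`-th powers and commutators, and its action
-/

namespace Pool.Agent.H56.INW

open Subgroup

/-- The subgroup generated by the `r`-th powers and the commutators. -/
def phi (r : ℕ) (G : Type*) [Group G] : Subgroup G :=
  closure {x | (∃ g : G, x = g ^ r) ∨ (∃ g h : G, x = g⁻¹ * h⁻¹ * g * h)}

theorem pow_mem_phi (r : ℕ) {G : Type*} [Group G] (g : G) : g ^ r ∈ phi r G :=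
  subset_closure (Or.inl ⟨g, rfl⟩)

theorem comm_mem_phi (r : ℕ) {G : Type*} [Group G] (g h : G) : g⁻¹ * h⁻¹ * g * h ∈ phi r G :=
  subset_closure (Or.inr ⟨g, h, rfl⟩)

theorem map_phi_le (r : ℕ) {G : Type*} [Group G] (f : G →* G) : (phi r G).map f ≤ phi r G := by
  unfold phi
  rw [MonoidHom.map_closure, closure_le]
  rintro _ ⟨x, hx, rfl⟩
  rcases hx with ⟨g, rfl⟩ | ⟨g, h, rfl⟩
  · rw [map_pow]
    exact pow_mem_phi r (f g)
  · rw [map_mul, map_mul, map_mul, map_inv, map_inv]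
    exact comm_mem_phi r (f g) (f h)

instance phi_normal (r : ℕ) (G : Type*) [Group G] : (phi r G).Normal := by
  refine ⟨fun n hn g => ?_⟩
  exact map_phi_le r (MulAut.conj g).toMonoidHom (Subgroup.mem_map_of_mem _ hn)

theorem phi_star {r : ℕ} {G : Type*} [Group G] (t : G)
    (ht : ∀ g : G, t⁻¹ * (g⁻¹ * t * g) ∈ center G ∧ (t⁻¹ * (g⁻¹ * t * g)) ^ r = 1) :
    ∀ m ∈ phi r G, t * m = m * t := by
  have hle : phi r G ≤ centralizer {t} := by
    unfold phi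
    rw [closure_le]
    rintro x (⟨g, rfl⟩ | ⟨g, h, rfl⟩)
    · rw [SetLike.mem_coe, mem_centralizer_iff]
      intro y hy
      rw [Set.mem_singleton_iff] at hy
      rw [hy]
      set c := t⁻¹ * (g⁻¹ * t * g) with hc
      have hcc := (ht g).1
      rw [← hc] at hcc
      have h1 : ∀ n : ℕ, (g ^ n)⁻¹ * t * g ^ n = t * c ^ n := by
        intro n
        induction n with
        | zero => simp
        | succ n ih =>
          have h2 : g⁻¹ * c ^ n * g = c ^ n := by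
            have := (mem_center_iff.1 ((center G).pow_mem hcc n)) g⁻¹
            rw [this]; group
          calc (g ^ (n + 1))⁻¹ * t * g ^ (n + 1) = g⁻¹ * ((g ^ n)⁻¹ * t * g ^ n) * g := by
                rw [pow_succ]; group
            _ = (g⁻¹ * t * g) * (g⁻¹ * c ^ n * g) := by rw [ih]; group
            _ = (t * c) * c ^ n := by rw [h2, hc]; group
            _ = t * c ^ (n + 1) := by rw [pow_succ']; group
      have h3 := h1 r
      rw [(ht g).2, mul_one] at h3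
      calc t * g ^ r = g ^ r * ((g ^ r)⁻¹ * t * g ^ r) := by group
        _ = g ^ r * t := by rw [h3]
    · rw [SetLike.mem_coe, mem_centralizer_iff]
      intro y hy
      rw [Set.mem_singleton_iff] at hy
      rw [hy]
      -- t ^ (a b) = t ^ (b a)
      have key : ∀ a b : G, (a * b)⁻¹ * t * (a * b)
          = t * (t⁻¹ * (a⁻¹ * t * a)) * (t⁻¹ * (b⁻¹ * t * b)) := by
        intro a b
        have h2 : b⁻¹ * (t⁻¹ * (a⁻¹ * t * a)) * b = t⁻¹ * (a⁻¹ * t * a) := by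
          have := (mem_center_iff.1 (ht a).1) b⁻¹
          rw [this]; group
        have h3 := (mem_center_iff.1 (ht a).1) (t⁻¹ * (b⁻¹ * t * b))
        calc (a * b)⁻¹ * t * (a * b) = (b⁻¹ * t * b) * (b⁻¹ * (t⁻¹ * (a⁻¹ * t * a)) * b) := by group
          _ = t * ((t⁻¹ * (b⁻¹ * t * b)) * (t⁻¹ * (a⁻¹ * t * a))) := by rw [h2]; group
          _ = _ := by rw [h3]; group
      have h4 : (g⁻¹ * h⁻¹)⁻¹ * t * (g⁻¹ * h⁻¹) = (h⁻¹ * g⁻¹)⁻¹ * t * (h⁻¹ * g⁻¹) := by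
        rw [key g⁻¹ h⁻¹, key h⁻¹ g⁻¹]
        have h3 := (mem_center_iff.1 (ht g⁻¹).1) (t⁻¹ * (h⁻¹⁻¹ * t * h⁻¹))
        rw [mul_assoc t, mul_assoc t, h3]
      calc t * (g⁻¹ * h⁻¹ * g * h)
          = (g⁻¹ * h⁻¹) * ((g⁻¹ * h⁻¹)⁻¹ * t * (g⁻¹ * h⁻¹)) * g * h := by group
        _ = (g⁻¹ * h⁻¹) * ((h⁻¹ * g⁻¹)⁻¹ * t * (h⁻¹ * g⁻¹)) * g * h := by rw [h4]
        _ = (g⁻¹ * h⁻¹ * g * h) * t := by group
  intro m hm
  have := (mem_centralizer_iff.1 (hle hm)) t (Set.mem_singleton t)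
  exact this

/-- The properties of the local group `P` (a normal `r`-subgroup of `J`, acting on `U`). -/
structure LocData (r : ℕ) {G : Type*} (U : Type*) [Group G] [AddCommGroup U] [DistribMulAction G U]
    (P J : Subgroup G) : Prop where
  pgrp : IsPGroup r P
  le : P ≤ J
  norm : ∀ j ∈ J, ∀ p ∈ P, j * p * j⁻¹ ∈ P
  fpf : ∀ B ≤ P, (∀ a ∈ B, ∀ b ∈ B, a * b = b * a) → (∀ j ∈ J, ∀ b ∈ B, j * b * j⁻¹ ∈ B) →
    ∀ b ∈ B, ∀ u : U, u ≠ 0 → b • u = u → b = 1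
  tors : ∀ u : U, u ≠ 0 → r • u ≠ 0
  nt : ∃ u : U, u ≠ 0

namespace LocData

variable {r : ℕ} [hr : Fact r.Prime] {G U : Type*} [Group G] [AddCommGroup U]
  [DistribMulAction G U] {P J : Subgroup G}

theorem cyc (hL : LocData r U P J) (B : Subgroup G) (hB : B ≤ P)
    (hBc : ∀ a ∈ B, ∀ b ∈ B, a * b = b * a) (hBn : ∀ j ∈ J, ∀ b ∈ B, j * b * j⁻¹ ∈ B)
    {z t : G} (hz : z ∈ B) (ht : t ∈ B) (hz1 : z ≠ 1) (hzr : z ^ r = 1) (htr : t ^ r = 1) :
    t ∈ zpowers z := by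
  obtain ⟨u, hu⟩ := hL.nt
  obtain ⟨j, hj⟩ := rank_two z t (hBc z hz t ht) hzr (by
    intro w hw
    by_contra hw0
    exact hz1 (hL.fpf B hB hBc hBn z hz w hw0 hw)) (hL.tors u hu)
  have hmem : t * z ^ j ∈ B := B.mul_mem ht (B.pow_mem hz j)
  have hpow : (t * z ^ j) ^ r = 1 := by
    rw [(show Commute t (z ^ j) from hBc t ht _ (B.pow_mem hz j)).mul_pow, htr, ← pow_mul, mul_comm,
      pow_mul, hzr, one_pow, one_mul]
  have h1 := hL.fpf B hB hBc hBn _ hmem _ hj (smul_orb hr.out.pos _ hpow u)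
  rw [Subgroup.mem_zpowers_iff]
  refine ⟨-(j : ℤ), ?_⟩
  rw [zpow_neg, zpow_natCast]
  exact (eq_inv_of_mul_eq_one_left h1).symm

theorem exists_frat [Finite G] (hL : LocData r U P J) :
    ∃ M : Subgroup G, M ≤ P ∧ (∀ j ∈ J, ∀ b ∈ M, j * b * j⁻¹ ∈ M) ∧
      (∀ a ∈ M, ∀ b ∈ M, a * b = b * a) ∧ (∀ g ∈ P, g ^ r ∈ M) ∧
      (∀ g ∈ P, ∀ h ∈ P, g⁻¹ * h⁻¹ * g * h ∈ M) := by
  let M : Subgroup G := (phi r P).map P.subtype
  have hMP : M ≤ P := map_subtype_le _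
  have hMJ : ∀ j ∈ J, ∀ b ∈ M, j * b * j⁻¹ ∈ M := by
    intro j hj b hb
    obtain ⟨b', hb', rfl⟩ := Subgroup.mem_map.1 hb
    let f : P →* P :=
      { toFun := fun p => ⟨j * p * j⁻¹, hL.norm j hj p p.2⟩
        map_one' := Subtype.ext (by simp)
        map_mul' := fun a b => Subtype.ext (by simp [mul_assoc]) }
    have := map_phi_le r f (Subgroup.mem_map_of_mem f hb')
    exact Subgroup.mem_map.2 ⟨f b', this, rfl⟩
  let B : Subgroup G := M ⊓ centralizer (M : Set G)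
  have hBM : B ≤ M := inf_le_left
  have hBc : ∀ a ∈ B, ∀ b ∈ B, a * b = b * a := by
    intro a ha b hb
    exact ((mem_centralizer_iff.1 (Subgroup.mem_inf.1 hb).2) a (hBM ha))
  have hBn : ∀ j ∈ J, ∀ b ∈ B, j * b * j⁻¹ ∈ B := by
    intro j hj b hb
    refine Subgroup.mem_inf.2 ⟨hMJ j hj b (hBM hb), ?_⟩
    rw [mem_centralizer_iff]
    intro m hm
    have h1 := (mem_centralizer_iff.1 (Subgroup.mem_inf.1 hb).2) (j⁻¹ * m * j⁻¹⁻¹)
      (hMJ j⁻¹ (J.inv_mem hj) m hm)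
    calc m * (j * b * j⁻¹) = j * ((j⁻¹ * m * j⁻¹⁻¹) * b) * j⁻¹ := by group
      _ = (j * b * j⁻¹) * m := by rw [h1]; group
  have hcomm := comm_of_star hL.pgrp (phi r P) phi_star (by
    intro z hz t ht hzc htc hz1 hzr htr
    have hmem : ∀ y : P, y ∈ phi r P → (∀ m ∈ phi r P, y * m = m * y) → (y : G) ∈ B := by
      intro y hy hyc
      refine Subgroup.mem_inf.2 ⟨Subgroup.mem_map.2 ⟨y, hy, rfl⟩, ?_⟩
      rw [mem_centralizer_iff]
      intro m hm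
      obtain ⟨m', hm', rfl⟩ := Subgroup.mem_map.1 hm
      have := congrArg Subtype.val (hyc m' hm')
      exact this.symm
    have h1 := hL.cyc B (hBM.trans hMP) hBc hBn (hmem z hz hzc) (hmem t ht htc)
      (fun h => hz1 (Subtype.ext h)) (by
        have := congrArg Subtype.val hzr
        exact this) (by
        have := congrArg Subtype.val htr
        exact this)
    obtain ⟨i, hi⟩ := Subgroup.mem_zpowers_iff.1 h1
    refine Subgroup.mem_zpowers_iff.2 ⟨i, Subtype.ext ?_⟩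
    rw [← hi]
    exact Subgroup.coe_zpow P z i)
  refine ⟨M, hMP, hMJ, ?_, ?_, ?_⟩
  · intro a ha b hb
    obtain ⟨a', ha', rfl⟩ := Subgroup.mem_map.1 ha
    obtain ⟨b', hb', rfl⟩ := Subgroup.mem_map.1 hb
    exact congrArg Subtype.val (hcomm a' ha' b' hb')
  · intro g hg
    exact Subgroup.mem_map.2 ⟨⟨g, hg⟩ ^ r, pow_mem_phi r _, rfl⟩
  · intro g hg h hh
    exact Subgroup.mem_map.2 ⟨⟨g, hg⟩⁻¹ * ⟨h, hh⟩⁻¹ * ⟨g, hg⟩ * ⟨h, hh⟩, comm_mem_phi r _ _, rfl⟩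

end LocData

end Pool.Agent.H56.INW
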