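import Pool.Agent.H56.INW.ModThm
import Pool.Agent.H56.INW.Dual

/-!
# The reduction to the module theorem
-/

namespace Pool.Agent.H56.INW

universe u

theorem step {G : Type*} [Group G] [Finite G] {p : ℕ} [hp : Fact p.Prime] (V : Subgroup G)
    [hV : V.Normal] (hc : ∀ a b : V, a * b = b * a) (hpw : ∀ v : V, v ^ p = 1) (hne : V ≠ ⊥)
    (hmin : ∀ A : Subgroup G, A.Normal → A ≤ V → A = ⊥ ∨ A = V) {x : G} (hx : Nonvanishing x)
    (Nb : Subgroup (G ⧸ V)) [hNb : Nb.Normal] (hNn : Group.IsNilpotent Nb)
    (hxN : (x : G ⧸ V) ∈ Nb) : ∀ v ∈ V, x * v = v * x := by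
  classical
  have hpX : ∀ χ : Additive (V →* ℂˣ), p • χ = 0 := by
    intro χ
    apply Additive.toMul.injective
    change (Additive.toMul χ) ^ p = 1
    ext v
    rw [MonoidHom.pow_apply, ← map_pow, hpw v, map_one, MonoidHom.one_apply]
  let mX : Module (ZMod p) (Additive (V →* ℂˣ)) := 
    AddCommGroup.zmodModule (n := p) (G := Additive (V →* ℂˣ)) hpX
  have hcard : Nat.card (V →* ℂˣ) = Nat.card V := dual_card hc
  have hV1 : 1 < Nat.card V := by
    by_contra h
    exact hne (Subgroup.eq_bot_of_card_le V (not_lt.1 h))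
  have hfin : Finite (V →* ℂˣ) := Nat.finite_of_card_ne_zero (by rw [hcard]; omega)
  have hfinX : Finite (Additive (V →* ℂˣ)) := hfin
  have hnt : Nontrivial (Additive (V →* ℂˣ)) := by
    have : Nontrivial (V →* ℂˣ) := Finite.one_lt_card_iff_nontrivial.1 (by rw [hcard]; exact hV1)
    exact this
  have hfinE : Finite (Additive (V →* ℂˣ) ≃ₗ[ZMod p] Additive (V →* ℂˣ)) :=
    Finite.of_injective (fun e => (e : Additive (V →* ℂˣ) → Additive (V →* ℂˣ)))
      DFunLike.coe_injective
  let f := cact V p
  let H := f.range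
  let fr : G →* H := f.rangeRestrict
  have hfrs : Function.Surjective fr := f.rangeRestrict_surjective
  have hsm : ∀ (g : G) (χ : Additive (V →* ℂˣ)) (v : V),
      Additive.toMul (fr g • χ) v = Additive.toMul χ (MulAut.conjNormal g⁻¹ v) :=
    fun _ _ _ => rfl
  have hVk : V ≤ fr.ker := by
    intro u hu
    rw [MonoidHom.mem_ker]
    apply Subtype.ext
    apply LinearEquiv.ext
    intro χ
    apply Additive.toMul.injective
    ext v
    have h1 := hsm u χ v
    have h2 : MulAut.conjNormal u⁻¹ v = v := by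
      apply Subtype.ext
      have := congrArg Subtype.val (hc ⟨u, hu⟩ v)
      simp only [Subgroup.coe_mul] at this
      simp only [MulAut.conjNormal_apply, inv_inv]
      rw [mul_assoc, ← this, inv_mul_cancel_left]
    rw [h2] at h1
    exact congrArg Units.val h1
  let fb : G ⧸ V →* H := QuotientGroup.lift V fr hVk
  have hfb : ∀ g : G, fb (g : G ⧸ V) = fr g := fun g => QuotientGroup.lift_mk' V hVk g
  have hfbs : Function.Surjective fb := by
    intro h
    obtain ⟨g, rfl⟩ := hfrs h
    exact ⟨(g : G ⧸ V), hfb g⟩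
  let L : Subgroup H := Nb.map fb
  have hL : L.Normal := hNb.map fb hfbs
  have hLn : Group.IsNilpotent L :=
    Group.nilpotent_of_surjective (fb.subgroupMap Nb) (fb.subgroupMap_surjective Nb)
  have hxL : fr x ∈ L := ⟨(x : G ⧸ V), hxN, hfb x⟩
  have hirr : Irr (ZMod p) (Additive (V →* ℂˣ)) H := by
    intro Y hY
    let A : Subgroup G :=
      { carrier := {a | ∃ h : a ∈ V, ∀ χ ∈ Y, Additive.toMul χ ⟨a, h⟩ = 1}
        mul_mem' := by
          rintro a b ⟨ha, ha'⟩ ⟨hb, hb'⟩
          refine ⟨V.mul_mem ha hb, fun χ hχ => ?_⟩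
          have : (⟨a * b, V.mul_mem ha hb⟩ : V) = ⟨a, ha⟩ * ⟨b, hb⟩ := rfl
          rw [this, map_mul, ha' χ hχ, hb' χ hχ, one_mul]
        one_mem' := ⟨V.one_mem, fun χ hχ => map_one _⟩
        inv_mem' := by
          rintro a ⟨ha, ha'⟩
          refine ⟨V.inv_mem ha, fun χ hχ => ?_⟩
          have : (⟨a⁻¹, V.inv_mem ha⟩ : V) = (⟨a, ha⟩)⁻¹ := rfl
          rw [this, map_inv, ha' χ hχ, inv_one] }
    have hAn : A.Normal := by
      constructor
      rintro a ⟨ha, ha'⟩ g
      refine ⟨hV.conj_mem a ha g, fun χ hχ => ?_⟩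
      have h1 := ha' _ (hY (fr g⁻¹) χ hχ)
      rw [hsm] at h1
      rw [← h1]
      congr 1
      apply Subtype.ext
      simp
    have hAV : A ≤ V := fun a ha => ha.1
    rcases hmin A hAn hAV with h | h
    · right
      have h1 := dual_top hc (AddSubgroup.toSubgroup Y.toAddSubgroup) (by
        intro a ha
        have : (a : G) ∈ A := ⟨a.2, fun χ hχ => ha (Additive.toMul χ) hχ⟩
        rw [h, Subgroup.mem_bot] at this
        exact Subtype.ext this)
      rw [Submodule.eq_top_iff']
      intro χ
      have h2 : Additive.toMul χ ∈ (⊤ : Subgroup (V →* ℂˣ)) := trivial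
      rw [← h1] at h2
      exact h2
    · left
      rw [Submodule.eq_bot_iff]
      intro χ hχ
      apply Additive.toMul.injective
      ext v
      have : (v : G) ∈ A := by rw [h]; exact v.2
      have h1 := this.2 χ hχ
      exact congrArg Units.val h1
  have hfx : fr x = 1 := by
    have hxr : Nonvanishing (fr x) := hx.map fr hfrs
    refine module_theorem (p := p) (V := Additive (V →* ℂˣ)) hirr L hLn (fr x) hxL ?_ ?_
    · intro χ
      obtain ⟨g, hg⟩ := alpha hx V hc (Additive.toMul χ)
      refine ⟨fr g, ?_⟩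
      apply Additive.toMul.injective
      rw [← map_inv, ← map_mul, ← map_mul]
      ext v
      rw [hsm]
      congr 1
      refine (hg (MulAut.conjNormal (g * x * g⁻¹)⁻¹ v) v ?_).symm
      simp [mul_assoc]
    · intro Z hZ _ lam hinv y z hz
      exact beta hxr Z lam hinv y z hz
  intro v hv
  have h1 : (MulAut.conjNormal x⁻¹ (⟨v, hv⟩ : V)) = ⟨v, hv⟩ := by
    apply dual_sep hc
    intro χ
    have h2 := hsm x (Additive.ofMul χ) ⟨v, hv⟩
    rw [hfx, one_smul] at h2
    exact h2.symm
  have h2 := congrArg Subtype.val h1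
  simp only [MulAut.conjNormal_apply, inv_inv] at h2
  calc x * v = x * (x⁻¹ * v * x) := by rw [h2]
    _ = v * x := by group

/-- The elements of a finite group centralised modulo. -/
theorem nilp_of_central {G : Type*} [Group G] (V : Subgroup G) [hV : V.Normal]
    (Nb : Subgroup (G ⧸ V)) (hNn : Group.IsNilpotent Nb) :
    Group.IsNilpotent (Nb.comap (QuotientGroup.mk' V) ⊓ Subgroup.centralizer (V : Set G) :
      Subgroup G) := by
  let N : Subgroup G := Nb.comap (QuotientGroup.mk' V) ⊓ Subgroup.centralizer (V : Set G)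
  let f : N →* Nb :=
    { toFun := fun n => ⟨QuotientGroup.mk' V (n : G), n.2.1⟩
      map_one' := Subtype.ext (map_one _)
      map_mul' := fun a b => Subtype.ext (map_mul (QuotientGroup.mk' V) (a : G) b) }
  have hf : f.ker ≤ Subgroup.center N := by
    intro n hn
    rw [MonoidHom.mem_ker] at hn
    have h1 : QuotientGroup.mk' V (n : G) = 1 := congrArg Subtype.val hn
    have h2 : (n : G) ∈ V := (QuotientGroup.eq_one_iff (n : G)).1 h1
    rw [Subgroup.mem_center_iff]
    intro m
    apply Subtype.ext
    exact ((Subgroup.mem_centralizer_iff.1 m.2.2) n h2).symm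
  exact Subgroup.isNilpotent_of_ker_le_center f hf

theorem main_aux (n : ℕ) : ∀ (G : Type u) [Group G] [Finite G] [Group.IsSolvable G],
    Nat.card G ≤ n → ∀ x : G, Nonvanishing x →
    ∃ N : Subgroup G, N.Normal ∧ Group.IsNilpotent N ∧ x ∈ N := by
  induction n with
  | zero =>
    intro G _ _ _ hc
    have : 0 < Nat.card G := Nat.card_pos
    omega
  | succ n ih =>
    intro G _ _ hsol hc x hx
    rcases subsingleton_or_nontrivial G with hs | hs
    · refine ⟨⊥, inferInstance, inferInstance, ?_⟩
      rw [Subgroup.mem_bot]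
      exact Subsingleton.elim _ _
    · -- a minimal normal subgroup
      have hex : ∃ V : Subgroup G, Minimal (fun V : Subgroup G => V.Normal ∧ V ≠ ⊥) V := by
        obtain ⟨V, hV⟩ := (Set.toFinite {V : Subgroup G | V.Normal ∧ V ≠ ⊥}).exists_minimal
          ⟨⊤, inferInstance, bot_ne_top.symm⟩
        exact ⟨V, hV⟩
      obtain ⟨V, ⟨hVn, hVne⟩, hVmin⟩ := hex
      have hmin : ∀ A : Subgroup G, A.Normal → A ≤ V → A = ⊥ ∨ A = V := by
        intro A hA hAV
        by_cases hA0 : A = ⊥
        · exact Or.inl hA0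
        · exact Or.inr (le_antisymm hAV (hVmin ⟨hA, hA0⟩ hAV))
      -- it is commutative
      have hcomm : ∀ a b : V, a * b = b * a := by
        have h1 : (⁅V, V⁆ : Subgroup G).Normal := inferInstance
        have h0 := Group.IsSolvable.commutator_lt_of_ne_bot hVne
        rcases hmin _ h1 h0.le with h | h
        · intro a b
          apply Subtype.ext
          have h2 := Subgroup.commutator_mem_commutator a.2 b.2
          rw [h, Subgroup.mem_bot, commutatorElement_eq_one_iff_mul_comm] at h2
          exact h2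
        · exact absurd h h0.ne
      -- it is elementary abelian
      have hV1 : Nat.card V ≠ 1 := by
        intro h
        exact hVne (Subgroup.card_eq_one.1 h)
      obtain ⟨p, hpp, hpd⟩ := Nat.exists_prime_and_dvd hV1
      have hpF : Fact p.Prime := ⟨hpp⟩
      obtain ⟨v₀, hv₀⟩ := exists_prime_orderOf_dvd_card' p hpd
      have hpw : ∀ v : V, v ^ p = 1 := by
        let A : Subgroup G :=
          { carrier := {a | ∃ h : a ∈ V, (⟨a, h⟩ : V) ^ p = 1}
            mul_mem' := by
              rintro a b ⟨ha, ha'⟩ ⟨hb, hb'⟩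
              refine ⟨V.mul_mem ha hb, ?_⟩
              have : (⟨a * b, V.mul_mem ha hb⟩ : V) = ⟨a, ha⟩ * ⟨b, hb⟩ := rfl
              rw [this, (show Commute (⟨a, ha⟩ : V) ⟨b, hb⟩ from hcomm _ _).mul_pow, ha', hb',
                one_mul]
            one_mem' := ⟨V.one_mem, one_pow _⟩
            inv_mem' := by
              rintro a ⟨ha, ha'⟩
              refine ⟨V.inv_mem ha, ?_⟩
              have : (⟨a⁻¹, V.inv_mem ha⟩ : V) = (⟨a, ha⟩)⁻¹ := rfl
              rw [this, inv_pow, ha', inv_one] }
        have hAn : A.Normal := by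
          constructor
          rintro a ⟨ha, ha'⟩ g
          refine ⟨hVn.conj_mem a ha g, ?_⟩
          apply Subtype.ext
          have h2 := congrArg Subtype.val ha'
          simp only [SubmonoidClass.mk_pow, Subgroup.coe_one] at h2 ⊢
          rw [conj_pow, h2, mul_one, mul_inv_cancel]
        rcases hmin A hAn (fun a ha => ha.1) with h | h
        · exfalso
          have : (v₀ : G) ∈ A := ⟨v₀.2, by rw [← hv₀]; exact pow_orderOf_eq_one v₀⟩
          rw [h, Subgroup.mem_bot] at this
          have h2 : v₀ = 1 := Subtype.ext this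
          rw [h2, orderOf_one] at hv₀
          exact hpp.one_lt.ne hv₀
        · intro v
          have : (v : G) ∈ A := by rw [h]; exact v.2
          exact this.2
      -- induction
      have hcard : Nat.card (G ⧸ V) ≤ n := by
        have h1 := Subgroup.card_eq_card_quotient_mul_card_subgroup V
        have h2 : 0 < Nat.card (G ⧸ V) := Nat.card_pos
        have h3 : 0 < Nat.card V := Nat.card_pos
        have h4 : 2 ≤ Nat.card V := by omega
        nlinarith
      obtain ⟨Nb, hNb, hNn, hxN⟩ := ih (G ⧸ V) hcard (QuotientGroup.mk' V x)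
        (hx.map (QuotientGroup.mk' V) (QuotientGroup.mk'_surjective V))
      have hst := step V hcomm hpw hVne hmin hx Nb hNn hxN
      refine ⟨Nb.comap (QuotientGroup.mk' V) ⊓ Subgroup.centralizer (V : Set G), ?_,
        nilp_of_central V Nb hNn, hxN, ?_⟩
      · exact Subgroup.normal_inf_normal _ _
      · change x ∈ Subgroup.centralizer (V : Set G)
        rw [Subgroup.mem_centralizer_iff]
        intro v hv
        exact (hst v hv).symm

/-- **The Isaacs–Navarro–Wolf conjecture.** -/
theorem main_theorem {G : Type u} [Group G] [Finite G] [Group.IsSolvable G] {x : G}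
    (hx : Nonvanishing x) : ∃ N : Subgroup G, N.Normal ∧ Group.IsNilpotent N ∧ x ∈ N :=
  main_aux (Nat.card G) G le_rfl x hx

end Pool.Agent.H56.INW
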