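import Pool.Agent.H56.INW.Sys

/-!
# Refining a system of imprimitivity
-/

namespace Pool.Agent.H56.INW

open scoped Pointwise

variable {k V H : Type*} [Field k] [AddCommGroup V] [Module k V]
  [Group H] [DistribMulAction H V] [SMulCommClass H k V]

theorem IsSys.refine [Finite H] {W : Finset (Submodule k V)} (hW : IsSys H W)
    (hirr : Irr k V H) (hmax : ∀ W' : Finset (Submodule k V), IsSys H W' → W'.card ≤ W.card)
    {U Y : Submodule k V} (hU : U ∈ W) (hYU : Y ≤ U) (hY : Y ≠ ⊥)
    (hind : ∀ (T : Finset (Submodule k V)), (∀ X, X ∈ T ↔ ∃ h : H, h • U = U ∧ h • Y = X) →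
      ∀ f : Submodule k V → V, (∀ X ∈ T, f X ∈ X) → ∑ X ∈ T, f X = 0 → ∀ X ∈ T, f X = 0) :
    Y = U := by
  classical
  have : Fintype H := Fintype.ofFinite H
  let T : Finset (Submodule k V) := (Finset.univ.filter fun h : H => h • U = U).image fun h => h • Y
  have hT : ∀ X, X ∈ T ↔ ∃ h : H, h • U = U ∧ h • Y = X := by
    intro X
    simp only [T, Finset.mem_image, Finset.mem_filter, Finset.mem_univ, true_and]
  let W' : Finset (Submodule k V) := Finset.univ.image fun h : H => h • Y
  have hmem' : ∀ X, X ∈ W' ↔ ∃ h : H, h • Y = X := by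
    intro X
    simp only [W', Finset.mem_image, Finset.mem_univ, true_and]
  have hnz' : ∀ X ∈ W', X ≠ ⊥ := by
    intro X hX h
    obtain ⟨g, rfl⟩ := (hmem' X).1 hX
    apply hY
    rw [smul_eq_iff_eq_inv_smul, Submodule.smul_bot'] at h
    exact h
  have hpi : ∀ X ∈ W', ∃ U' ∈ W, X ≤ U' := by
    intro X hX
    obtain ⟨g, rfl⟩ := (hmem' X).1 hX
    exact ⟨g • U, hW.inv g U hU, smul_mono_right g hYU⟩
  choose! π hπW hπ using hpi
  have hπu : ∀ X ∈ W', ∀ U' ∈ W, (X ≤ U' ↔ π X = U') := by
    intro X hX U' hU'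
    constructor
    · intro h
      obtain ⟨v, hv, hv0⟩ := Submodule.exists_mem_ne_zero_of_ne_bot (hnz' X hX)
      exact hW.eq_of_mem (hπW X hX) hU' (hπ X hX hv) (h hv) hv0
    · intro h
      rw [← h]
      exact hπ X hX
  have hW' : IsSys H W' := by
    refine ⟨⟨(1 : H) • Y, (hmem' _).2 ⟨1, rfl⟩⟩, hnz', ?_, ?_⟩
    · intro h X hX
      obtain ⟨g, rfl⟩ := (hmem' X).1 hX
      exact (hmem' _).2 ⟨h * g, mul_smul h g Y⟩
    · intro f hf hf0 X₀ hX₀
      have h1 : ∑ U' ∈ W, ∑ X ∈ W'.filter (fun X => π X = U'), f X = 0 := by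
        rw [Finset.sum_fiberwise_of_maps_to (g := π) hπW, hf0]
      have h2 := hW.ind (fun U' => ∑ X ∈ W'.filter (fun X => π X = U'), f X) (by
        intro U' hU'
        apply Submodule.sum_mem
        intro X hX
        rw [Finset.mem_filter] at hX
        rw [← hX.2]
        exact hπ X hX.1 (hf X hX.1)) h1 (π X₀) (hπW X₀ hX₀)
      obtain ⟨h, hh⟩ := hW.trans hirr hU (hπW X₀ hX₀)
      have h3 : ∑ X ∈ T, h⁻¹ • f (h • X) = 0 := by
        rw [← Finset.smul_sum]
        have h4 : ∑ X ∈ T, f (h • X) = ∑ X ∈ W'.filter (fun X => π X = π X₀), f X := by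
          apply Finset.sum_nbij' (fun X => h • X) (fun X => h⁻¹ • X)
          · intro X hX
            obtain ⟨g, hg, rfl⟩ := (hT X).1 hX
            rw [Finset.mem_filter]
            have hm : h • g • Y ∈ W' := (hmem' _).2 ⟨h * g, mul_smul h g Y⟩
            refine ⟨hm, ?_⟩
            rw [← hπu _ hm _ (hπW X₀ hX₀), ← hh]
            apply smul_mono_right h
            calc g • Y ≤ g • U := smul_mono_right g hYU
              _ = U := hg
          · intro X hX
            rw [Finset.mem_filter] at hX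
            obtain ⟨g, hg⟩ := (hmem' X).1 hX.1
            rw [hT]
            refine ⟨h⁻¹ * g, ?_, by rw [mul_smul, hg]⟩
            rw [mul_smul, inv_smul_eq_iff, hh, ← hX.2]
            have h5 : X ≤ g • U := by rw [← hg]; exact smul_mono_right g hYU
            exact ((hπu X hX.1 _ (hW.inv g U hU)).1 h5).symm
          · intro X _; exact inv_smul_smul h X
          · intro X _; exact smul_inv_smul h X
          · intro X _; rfl
        rw [h4, h2, smul_zero]
      have h6 := hind T hT (fun X => h⁻¹ • f (h • X)) (by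
        intro X hX
        obtain ⟨g, hg, rfl⟩ := (hT X).1 hX
        have := Submodule.smul_mem_pointwise_smul _ h⁻¹ _
          (hf (h • g • Y) ((hmem' _).2 ⟨h * g, mul_smul h g Y⟩))
        rwa [inv_smul_smul] at this) h3 (h⁻¹ • X₀) (by
          obtain ⟨g, hg⟩ := (hmem' X₀).1 hX₀
          rw [hT]
          refine ⟨h⁻¹ * g, ?_, by rw [mul_smul, hg]⟩
          rw [mul_smul, inv_smul_eq_iff, hh]
          have h5 : X₀ ≤ g • U := by rw [← hg]; exact smul_mono_right g hYU
          exact ((hπu X₀ hX₀ _ (hW.inv g U hU)).1 h5).symm)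
      simp only [smul_inv_smul] at h6
      rwa [smul_eq_zero_iff_eq] at h6
  have hcard := hmax W' hW'
  have himg : W'.image π = W := by
    apply Finset.Subset.antisymm
    · intro U' hU'
      obtain ⟨X, hX, rfl⟩ := Finset.mem_image.1 hU'
      exact hπW X hX
    · intro U' hU'
      obtain ⟨h, hh⟩ := hW.trans hirr hU hU'
      have hm : h • Y ∈ W' := (hmem' _).2 ⟨h, rfl⟩
      refine Finset.mem_image.2 ⟨h • Y, hm, ?_⟩
      rw [← hπu _ hm _ hU', ← hh]
      exact smul_mono_right h hYU
  have hinj : Set.InjOn π W' := by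
    apply Finset.card_image_iff.1
    apply le_antisymm Finset.card_image_le
    rw [himg]; exact hcard
  have hYW' : Y ∈ W' := (hmem' _).2 ⟨1, one_smul H Y⟩
  apply le_antisymm hYU
  intro u hu
  obtain ⟨g, hg, hgs⟩ := hW'.span hirr u
  have h1 : ∑ U' ∈ W, ∑ X ∈ W'.filter (fun X => π X = U'), g X
      = ∑ U' ∈ W, (if U' = U then u else 0) := by
    rw [Finset.sum_fiberwise_of_maps_to (g := π) hπW, hgs,
      Finset.sum_ite_eq' W U (fun _ => u), if_pos hU]
  have h2 := hW.uniq (fun U' => ∑ X ∈ W'.filter (fun X => π X = U'), g X)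
    (fun U' => if U' = U then u else 0) (by
      intro U' hU'
      apply Submodule.sum_mem
      intro X hX
      rw [Finset.mem_filter] at hX
      rw [← hX.2]
      exact hπ X hX.1 (hg X)) (by
      intro U' _
      by_cases h : U' = U
      · simp only [h, if_true]; exact hu
      · simp only [h, if_false]; exact U'.zero_mem) h1 U hU
  rw [if_pos rfl] at h2
  have h3 : W'.filter (fun X => π X = U) = {Y} := by
    ext X
    rw [Finset.mem_filter, Finset.mem_singleton]
    constructor
    · rintro ⟨hX, hXU⟩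
      apply hinj (Finset.mem_coe.2 hX) (Finset.mem_coe.2 hYW')
      rw [hXU]
      exact ((hπu Y hYW' U hU).1 hYU).symm
    · rintro rfl
      exact ⟨hYW', (hπu X hYW' U hU).1 hYU⟩
  rw [h3, Finset.sum_singleton] at h2
  rw [← h2]
  exact hg Y

end Pool.Agent.H56.INW
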