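import Pool.Agent.H56.INW.Defs
import Mathlib.LinearAlgebra.Eigenspace.Pi
import Mathlib.Algebra.DirectSum.LinearMap
import Mathlib.FieldTheory.IsAlgClosed.Basic

/-!
# Representation theoretic facts
-/

namespace Pool.Agent.H56.INW

theorem irr_of {G W : Type*} [Group G] [AddCommGroup W] [Module ℂ W] [Nontrivial W]
    (ρ : Representation ℂ G W)
    (h : ∀ Y : Submodule ℂ W, (∀ g, ∀ v ∈ Y, ρ g v ∈ Y) → Y = ⊥ ∨ Y = ⊤) :
    ρ.IsIrreducible := by
  have : Nontrivial (Subrepresentation ρ) :=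
    ⟨⟨⊥, ⊤, fun e => bot_ne_top (α := Submodule ℂ W) (congrArg Subrepresentation.toSubmodule e)⟩⟩
  exact
    { eq_bot_or_eq_top := fun σ => by
        rcases h σ.toSubmodule (fun g v hv => σ.apply_mem_toSubmodule g hv) with h | h
        · left; exact Subrepresentation.toSubmodule_injective h
        · right; exact Subrepresentation.toSubmodule_injective h }

theorem irr_nontrivial {G W : Type*} [Group G] [AddCommGroup W] [Module ℂ W]
    (ρ : Representation ℂ G W) (h : ρ.IsIrreducible) : Nontrivial W := by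
  have h1 : (⊥ : Subrepresentation ρ) ≠ ⊤ := bot_ne_top
  by_contra hn
  rw [not_nontrivial_iff_subsingleton] at hn
  apply h1
  apply Subrepresentation.toSubmodule_injective
  exact Subsingleton.elim _ _

theorem irr_eq {G W : Type*} [Group G] [AddCommGroup W] [Module ℂ W]
    (ρ : Representation ℂ G W) (h : ρ.IsIrreducible) (Y : Submodule ℂ W)
    (hY : ∀ g, ∀ v ∈ Y, ρ g v ∈ Y) : Y = ⊥ ∨ Y = ⊤ := by
  rcases h.eq_bot_or_eq_top ⟨Y, hY⟩ with h1 | h1
  · left; exact congrArg Subrepresentation.toSubmodule h1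
  · right; exact congrArg Subrepresentation.toSubmodule h1

/-- Nonvanishing tested on an arbitrary finite dimensional space. -/
theorem Nonvanishing.character_ne {G : Type*} [Group G] {x : G} (hx : Nonvanishing x)
    {W : Type*} [AddCommGroup W] [Module ℂ W] [FiniteDimensional ℂ W]
    (ρ : Representation ℂ G W) (h : ρ.IsIrreducible) : ρ.character x ≠ 0 := by
  have := irr_nontrivial ρ h
  set n := Module.finrank ℂ W with hn
  have e : W ≃ₗ[ℂ] (Fin n → ℂ) := LinearEquiv.ofFinrankEq W (Fin n → ℂ) (by simp [hn])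
  let σ : Representation ℂ G (Fin n → ℂ) :=
    { toFun := fun g => e.conj (ρ g)
      map_one' := by rw [map_one]; exact e.conj_id
      map_mul' := fun g g' => by rw [map_mul]; exact e.conj_comp (ρ g') (ρ g) }
  have hσ : ∀ g v, σ g v = e (ρ g (e.symm v)) := fun g v => rfl
  have : Nontrivial (Fin n → ℂ) := e.symm.toEquiv.nontrivial
  have hirr : σ.IsIrreducible := by
    apply irr_of
    intro Y hY
    rcases irr_eq ρ h (Y.comap e.toLinearMap) (by
      intro g v hv
      rw [Submodule.mem_comap] at hv ⊢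
      have := hY g _ hv
      rw [hσ] at this
      simpa using this) with h1 | h1
    · left
      rw [Submodule.eq_bot_iff] at h1 ⊢
      intro v hv
      have := h1 (e.symm v) (by rw [Submodule.mem_comap]; simpa using hv)
      simpa using this
    · right
      rw [Submodule.eq_top_iff'] at h1 ⊢
      intro v
      have := h1 (e.symm v)
      rw [Submodule.mem_comap] at this
      simpa using this
  have := hx n σ hirr
  have h2 : σ.character x = ρ.character x := by
    change LinearMap.trace ℂ _ (e.conj (ρ x)) = LinearMap.trace ℂ _ (ρ x)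
    exact LinearMap.trace_conj' (ρ x) e
  rwa [h2] at this

/-- Nonvanishing elements map to nonvanishing elements of quotients. -/
theorem Nonvanishing.map {G K : Type*} [Group G] [Group K] {x : G} (hx : Nonvanishing x)
    (f : G →* K) (hf : Function.Surjective f) : Nonvanishing (f x) := by
  intro n ρ hρ
  have := irr_nontrivial ρ hρ
  let σ : Representation ℂ G (Fin n → ℂ) := ρ.comp f
  have hirr : σ.IsIrreducible := by
    apply irr_of
    intro Y hY
    apply irr_eq ρ hρ
    intro k v hv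
    obtain ⟨g, rfl⟩ := hf k
    exact hY g v hv
  exact hx n σ hirr

/-- Existence of an irreducible representation with a prescribed weight. -/
theorem exists_irr {G : Type*} [Group G] [Finite G] (Z : Subgroup G) (lam : Z →* ℂˣ) :
    ∃ (W : Submodule ℂ (G → ℂ)) (ρ : Representation ℂ G W), ρ.IsIrreducible ∧
      ∃ w : W, w ≠ 0 ∧ ∀ z : Z, ρ z w = (lam z : ℂ) • w := by
  classical
  let R : Representation ℂ G (G → ℂ) :=
    { toFun := fun g =>
        { toFun := fun f y => f (y * g)
          map_add' := fun _ _ => rfl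
          map_smul' := fun _ _ => rfl }
      map_one' := by ext; simp
      map_mul' := fun g g' => by ext; simp [mul_assoc] }
  have hR : ∀ g f y, R g f y = f (y * g) := fun _ _ _ => rfl
  let P : ℕ → Prop := fun n => ∃ Y : Submodule ℂ (G → ℂ), Module.finrank ℂ Y = n ∧
    (∀ g, ∀ v ∈ Y, R g v ∈ Y) ∧ ∃ w ∈ Y, w ≠ 0 ∧ ∀ z : Z, R z w = (lam z : ℂ) • w
  have hP : ∃ n, P n := by
    refine ⟨_, ⊤, rfl, fun _ _ _ => trivial, fun y => if h : y ∈ Z then (lam ⟨y, h⟩ : ℂ) else 0,
      trivial, ?_, ?_⟩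
    · intro h
      have := congrFun h 1
      simp only [Z.one_mem, dite_true, Pi.zero_apply] at this
      exact (lam _).ne_zero this
    · intro z
      ext y
      rw [hR]
      by_cases hy : y ∈ Z
      · have h1 : y * (z : G) ∈ Z := Z.mul_mem hy z.2
        simp only [h1, hy, dite_true, Pi.smul_apply, smul_eq_mul]
        have : (⟨y * z, h1⟩ : Z) = ⟨y, hy⟩ * z := rfl
        rw [this, map_mul, Units.val_mul, mul_comm]
      · have h1 : y * (z : G) ∉ Z := fun h => hy (by
          have := Z.mul_mem h (Z.inv_mem z.2)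
          simpa using this)
        simp only [h1, hy, dite_false, Pi.smul_apply, smul_zero]
  obtain ⟨Y, hYn, hYi, w, hwY, hw0, hw⟩ := Nat.find_spec hP
  have hmin : ∀ Y' : Submodule ℂ (G → ℂ), Y' ≤ Y → (∀ g, ∀ v ∈ Y', R g v ∈ Y') →
      (∃ w ∈ Y', w ≠ 0 ∧ ∀ z : Z, R z w = (lam z : ℂ) • w) → Y' = Y := by
    intro Y' hle hi hw
    apply Submodule.eq_of_le_of_finrank_le hle
    rw [hYn]
    exact Nat.find_min' hP ⟨Y', rfl, hi, hw⟩
  let S : Subrepresentation R := ⟨Y, fun g v hv => hYi g v hv⟩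
  refine ⟨Y, S.toRepresentation, ?_, ⟨w, hwY⟩, ?_, ?_⟩
  · have : Nontrivial Y := ⟨⟨⟨w, hwY⟩, 0, fun h => hw0 (congrArg Subtype.val h)⟩⟩
    apply irr_of
    intro Y1 hY1
    let Y' : Submodule ℂ (G → ℂ) := Y1.map Y.subtype
    have hY'Y : Y' ≤ Y := Submodule.map_subtype_le Y Y1
    have hY'i : ∀ g, ∀ v ∈ Y', R g v ∈ Y' := by
      intro g v hv
      obtain ⟨u, hu, rfl⟩ := Submodule.mem_map.1 hv
      exact Submodule.mem_map.2 ⟨_, hY1 g u hu, rfl⟩
    obtain ⟨T, hT⟩ := exists_isCompl (⟨Y', fun g v hv => hY'i g v hv⟩ : Subrepresentation R)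
    let Y'' : Submodule ℂ (G → ℂ) := T.toSubmodule
    have hdisj : Y' ⊓ Y'' = ⊥ := by
      have := hT.inf_eq_bot
      exact congrArg Subrepresentation.toSubmodule this
    have hsup : Y' ⊔ Y'' = ⊤ := by
      have := hT.sup_eq_top
      exact congrArg Subrepresentation.toSubmodule this
    have hYY : Y' ⊔ (Y'' ⊓ Y) = Y := by
      rw [← sup_inf_assoc_of_le Y'' hY'Y, hsup, top_inf_eq]
    have hwm : w ∈ Y' ⊔ (Y'' ⊓ Y) := by rw [hYY]; exact hwY
    obtain ⟨a, ha, b, hb, hab⟩ := Submodule.mem_sup.1 hwm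
    have hsplit : ∀ z : Z, R z a = (lam z : ℂ) • a ∧ R z b = (lam z : ℂ) • b := by
      intro z
      have h1 : R z a - (lam z : ℂ) • a = (lam z : ℂ) • b - R z b := by
        have := hw z
        rw [← hab, map_add, smul_add] at this
        rw [sub_eq_sub_iff_add_eq_add, this, add_comm]
      have h2 : R z a - (lam z : ℂ) • a ∈ Y' ⊓ Y'' := by
        refine ⟨Y'.sub_mem (hY'i _ _ ha) (Y'.smul_mem _ ha), ?_⟩
        rw [h1]
        exact Y''.sub_mem (Y''.smul_mem _ hb.1) (T.apply_mem_toSubmodule _ hb.1)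
      rw [hdisj, Submodule.mem_bot] at h2
      refine ⟨sub_eq_zero.1 h2, ?_⟩
      rw [h2] at h1
      exact (sub_eq_zero.1 h1.symm).symm
    have hor : a ≠ 0 ∨ b ≠ 0 := by
      by_contra hc
      push Not at hc
      rw [hc.1, hc.2, add_zero] at hab
      exact hw0 hab.symm
    rcases hor with ha0 | hb0
    · right
      have := hmin Y' hY'Y hY'i ⟨a, ha, ha0, fun z => (hsplit z).1⟩
      rw [Submodule.eq_top_iff']
      intro u
      have hu : (u : G → ℂ) ∈ Y' := by rw [this]; exact u.2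
      obtain ⟨u', hu', he⟩ := Submodule.mem_map.1 hu
      rwa [← Subtype.ext he]
    · left
      have := hmin (Y'' ⊓ Y) inf_le_right (by
        intro g v hv
        exact ⟨T.apply_mem_toSubmodule _ hv.1, hYi _ _ hv.2⟩) ⟨b, hb, hb0, fun z => (hsplit z).2⟩
      rw [Submodule.eq_bot_iff]
      intro u hu
      have hu1 : (u : G → ℂ) ∈ Y' := Submodule.mem_map.2 ⟨u, hu, rfl⟩
      have hu2 : (u : G → ℂ) ∈ Y'' ⊓ Y := by rw [this]; exact u.2
      have : (u : G → ℂ) ∈ Y' ⊓ Y'' := ⟨hu1, hu2.1⟩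
      rw [hdisj, Submodule.mem_bot] at this
      exact Subtype.ext this
  · intro h
    exact hw0 (congrArg Subtype.val h)
  · intro z
    exact Subtype.ext (hw z)

/-- The weight space of a linear character of a subgroup. -/
def wt {G W : Type*} [Group G] [AddCommGroup W] [Module ℂ W] (ρ : Representation ℂ G W)
    {Z : Subgroup G} (lam : Z →* ℂˣ) : Submodule ℂ W where
  carrier := {v | ∀ z : Z, ρ z v = (lam z : ℂ) • v}
  add_mem' := by
    intro a b ha hb z
    rw [map_add, ha z, hb z, smul_add]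
  zero_mem' := by
    intro z
    rw [map_zero, smul_zero]
  smul_mem' := by
    intro c a ha z
    rw [map_smul, ha z, smul_comm]

theorem mem_wt {G W : Type*} [Group G] [AddCommGroup W] [Module ℂ W] (ρ : Representation ℂ G W)
    {Z : Subgroup G} (lam : Z →* ℂˣ) (v : W) :
    v ∈ wt ρ lam ↔ ∀ z : Z, ρ z v = (lam z : ℂ) • v := Iff.rfl

/-- The weights conjugate. -/
theorem wt_conj {G W : Type*} [Group G] [AddCommGroup W] [Module ℂ W] (ρ : Representation ℂ G W)
    {Z : Subgroup G} [hZ : Z.Normal] (lam mu : Z →* ℂˣ) (g : G)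
    (h : ∀ z z' : Z, (z' : G) = g⁻¹ * z * g → mu z = lam z') (v : W) (hv : v ∈ wt ρ lam) :
    ρ g v ∈ wt ρ mu := by
  intro z
  have hz' : g⁻¹ * z * g ∈ Z := by
    have := hZ.conj_mem z z.2 g⁻¹
    simpa using this
  have h1 : ρ z (ρ g v) = ρ g (ρ (g⁻¹ * z * g) v) := by
    rw [← Module.End.mul_apply, ← Module.End.mul_apply, ← map_mul, ← map_mul]
    congr 2
    group
  have h2 := hv ⟨_, hz'⟩
  rw [h1]
  simp only at h2
  rw [h2, map_smul, h z ⟨_, hz'⟩ rfl]

theorem beta {G : Type*} [Group G] [Finite G] {x : G} (hx : Nonvanishing x) (Z : Subgroup G)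
    [hZ : Z.Normal] (lam : Z →* ℂˣ)
    (hinv : ∀ (g : G) (z z' : Z), (z' : G) = g * z * g⁻¹ → lam z' = lam z) (y : G) (z : Z)
    (hz : (z : G) = x⁻¹ * y⁻¹ * x * y) : lam z = 1 := by
  obtain ⟨W, ρ, hirr, w, hw0, hw⟩ := exists_irr Z lam
  have htop : wt ρ lam = ⊤ := by
    rcases irr_eq ρ hirr (wt ρ lam) (fun g v hv => wt_conj ρ lam lam g (by
      intro z z' h
      exact (hinv g⁻¹ z z' (by rw [h, inv_inv])).symm) v hv) with h | h
    · exfalso
      have : w ∈ wt ρ lam := hw
      rw [h, Submodule.mem_bot] at this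
      exact hw0 this
    · exact h
  have hall : ∀ v, ρ z v = (lam z : ℂ) • v := by
    intro v
    have : v ∈ wt ρ lam := by rw [htop]; trivial
    exact this z
  have h1 : ρ (x * z) = (lam z : ℂ) • ρ x := by
    ext1 v
    rw [map_mul, Module.End.mul_apply, hall, map_smul, LinearMap.smul_apply]
  have h2 : x * (z : G) = y⁻¹ * x * (y⁻¹)⁻¹ := by
    rw [hz]; group
  have h3 : ρ.character (x * z) = (lam z : ℂ) * ρ.character x := by
    unfold Representation.character
    rw [h1, map_smul, smul_eq_mul]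
  rw [h2, Representation.char_conj] at h3
  have hne := hx.character_ne ρ hirr
  have h4 : (lam z : ℂ) = 1 := by
    have : ((lam z : ℂ) - 1) * ρ.character x = 0 := by rw [sub_mul, ← h3]; ring
    rcases mul_eq_zero.1 this with h | h
    · exact sub_eq_zero.1 h
    · exact absurd h hne
  exact Units.ext h4

theorem alpha {G : Type*} [Group G] [Finite G] {x : G} (hx : Nonvanishing x) (V : Subgroup G)
    [hV : V.Normal] (hc : ∀ a b : V, a * b = b * a) (lam : V →* ℂˣ) :
    ∃ g : G, ∀ v v' : V, (v' : G) = (g * x * g⁻¹) * v * (g * x * g⁻¹)⁻¹ → lam v' = lam v := by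
  classical
  by_contra hcon
  push Not at hcon
  obtain ⟨W, ρ, hirr, w, hw0, hw⟩ := exists_irr V lam
  let cj : G → (V →* ℂˣ) → (V →* ℂˣ) := fun g mu =>
    mu.comp (MulAut.conjNormal g⁻¹ : MulAut V).toMonoidHom
  have hcj : ∀ g mu v, cj g mu v = mu (MulAut.conjNormal g⁻¹ v) := fun _ _ _ => rfl
  have hcjm : ∀ g h mu, cj (g * h) mu = cj g (cj h mu) := by
    intro g h mu
    ext v
    rw [hcj, hcj, hcj]
    congr 2
    apply Subtype.ext
    simp [mul_assoc]
  have hcj1 : ∀ mu, cj 1 mu = mu := by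
    intro mu
    ext v
    rw [hcj]
    congr 2
    apply Subtype.ext
    simp
  have hcjw : ∀ g mu v, v ∈ wt ρ mu → ρ g v ∈ wt ρ (cj g mu) := by
    intro g mu v hv
    apply wt_conj ρ mu (cj g mu) g _ v hv
    intro z z' h
    rw [hcj]
    congr 1
    apply Subtype.ext
    simp [h]
  let ι : Type _ := {mu : V →* ℂˣ // ∃ g, mu = cj g lam}
  let N : ι → Submodule ℂ W := fun mu => wt ρ mu.1
  let σ : ι → ι := fun mu => ⟨cj x mu.1, by
    obtain ⟨g, hg⟩ := mu.2
    exact ⟨x * g, by rw [hcjm, ← hg]⟩⟩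
  have hσ : ∀ i, σ i ≠ i := by
    rintro ⟨mu, g, rfl⟩ h
    have h1 : cj x (cj g lam) = cj g lam := congrArg Subtype.val h
    obtain ⟨v, v', hv', hne⟩ := hcon g⁻¹
    apply hne
    have h2 : cj (g⁻¹ * x * g) lam = lam := by
      rw [hcjm, hcjm, h1, ← hcjm, inv_mul_cancel, hcj1]
    have h3 := DFunLike.congr_fun h2 v'
    rw [hcj] at h3
    rw [← h3]
    congr 1
    apply Subtype.ext
    simp [hv', mul_assoc]
  have hind : iSupIndep N := by
    have h1 := Module.End.independent_iInf_maxGenEigenspace_of_forall_mapsTo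
      (fun v : V => ρ v) (by
        intro i j φ
        apply Module.End.mapsTo_maxGenEigenspace_of_comm
        change ρ j * ρ i = ρ i * ρ j
        rw [← map_mul, ← map_mul]
        congr 1
        exact congrArg Subtype.val (hc j i))
    let F : ι → (V → ℂ) := fun mu v => (mu.1 v : ℂ)
    have hF : Function.Injective F := by
      intro a b hab
      apply Subtype.ext
      ext v
      exact congrFun hab v
    refine (h1.comp hF).mono ?_
    intro mu v hv
    rw [Function.comp_apply, Submodule.mem_iInf]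
    intro z
    rw [Module.End.mem_maxGenEigenspace]
    refine ⟨1, ?_⟩
    rw [pow_one, LinearMap.sub_apply, hv z]
    simp [F]
  have hsup : ⨆ i, N i = ⊤ := by
    rcases irr_eq ρ hirr (⨆ i, N i) (by
      intro g
      change (⨆ i, N i) ≤ (⨆ i, N i).comap (ρ g)
      apply iSup_le
      intro mu v hv
      rw [Submodule.mem_comap]
      refine Submodule.mem_iSup_of_mem (⟨cj g mu.1, ?_⟩ : ι) (hcjw g mu.1 v hv)
      obtain ⟨g', hg'⟩ := mu.2
      exact ⟨g * g', by rw [hcjm, ← hg']⟩) with h | h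
    · exfalso
      have hw1 : w ∈ ⨆ i, N i :=
        Submodule.mem_iSup_of_mem (⟨lam, 1, (hcj1 lam).symm⟩ : ι) hw
      rw [h, Submodule.mem_bot] at hw1
      exact hw0 hw1
    · exact h
  have hint := DirectSum.isInternal_submodule_of_iSupIndep_of_iSup_eq_top hind hsup
  have htr : LinearMap.trace ℂ W (ρ x) = 0 :=
    LinearMap.trace_eq_zero_of_mapsTo_ne hint σ hσ (fun mu v hv => hcjw x mu.1 v hv)
  exact hx.character_ne ρ hirr htr

end Pool.Agent.H56.INW
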