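import Pool.Agent.H56.INW.PGrp

/-!
# Systems of imprimitivity of an irreducible module
-/

namespace Pool.Agent.H56.INW

open scoped Pointwise

variable {k V H : Type*} [Field k] [AddCommGroup V] [Module k V]
  [Group H] [DistribMulAction H V] [SMulCommClass H k V]

/-- No proper nonzero submodule is invariant. -/
def Irr (k V H : Type*) [Field k] [AddCommGroup V] [Module k V]
    [Group H] [DistribMulAction H V] : Prop :=
  ∀ Y : Submodule k V, (∀ (h : H), ∀ y ∈ Y, h • y ∈ Y) → Y = ⊥ ∨ Y = ⊤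

/-- A system of imprimitivity: a finite set of nonzero subspaces, permuted by the group,
whose sum is direct. -/
structure IsSys (H : Type*) [Group H] [DistribMulAction H V] [SMulCommClass H k V]
    (W : Finset (Submodule k V)) : Prop where
  ne : W.Nonempty
  nz : ∀ U ∈ W, U ≠ ⊥
  inv : ∀ (h : H), ∀ U ∈ W, h • U ∈ W
  ind : ∀ f : Submodule k V → V, (∀ U ∈ W, f U ∈ U) → ∑ U ∈ W, f U = 0 → ∀ U ∈ W, f U = 0

theorem mem_iSup_sum (T : Finset (Submodule k V)) (v : V) (hv : v ∈ ⨆ X ∈ T, X) :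
    ∃ g : Submodule k V → V, (∀ X, g X ∈ X) ∧ (∀ X, X ∉ T → g X = 0) ∧ ∑ X ∈ T, g X = v := by
  classical
  obtain ⟨μ, hμ⟩ := (Submodule.mem_iSup_finset_iff_exists_sum (s := T)
    (fun X : Submodule k V => X) v).1 hv
  refine ⟨fun X => if X ∈ T then (μ X : V) else 0, ?_, ?_, ?_⟩
  · intro X
    by_cases h : X ∈ T
    · simp only [h, if_true]; exact (μ X).2
    · simp only [h, if_false]; exact X.zero_mem
  · intro X h
    simp only [h, if_false]
  · rw [← hμ]
    apply Finset.sum_congr rfl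
    intro X h
    simp only [h, if_true]

namespace IsSys

variable {W : Finset (Submodule k V)}

theorem uniq (hW : IsSys H W) (f g : Submodule k V → V) (hf : ∀ U ∈ W, f U ∈ U)
    (hg : ∀ U ∈ W, g U ∈ U) (h : ∑ U ∈ W, f U = ∑ U ∈ W, g U) : ∀ U ∈ W, f U = g U := by
  intro U hU
  have := hW.ind (fun U => f U - g U) (fun U hU => U.sub_mem (hf U hU) (hg U hU))
    (by rw [Finset.sum_sub_distrib, h, sub_self]) U hU
  exact sub_eq_zero.1 this

/-- A nonzero vector of a member is not in the sum of other members. -/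
theorem mem_of_mem_iSup (hW : IsSys H W) {U : Submodule k V} (hU : U ∈ W)
    {T : Finset (Submodule k V)} (hT : T ⊆ W) {v : V} (hv : v ∈ U) (hv0 : v ≠ 0)
    (hvT : v ∈ ⨆ X ∈ T, X) : U ∈ T := by
  classical
  by_contra hUT
  obtain ⟨g, hg, hg0, hgs⟩ := mem_iSup_sum T v hvT
  have h1 : ∑ X ∈ W, g X = v := by
    rw [← hgs]
    exact (Finset.sum_subset hT fun X _ hX => hg0 X hX).symm
  have h2 : ∑ X ∈ W, (if X = U then v else 0) = v := by
    rw [Finset.sum_ite_eq' W U (fun _ => v), if_pos hU]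
  have h3 := hW.uniq g (fun X => if X = U then v else 0) (fun X _ => hg X) (by
    intro X _
    by_cases h : X = U
    · simp only [h, if_true]; exact hv
    · simp only [h, if_false]; exact X.zero_mem) (h1.trans h2.symm) U hU
  rw [hg0 U hUT, if_pos rfl] at h3
  exact hv0 h3.symm

theorem eq_of_mem (hW : IsSys H W) {U U' : Submodule k V} (hU : U ∈ W) (hU' : U' ∈ W)
    {v : V} (hv : v ∈ U) (hv' : v ∈ U') (hv0 : v ≠ 0) : U = U' := by
  have := hW.mem_of_mem_iSup hU (T := {U'}) (by
    intro X hX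
    rw [Finset.mem_singleton] at hX
    rw [hX]; exact hU') hv hv0 (by
      have : (⨆ X ∈ ({U'} : Finset (Submodule k V)), X) = U' := by
        simp
      rw [this]; exact hv')
  exact Finset.mem_singleton.1 this

theorem exists_ne_zero (hW : IsSys H W) {U : Submodule k V} (hU : U ∈ W) :
    ∃ v ∈ U, v ≠ 0 := Submodule.exists_mem_ne_zero_of_ne_bot (hW.nz U hU)

/-- The sum of an invariant nonempty set of nonzero subspaces is everything. -/
theorem iSup_eq_top (hirr : Irr k V H) (T : Finset (Submodule k V))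
    (hne : T.Nonempty) (hnz : ∀ U ∈ T, U ≠ ⊥) (hinv : ∀ (h : H), ∀ U ∈ T, h • U ∈ T) :
    (⨆ X ∈ T, X) = ⊤ := by
  rcases hirr (⨆ X ∈ T, X) (by
    intro h y hy
    have h1 : h • y ∈ h • (⨆ X ∈ T, X) := Submodule.smul_mem_pointwise_smul _ _ _ hy
    have h2 : h • (⨆ X ∈ T, X) ≤ ⨆ X ∈ T, X := by
      rw [Submodule.smul_iSup']
      apply iSup_le
      intro X
      rw [Submodule.smul_iSup']
      apply iSup_le
      intro hX
      exact le_iSup₂_of_le (h • X) (hinv h X hX) le_rfl
    exact h2 h1) with h | h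
  · exfalso
    obtain ⟨U, hU⟩ := hne
    apply hnz U hU
    rw [eq_bot_iff, ← h]
    exact le_iSup₂_of_le U hU le_rfl
  · exact h

theorem span (hW : IsSys H W) (hirr : Irr k V H) (v : V) :
    ∃ g : Submodule k V → V, (∀ X, g X ∈ X) ∧ ∑ X ∈ W, g X = v := by
  have h := iSup_eq_top hirr W hW.ne hW.nz hW.inv
  obtain ⟨g, hg, _, hgs⟩ := mem_iSup_sum W v (by rw [h]; trivial)
  exact ⟨g, hg, hgs⟩

/-- The group is transitive on the members. -/
theorem trans [Finite H] (hW : IsSys H W) (hirr : Irr k V H) {U U' : Submodule k V} (hU : U ∈ W)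
    (hU' : U' ∈ W) : ∃ h : H, h • U = U' := by
  classical
  have : Fintype H := Fintype.ofFinite H
  let T : Finset (Submodule k V) := Finset.univ.image fun h : H => h • U
  have hTW : T ⊆ W := by
    intro X hX
    obtain ⟨h, _, rfl⟩ := Finset.mem_image.1 hX
    exact hW.inv h U hU
  have hT := iSup_eq_top hirr T ⟨(1 : H) • U, Finset.mem_image_of_mem _ (Finset.mem_univ _)⟩
    (fun X hX => hW.nz X (hTW hX)) (by
      intro h X hX
      obtain ⟨g, _, rfl⟩ := Finset.mem_image.1 hX
      refine Finset.mem_image.2 ⟨h * g, Finset.mem_univ _, ?_⟩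
      rw [mul_smul])
  obtain ⟨v, hv, hv0⟩ := hW.exists_ne_zero hU'
  have := hW.mem_of_mem_iSup hU' hTW hv hv0 (by rw [hT]; trivial)
  obtain ⟨h, _, hh⟩ := Finset.mem_image.1 this
  exact ⟨h, hh⟩

/-- The elements fixing every member. -/
def kern (_hW : IsSys H W) : Subgroup H where
  carrier := {h | ∀ U ∈ W, h • U = U}
  one_mem' := fun U _ => one_smul H U
  mul_mem' := by
    intro a b ha hb U hU
    rw [mul_smul, hb U hU, ha U hU]
  inv_mem' := by
    intro a ha U hU
    rw [inv_smul_eq_iff]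
    exact (ha U hU).symm

theorem mem_kern (hW : IsSys H W) (h : H) : h ∈ hW.kern ↔ ∀ U ∈ W, h • U = U := Iff.rfl

instance kern_normal (hW : IsSys H W) : hW.kern.Normal := by
  refine ⟨fun n hn g => ?_⟩
  rw [mem_kern] at hn ⊢
  intro U hU
  rw [mul_smul, mul_smul, hn _ (hW.inv g⁻¹ U hU), smul_inv_smul]

end IsSys

end Pool.Agent.H56.INW
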