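import Pool.Agent.H56.INW.Loc

/-!
# The prime two: a greedy choice of a vector fixed by no element of a set
-/

namespace Pool.Agent.H56.INW

open scoped Pointwise

variable {k V H : Type*} [Field k] [AddCommGroup V] [Module k V]
  [Group H] [DistribMulAction H V] [SMulCommClass H k V]

/-- The elements acting trivially on a subspace. -/
def trv (H : Type*) [Group H] [DistribMulAction H V] (U : Submodule k V) : Subgroup H where
  carrier := {g | ∀ w ∈ U, g • w = w}
  one_mem' := fun w _ => one_smul H w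
  mul_mem' := by
    intro a b ha hb w hw
    rw [mul_smul, hb w hw, ha w hw]
  inv_mem' := by
    intro a ha w hw
    rw [inv_smul_eq_iff]
    exact (ha w hw).symm

omit [SMulCommClass H k V] in
theorem mem_trv (U : Submodule k V) (g : H) : g ∈ trv H U ↔ ∀ w ∈ U, g • w = w := Iff.rfl

open Classical in
/-- The sign: `1` if the element acts trivially, `-1` otherwise. -/
noncomputable def sg (U : Submodule k V) (g : H) : ℤ := if g ∈ trv H U then 1 else -1

omit [SMulCommClass H k V] in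
theorem sg_of_mem {U : Submodule k V} {g : H} (h : g ∈ trv H U) : sg U g = 1 := by
  unfold sg
  rw [if_pos h]

omit [SMulCommClass H k V] in
theorem sg_of_not_mem {U : Submodule k V} {g : H} (h : g ∉ trv H U) : sg U g = -1 := by
  unfold sg
  rw [if_neg h]

/-- The hypotheses for the prime two. -/
structure TwoData (N : Subgroup H) (W : Finset (Submodule k V)) (A : Submodule k V → Subgroup H) :
    Prop where
  pgrp : IsPGroup 2 N
  pres : ∀ U ∈ W, ∀ n ∈ N, n • U = U
  sq : ∀ U ∈ W, ∀ n ∈ N, n * n ∈ A U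
  fpf : ∀ U ∈ W, ∀ a ∈ A U, ∀ w ∈ U, w ≠ 0 → a • w = w → a ∈ trv H U
  two : ∀ v : V, v + v = 0 → v = 0
  nz : ∀ U ∈ W, U ≠ ⊥

namespace TwoData

variable {N : Subgroup H} {W : Finset (Submodule k V)} {A : Submodule k V → Subgroup H}

theorem smul_mem (hT : TwoData N W A) {U : Submodule k V} (hU : U ∈ W) {n : H} (hn : n ∈ N)
    {w : V} (hw : w ∈ U) : n • w ∈ U := smul_mem_of_stab (hT.pres U hU n hn) hw

theorem comm (hT : TwoData N W A) {U : Submodule k V} (hU : U ∈ W) {a b : H} (ha : a ∈ N)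
    (hb : b ∈ N) : a⁻¹ * b⁻¹ * a * b ∈ A U := by
  have h1 : a⁻¹ * b⁻¹ * a * b = (a⁻¹ * a⁻¹) * ((a * b⁻¹) * (a * b⁻¹)) * (b * b) := by group
  rw [h1]
  exact (A U).mul_mem ((A U).mul_mem (hT.sq U hU _ (N.inv_mem ha))
    (hT.sq U hU _ (N.mul_mem ha (N.inv_mem hb)))) (hT.sq U hU _ hb)

theorem ne_neg (hT : TwoData N W A) {v : V} (hv : v ≠ 0) : v ≠ -v := by
  intro h
  apply hv
  apply hT.two
  nth_rewrite 2 [h]
  exact add_neg_cancel v

theorem exists_reg [Finite H] [Finite V] (hT : TwoData N W A) {U : Submodule k V} (hU : U ∈ W)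
    (B : Subgroup H) (hBN : B ≤ N)
    (hBc : ∀ b ∈ B, ∀ c ∈ B, ∀ w ∈ U, b • c • w = c • b • w) :
    ∃ v ∈ U, v ≠ 0 ∧ ∀ b ∈ B, b • v = v → b ∈ trv H U := by
  classical
  have : Fintype H := Fintype.ofFinite H
  let st : V → Finset H := fun v => Finset.univ.filter fun b => b ∈ B ∧ b • v = v
  have hst : ∀ v b, b ∈ st v ↔ b ∈ B ∧ b • v = v := by
    intro v b
    simp only [st, Finset.mem_filter, Finset.mem_univ, true_and]
  obtain ⟨w₀, hw₀, hw₀0⟩ := Submodule.exists_mem_ne_zero_of_ne_bot (hT.nz U hU)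
  obtain ⟨v, ⟨hvU, hv0⟩, hmin⟩ := Set.exists_min_image {v : V | v ∈ U ∧ v ≠ 0}
    (fun v => (st v).card) (Set.toFinite _) ⟨w₀, hw₀, hw₀0⟩
  refine ⟨v, hvU, hv0, fun b hb hbv => ?_⟩
  by_contra hbt
  rw [mem_trv] at hbt
  push Not at hbt
  obtain ⟨w₁, hw₁, hbw₁⟩ := hbt
  have hbb : b * b ∈ trv H U := by
    apply hT.fpf U hU _ (hT.sq U hU b (hBN hb)) v hvU hv0
    rw [mul_smul, hbv, hbv]
  set w := w₁ - b • w₁ with hw
  have hwU : w ∈ U := U.sub_mem hw₁ (hT.smul_mem hU (hBN hb) hw₁)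
  have hw0 : w ≠ 0 := fun h => hbw₁ (sub_eq_zero.1 h).symm
  have hbw : b • w = -w := by
    have h1 : b • b • w₁ = w₁ := by
      rw [← mul_smul]; exact hbb w₁ hw₁
    rw [hw, smul_sub, h1]
    abel
  have hv'U : v + w ∈ U := U.add_mem hvU hwU
  have hbv' : b • (v + w) = v - w := by
    rw [smul_add, hbv, hbw]; abel
  have hv'0 : v + w ≠ 0 := by
    intro h
    have h1 : v = -w := by rw [← add_eq_zero_iff_eq_neg]; exact h
    rw [h, smul_zero] at hbv'
    have h2 : v = w := (sub_eq_zero.1 hbv'.symm)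
    rw [h2] at h1
    exact hT.ne_neg hw0 h1
  have hlt : (st (v + w)).card < (st v).card := by
    apply Finset.card_lt_card
    rw [Finset.ssubset_iff_of_subset]
    · refine ⟨b, (hst _ _).2 ⟨hb, hbv⟩, fun h => ?_⟩
      have h1 := ((hst _ _).1 h).2
      rw [hbv'] at h1
      have h2 : w = -w := by
        have h3 : v - w = v + w := h1
        have h4 : -w = w := by
          calc -w = (v - w) - v := by abel
            _ = (v + w) - v := by rw [h3]
            _ = w := by abel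
        exact h4.symm
      exact hT.ne_neg hw0 h2
    · intro c hc
      rw [hst] at hc ⊢
      refine ⟨hc.1, ?_⟩
      have h1 : c • (v - w) = v - w := by
        rw [← hbv', ← hBc b hb c hc.1 _ hv'U, hc.2]
      have h2 : c • (v + v) = v + v := by
        have h3 : v + v = (v + w) + (v - w) := by abel
        rw [h3, smul_add, h1, hc.2]
      have h4 : (c • v - v) + (c • v - v) = 0 := by
        rw [smul_add] at h2
        calc (c • v - v) + (c • v - v) = (c • v + c • v) - (v + v) := by abel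
          _ = 0 := by rw [h2, sub_self]
      exact sub_eq_zero.1 (hT.two _ h4)
  exact absurd (hmin (v + w) ⟨hv'U, hv'0⟩) (not_le.2 hlt)

theorem exists_neg (hT : TwoData N W A) {U : Submodule k V} (hU : U ∈ W)
    (K : Subgroup H) (hKN : K ≤ N) {a m : H} (ha : a ∈ K) (haa : a * a ∈ trv H U)
    (hm : m ∈ K) (hc : a⁻¹ * m⁻¹ * a * m ∉ trv H U) :
    ∃ b ∈ K, ∀ w ∈ U, (a⁻¹ * b⁻¹ * a * b) • w = -w := by
  -- work in the group of automorphisms of `U`
  have hstab : ∀ n ∈ K, n ∈ MulAction.stabilizer H U := fun n hn => hT.pres U hU n (hKN hn)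
  let φ : K →* (U ≃ₗ[k] U) := (loc U).comp (Subgroup.inclusion hstab)
  have hφ : ∀ (n : K) (w : U), ((φ n w : U) : V) = (n : H) • (w : V) := fun n w => rfl
  have hφ1 : ∀ n : K, φ n = 1 ↔ (n : H) ∈ trv H U := by
    intro n
    constructor
    · intro h w hw
      have := hφ n ⟨w, hw⟩
      rw [h] at this
      exact this.symm
    · intro h
      ext w
      rw [hφ]
      exact h w w.2
  let a' : K := ⟨a, ha⟩
  let m' : K := ⟨m, hm⟩
  set c : K := a'⁻¹ * m'⁻¹ * a' * m' with hcdef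
  have hcA : (c : H) ∈ A U := hT.comm hU (hKN ha) (hKN hm)
  have haa' : φ a' * φ a' = 1 := by
    rw [← map_mul, hφ1]
    exact haa
  have hainv : (φ a')⁻¹ = φ a' := inv_eq_of_mul_eq_one_left haa'
  -- `a` inverts `c`
  have hinv : (φ a')⁻¹ * φ c * φ a' = (φ c)⁻¹ := by
    rw [hcdef]
    simp only [map_mul, map_inv]
    rw [hainv]
    have h1 : φ a' * (φ a' * (φ m')⁻¹ * φ a' * φ m') * φ a'
        = (φ a' * φ a') * (φ m')⁻¹ * φ a' * φ m' * φ a' := by group
    rw [h1, haa', one_mul, mul_inv_rev, mul_inv_rev, mul_inv_rev, inv_inv, hainv]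
    group
  have hinvn : ∀ n : ℕ, (φ a')⁻¹ * φ (c ^ n)⁻¹ * φ a' = φ (c ^ n) := by
    intro n
    have h1 : (φ a')⁻¹ * φ (c ^ n)⁻¹ * φ a' = (((φ a')⁻¹ * φ c * φ a')⁻¹) ^ n := by
      have h2 : ((φ a')⁻¹ * φ c * φ a')⁻¹ = (φ a')⁻¹ * (φ c)⁻¹ * (φ a')⁻¹⁻¹ := by group
      rw [h2, conj_pow, inv_inv, map_inv, map_pow, inv_pow]
    rw [h1, hinv, inv_inv, map_pow]
  -- fixed point free elements of order two act as `-1`
  have hneg : ∀ n : K, (n : H) ∈ A U → (n : H) ∉ trv H U → (n * n : K) ∈ φ.ker →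
      ∀ w ∈ U, (n : H) • w = -w := by
    intro n hnA hnt hnn w hw
    by_contra hne
    apply hnt
    apply hT.fpf U hU _ hnA (w + (n : H) • w)
      (U.add_mem hw (hT.smul_mem hU (hKN n.2) hw))
    · intro h
      exact hne (eq_neg_of_add_eq_zero_right h)
    · rw [MonoidHom.mem_ker, hφ1] at hnn
      have h1 := hnn w hw
      rw [Subgroup.coe_mul, mul_smul] at h1
      rw [smul_add, h1, add_comm]
  -- the last nontrivial iterated square of `c`
  have hex : ∃ j : ℕ, (c ^ 2 ^ j : K) ∈ φ.ker := by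
    have hKP : IsPGroup 2 K := hT.pgrp.to_le hKN
    obtain ⟨j, hj⟩ := hKP.exists_pow_pow_eq_one c
    exact ⟨j, by rw [hj]; exact φ.ker.one_mem⟩
  classical
  obtain ⟨j, hj, hjmin⟩ : ∃ j, (c ^ 2 ^ j : K) ∈ φ.ker ∧ ∀ i < j, (c ^ 2 ^ i : K) ∉ φ.ker :=
    ⟨Nat.find hex, Nat.find_spec hex, fun i hi => Nat.find_min hex hi⟩
  rcases j with _ | j
  · exfalso
    apply hc
    rw [pow_zero, pow_one, MonoidHom.mem_ker, hφ1] at hj
    exact hj
  have hcn : ∀ n : ℕ, ((c ^ n : K) : H) ∈ A U := by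
    intro n
    rw [Subgroup.coe_pow]
    exact (A U).pow_mem hcA n
  have hcj : ∀ w ∈ U, ((c ^ 2 ^ j : K) : H) • w = -w := by
    apply hneg _ (hcn _)
    · intro h
      exact hjmin j (Nat.lt_succ_self j) ((hφ1 _).2 h)
    · rw [← pow_add, ← two_mul, ← pow_succ']
      exact hj
  rcases j with _ | j
  · refine ⟨m, hm, fun w hw => ?_⟩
    have := hcj w hw
    rw [pow_zero, pow_one] at this
    exact this
  · refine ⟨((c ^ 2 ^ j : K) : H), (c ^ 2 ^ j : K).2, fun w hw => ?_⟩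
    rw [← hcj w hw]
    have h1 : φ (a'⁻¹ * (c ^ 2 ^ j)⁻¹ * a' * (c ^ 2 ^ j)) = φ (c ^ 2 ^ (j + 1)) := by
      have h2 := hinvn (2 ^ j)
      rw [map_mul, map_mul, map_mul, map_inv, map_inv]
      rw [map_inv] at h2
      rw [h2, ← map_mul, ← pow_add, ← two_mul, ← pow_succ']
    have h3 := congrArg (fun f : U ≃ₗ[k] U => ((f ⟨w, hw⟩ : U) : V)) h1
    exact h3

end TwoData

end Pool.Agent.H56.INW
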